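import Pool.Agent.K6.H57.NG.Stm2

set_option autoImplicit false

namespace Pool.Agent.K6.H57.NG

open Finset Matrix

namespace ADD

theorem linInd_insert {V : Type} {E : Type} [AddCommGroup E] [Module ℝ E] (u : V → E) (K : Set V)
    (x : V) (hx : x ∉ K) (a : E) [DecidableEq V] (hK : LinearIndepOn ℝ u K)
    (ha : a ∉ Submodule.span ℝ (u '' K)) :
    LinearIndepOn ℝ (Function.update u x a) (insert x K) := by
  have h1 : Set.EqOn (Function.update u x a) u K := by
    intro y hy
    have : y ≠ x := fun h => hx (h ▸ hy)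
    simp [Function.update_of_ne this]
  have h2 : LinearIndepOn ℝ (Function.update u x a) K := hK.congr h1.symm
  refine h2.insert ?_
  rw [Function.update_self, Set.EqOn.image_eq h1]
  exact ha

end ADD

theorem t_ADD (h : S_GEN) : S_ADD := by
  classical
  intro V _ Γ D S u x B O hG hx hBS hBD hB hO hOne
  obtain ⟨hG1, hG2⟩ := hG
  -- the linear functionals
  let φ : V → ((Fin (2 * D + 1) → ℝ) →ₗ[ℝ] ℝ) := fun y =>
    { toFun := fun a => a ⬝ᵥ u y
      map_add' := fun a b => add_dotProduct a b (u y)
      map_smul' := fun c a => by simp [smul_dotProduct] }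
  have hφ : ∀ y a, φ y a = a ⬝ᵥ u y := fun _ _ => rfl
  let N : Submodule ℝ (Fin (2 * D + 1) → ℝ) := ⨅ y ∈ B, LinearMap.ker (φ y)
  have hN : ∀ a, a ∈ N ↔ ∀ y ∈ B, a ⬝ᵥ u y = 0 := by
    intro a
    simp only [N, Submodule.mem_iInf, LinearMap.mem_ker, hφ]
  -- the dimension of `N`
  let Φ : (Fin (2 * D + 1) → ℝ) →ₗ[ℝ] (B → ℝ) := LinearMap.pi fun y => φ y.1
  have hker : LinearMap.ker Φ = N := by
    ext a
    rw [LinearMap.mem_ker, hN]
    constructor
    · intro h y hy
      exact congrFun h ⟨y, hy⟩
    · intro h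
      funext y
      exact h y.1 y.2
  have hdim : D + 1 ≤ Module.finrank ℝ N := by
    have h1 := LinearMap.finrank_range_add_finrank_ker Φ
    rw [hker] at h1
    have h2 : Module.finrank ℝ (LinearMap.range Φ) ≤ #B := by
      refine (Submodule.finrank_le _).trans ?_
      simp
    have h3 : Module.finrank ℝ (Fin (2 * D + 1) → ℝ) = 2 * D + 1 := by simp
    omega
  -- u y is not in the span of u B for y ∈ S \ B
  have hspan : ∀ y ∈ S, y ∉ B → ∃ a ∈ N, a ⬝ᵥ u y ≠ 0 := by
    intro y hy hyB
    by_contra hcon
    push Not at hcon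
    obtain ⟨T, hT⟩ : ∃ T : Finset V, T = insert y B := ⟨_, rfl⟩
    have hyT : y ∈ T := hT ▸ mem_insert_self y B
    have hBT : ∀ z ∈ B, z ∈ T := fun z hz => hT ▸ mem_insert_of_mem hz
    have hli : LinearIndepOn ℝ u (T : Set V) :=
      hG2 _ (hT ▸ insert_subset hy hBS) (hT ▸ (card_insert_le _ _).trans (by omega))
    -- Gram matrix argument through dual annihilators
    let Ψ : (Fin (2 * D + 1) → ℝ) →ₗ[ℝ] ({z // z ∈ T} → ℝ) :=
      LinearMap.pi fun z => φ z.1
    have hsurj : LinearMap.range Ψ = ⊤ := by
      have hl : LinearIndependent ℝ (fun z : {z // z ∈ T} => u z.1) := hli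
      rw [LinearMap.range_eq_top]
      -- rank of the matrix with rows u z is the number of rows
      let M : Matrix {z // z ∈ T} (Fin (2 * D + 1)) ℝ := fun z => u z.1
      have hM : LinearIndependent ℝ M.row := hl
      have hr : M.rank = Fintype.card {z // z ∈ T} := hM.rank_matrix
      have hΨ : Ψ = M.mulVecLin := by
        refine LinearMap.ext fun a => ?_
        funext z
        show a ⬝ᵥ u z.1 = M.mulVec a z
        rw [dotProduct_comm]
        rfl
      rw [hΨ, ← LinearMap.range_eq_top]
      apply Submodule.eq_top_of_finrank_eq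
      rw [Module.finrank_fintype_fun_eq_card, ← hr]
      rfl
    have h1 : (Pi.single ⟨y, hyT⟩ 1 : {z // z ∈ T} → ℝ) ∈
        LinearMap.range Ψ := by rw [hsurj]; trivial
    obtain ⟨a, ha⟩ := h1
    have ha1 : a ∈ N := by
      rw [hN]
      intro z hz
      have h2 := congrFun ha ⟨z, hBT z hz⟩
      have hne : (⟨z, hBT z hz⟩ : {z // z ∈ T}) ≠ ⟨y, hyT⟩ := by
        intro h3
        have h4 : z = y := congrArg Subtype.val h3
        exact hyB (h4 ▸ hz)
      rw [Pi.single_eq_of_ne hne] at h2
      exact h2
    have h2 := congrFun ha ⟨y, hyT⟩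
    rw [Pi.single_eq_same] at h2
    have h3 : a ⬝ᵥ u y = 1 := h2
    rw [hcon a ha1] at h3
    exact zero_ne_one h3
  -- the proper subspaces of N
  let P : Finset (Submodule ℝ N) :=
    ((S \ B).image fun y => (LinearMap.ker (φ y)).comap N.subtype) ∪
      ((S.powerset.filter fun K : Finset V => #K ≤ D).image fun K : Finset V =>
        (Submodule.span ℝ (u '' (K : Set V))).comap N.subtype)
  have hP : ∀ p ∈ P, p ≠ ⊤ := by
    intro p hp hpt
    rcases mem_union.1 hp with hp | hp
    · obtain ⟨y, hy, rfl⟩ := mem_image.1 hp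
      obtain ⟨hyS, hyB⟩ := mem_sdiff.1 hy
      obtain ⟨a, haN, ha⟩ := hspan y hyS hyB
      have : (⟨a, haN⟩ : N) ∈ (LinearMap.ker (φ y)).comap N.subtype := by rw [hpt]; trivial
      exact ha this
    · obtain ⟨K, hK, rfl⟩ := mem_image.1 hp
      obtain ⟨hKS, hKD⟩ := mem_filter.1 hK
      have hle : N ≤ Submodule.span ℝ (u '' (K : Set V)) := by
        intro a ha
        have : (⟨a, ha⟩ : N) ∈ (Submodule.span ℝ (u '' (K : Set V))).comap N.subtype := by
          rw [hpt]; trivial
        exact this
      have h1 := Submodule.finrank_mono hle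
      have h2 : Module.finrank ℝ (Submodule.span ℝ (u '' (K : Set V))) ≤ D := by
        have h3 : (u '' (K : Set V)) = ((K.image u : Finset _) : Set (Fin (2 * D + 1) → ℝ)) := by
          simp
        rw [h3]
        exact (finrank_span_finset_le_card _).trans (card_image_le.trans hKD)
      omega
  obtain ⟨a₀, ha₀O, ha₀⟩ := hOne
  obtain ⟨a, haO, haP⟩ := h N P hP (N.subtype ⁻¹' O)
    (hO.preimage (by
      have : Continuous (N.subtype) := continuous_subtype_val
      exact this)) ⟨⟨a₀, (hN a₀).2 ha₀⟩, ha₀O⟩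
  refine ⟨a.1, haO, ?_, ?_⟩
  · have key : ∀ y ∈ S, (a.1 ⬝ᵥ u y = 0 ↔ Γ.Adj x y) := by
      intro y hy
      rw [← hB y hy]
      constructor
      · intro h0
        by_contra hyB
        apply haP ((LinearMap.ker (φ y)).comap N.subtype)
          (mem_union_left _ (mem_image_of_mem _ (mem_sdiff.2 ⟨hy, hyB⟩)))
        exact h0
      · intro hyB
        exact (hN a.1).1 a.2 y hyB
    intro y hy z hz hyz
    rcases mem_insert.1 hy with rfl | hy'
    · have hzy : z ≠ y := fun h => hyz h.symm
      have hz' : z ∈ S := (mem_insert.1 hz).resolve_left hzy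
      rw [Function.update_self, Function.update_of_ne hzy]
      exact key z hz'
    · have hyx : y ≠ x := fun h => hx (h ▸ hy')
      rcases mem_insert.1 hz with rfl | hz'
      · rw [Function.update_self, Function.update_of_ne hyx, dotProduct_comm, key y hy',
          SimpleGraph.adj_comm]
      · have hzx : z ≠ x := fun h => hx (h ▸ hz')
        rw [Function.update_of_ne hyx, Function.update_of_ne hzx]
        exact hG1 y hy' z hz' hyz
  · intro K hK hKD
    by_cases hxK : x ∈ K
    · have hK' : K.erase x ⊆ S := by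
        intro y hy
        obtain ⟨h1, h2⟩ := mem_erase.1 hy
        exact (mem_insert.1 (hK h2)).resolve_left h1
      have hc : #(K.erase x) ≤ D := by
        rw [card_erase_of_mem hxK]
        omega
      have h1 : LinearIndepOn ℝ u ((K.erase x : Finset V) : Set V) := hG2 _ hK' (by omega)
      have h2 : a.1 ∉ Submodule.span ℝ (u '' ((K.erase x : Finset V) : Set V)) := by
        intro h3
        apply haP ((Submodule.span ℝ (u '' ((K.erase x : Finset V) : Set V))).comap N.subtype)
          (mem_union_right _ (mem_image.2 ⟨K.erase x, mem_filter.2 ⟨mem_powerset.2 hK', hc⟩, rfl⟩))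
        exact h3
      have h3 := ADD.linInd_insert u ((K.erase x : Finset V) : Set V) x (by simp) a.1 h1 h2
      have h4 : insert x ((K.erase x : Finset V) : Set V) = (K : Set V) := by
        rw [← coe_insert, insert_erase hxK]
      rw [h4] at h3
      exact h3
    · have hK' : K ⊆ S := by
        intro y hy
        exact (mem_insert.1 (hK hy)).resolve_left fun h => hxK (h ▸ hy)
      refine (hG2 K hK' hKD).congr ?_
      intro y hy
      have : y ≠ x := fun h => hxK (h ▸ hy)
      simp [Function.update_of_ne this]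

end Pool.Agent.K6.H57.NG
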