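import Pool.Agent.K6.H57.NG.Stm

/-! Piece CLAW (helper5): the claw has a realisation with three eigenvalues. -/

set_option autoImplicit false
set_option linter.unusedSectionVars false

namespace Pool.Agent.K6.H57.NG

open Finset Matrix

namespace CLAW

variable {V : Type} [Fintype V] [DecidableEq V]

/-- indicator -/
def e (u v : V) : ℝ := if u = v then 1 else 0

theorem e_self (u : V) : e u u = 1 := if_pos rfl

theorem e_ne {u v : V} (h : u ≠ v) : e u v = 0 := if_neg h

/-- the adjacency matrix of the star with the centre `a` and the leaves `b, c, d` -/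
def St (a b c d : V) : Matrix V V ℝ := fun u v =>
  e u a * (e v b + e v c + e v d) + (e u b + e u c + e u d) * e v a

theorem sum_e (f : V → ℝ) (b : V) : ∑ v, e v b * f v = f b := by
  unfold e
  simp

theorem sum_St (a b c d : V) (f : V → ℝ) (u : V) :
    ∑ v, St a b c d u v * f v =
      e u a * (f b + f c + f d) + (e u b + e u c + e u d) * f a := by
  have : ∀ v, St a b c d u v * f v = e u a * (e v b * f v) + e u a * (e v c * f v) +
      e u a * (e v d * f v) + (e u b + e u c + e u d) * (e v a * f v) := by
    intro v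
    unfold St
    ring
  rw [Finset.sum_congr rfl fun v _ => this v]
  rw [Finset.sum_add_distrib, Finset.sum_add_distrib, Finset.sum_add_distrib,
    ← Finset.mul_sum, ← Finset.mul_sum, ← Finset.mul_sum, ← Finset.mul_sum,
    sum_e, sum_e, sum_e, sum_e]
  ring

theorem St_symm (a b c d u v : V) : St a b c d u v = St a b c d v u := by
  unfold St
  ring

theorem St_ne {a b c d u v : V} (h : St a b c d u v ≠ 0) :
    (u = a ∧ (v = b ∨ v = c ∨ v = d)) ∨ (v = a ∧ (u = b ∨ u = c ∨ u = d)) := by
  by_contra hc
  rw [not_or] at hc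
  obtain ⟨h1, h2⟩ := hc
  apply h
  unfold St
  have z1 : e u a * (e v b + e v c + e v d) = 0 := by
    by_cases hu : u = a
    · have : ¬ (v = b ∨ v = c ∨ v = d) := fun hh => h1 ⟨hu, hh⟩
      rw [not_or, not_or] at this
      rw [e_ne this.1, e_ne this.2.1, e_ne this.2.2]
      ring
    · rw [e_ne hu, zero_mul]
  have z2 : (e u b + e u c + e u d) * e v a = 0 := by
    by_cases hv : v = a
    · have : ¬ (u = b ∨ u = c ∨ u = d) := fun hh => h2 ⟨hv, hh⟩
      rw [not_or, not_or] at this
      rw [e_ne this.1, e_ne this.2.1, e_ne this.2.2]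
      ring
    · rw [e_ne hv, mul_zero]
  rw [z1, z2, add_zero]

end CLAW

open CLAW in
theorem t_CLAW : S_CLAW := by
  classical
  intro V _ _ G W t ht
  obtain ⟨hinj, -, hadj⟩ := ht
  obtain ⟨a, ha⟩ : ∃ a, a = t 0 := ⟨_, rfl⟩
  obtain ⟨b, hb⟩ : ∃ a, a = t 1 := ⟨_, rfl⟩
  obtain ⟨c, hc⟩ : ∃ a, a = t 2 := ⟨_, rfl⟩
  obtain ⟨d, hd⟩ : ∃ a, a = t 3 := ⟨_, rfl⟩
  have hab : a ≠ b := by rw [ha, hb]; exact hinj.ne (by decide)
  have hac : a ≠ c := by rw [ha, hc]; exact hinj.ne (by decide)
  have had : a ≠ d := by rw [ha, hd]; exact hinj.ne (by decide)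
  have hbc : b ≠ c := by rw [hb, hc]; exact hinj.ne (by decide)
  have hbd : b ≠ d := by rw [hb, hd]; exact hinj.ne (by decide)
  have hcd : c ≠ d := by rw [hc, hd]; exact hinj.ne (by decide)
  have gab : G.Adj a b := by rw [ha, hb]; exact hadj 1 (by decide)
  have gac : G.Adj a c := by rw [ha, hc]; exact hadj 2 (by decide)
  have gad : G.Adj a d := by rw [ha, hd]; exact hadj 3 (by decide)
  have him : univ.image t = {a, b, c, d} := by
    ext x
    simp only [mem_image, mem_univ, true_and, mem_insert, mem_singleton]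
    constructor
    · rintro ⟨i, rfl⟩
      fin_cases i
      · exact Or.inl ha.symm
      · exact Or.inr (Or.inl hb.symm)
      · exact Or.inr (Or.inr (Or.inl hc.symm))
      · exact Or.inr (Or.inr (Or.inr hd.symm))
    · rintro (h | h | h | h)
      · exact ⟨0, by rw [h, ha]⟩
      · exact ⟨1, by rw [h, hb]⟩
      · exact ⟨2, by rw [h, hc]⟩
      · exact ⟨3, by rw [h, hd]⟩
  rw [him]
  have mA : a ∈ ({a, b, c, d} : Finset V) := by simp
  have mB : b ∈ ({a, b, c, d} : Finset V) := by simp
  have mC : c ∈ ({a, b, c, d} : Finset V) := by simp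
  have mD : d ∈ ({a, b, c, d} : Finset V) := by simp
  have Sab : St a b c d a b ≠ 0 := by
    unfold St
    rw [e_self, e_self, e_ne hbc, e_ne hbd, e_ne hab.symm]
    norm_num
  have Sac : St a b c d a c ≠ 0 := by
    unfold St
    rw [e_self, e_self, e_ne hbc.symm, e_ne hcd, e_ne hac.symm]
    norm_num
  have Sad : St a b c d a d ≠ 0 := by
    unfold St
    rw [e_self, e_self, e_ne hbd.symm, e_ne hcd.symm, e_ne had.symm]
    norm_num
  have key : ∀ (μ : ℝ) (x : V → ℝ), (∀ u, x u ≠ 0 → u ∈ ({a, b, c, d} : Finset V)) → x ≠ 0 →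
      St a b c d *ᵥ x = μ • x → μ = 0 ∨ μ ^ 2 = 3 := by
    intro μ x hx hne h
    by_contra hcon
    rw [not_or] at hcon
    obtain ⟨h0, h3⟩ := hcon
    have hA : ∀ u, e u a * (x b + x c + x d) + (e u b + e u c + e u d) * x a = μ * x u := by
      intro u
      rw [← sum_St]
      exact congrFun h u
    have ea := hA a
    have eb := hA b
    have ec := hA c
    have ed := hA d
    rw [e_self, e_ne hab, e_ne hac, e_ne had] at ea
    rw [e_self, e_ne hab.symm, e_ne hbc, e_ne hbd] at eb
    rw [e_self, e_ne hac.symm, e_ne hbc.symm, e_ne hcd] at ec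
    rw [e_self, e_ne had.symm, e_ne hbd.symm, e_ne hcd.symm] at ed
    have h4 : (μ ^ 2 - 3) * x a = 0 := by linear_combination -μ * ea - eb - ec - ed
    have xa : x a = 0 := by
      rcases mul_eq_zero.1 h4 with h5 | h5
      · exact absurd (by linarith) h3
      · exact h5
    have xb : x b = 0 := by
      have : μ * x b = 0 := by rw [← eb, xa]; ring
      exact (mul_eq_zero.1 this).resolve_left h0
    have xc : x c = 0 := by
      have : μ * x c = 0 := by rw [← ec, xa]; ring
      exact (mul_eq_zero.1 this).resolve_left h0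
    have xd : x d = 0 := by
      have : μ * x d = 0 := by rw [← ed, xa]; ring
      exact (mul_eq_zero.1 this).resolve_left h0
    apply hne
    funext u
    by_contra hu
    have := hx u hu
    simp only [mem_insert, mem_singleton] at this
    rcases this with rfl | rfl | rfl | rfl
    · exact hu xa
    · exact hu xb
    · exact hu xc
    · exact hu xd
  refine ⟨St a b c d, {0, Real.sqrt 3, -Real.sqrt 3}, ?_, card_le_three, ?_, ?_, ?_, ?_⟩
  · ext u v
    exact St_symm a b c d v u
  · intro u v h
    rcases St_ne h with ⟨rfl, rfl | rfl | rfl⟩ | ⟨rfl, rfl | rfl | rfl⟩ <;> simp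
  · intro u v _ h
    rcases St_ne h with ⟨rfl, rfl | rfl | rfl⟩ | ⟨rfl, rfl | rfl | rfl⟩
    · exact gab
    · exact gac
    · exact gad
    · exact gab.symm
    · exact gac.symm
    · exact gad.symm
  · intro X hX hsup hdiag hz hcomm
    have hS : ∀ u v, X u v = X v u := fun u v => by
      have := congrFun (congrFun hX v) u
      exact this
    have e1 : ∀ w, X b w + X c w + X d w = ∑ u, X a u * St a b c d u w := by
      intro w
      have h1 : (St a b c d * X) a w = (X * St a b c d) a w := by rw [hcomm]
      rw [Matrix.mul_apply, Matrix.mul_apply, sum_St, e_self, e_ne hab, e_ne hac, e_ne had] at h1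
      rw [← h1]
      ring
    have e2 : ∀ w, ∑ u, X a u * St a b c d u w =
        e w a * (X a b + X a c + X a d) + (e w b + e w c + e w d) * X a a := by
      intro w
      rw [← sum_St]
      refine Finset.sum_congr rfl fun u _ => ?_
      rw [St_symm a b c d u w, mul_comm]
    have zab : X a b = 0 := hz a b hab Sab
    have zac : X a c = 0 := hz a c hac Sac
    have zad : X a d = 0 := hz a d had Sad
    have e3 : ∀ w, X b w + X c w + X d w = 0 := by
      intro w
      rw [e1, e2, zab, zac, zad, hdiag a]
      ring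
    have f1 := e3 b
    have f2 := e3 c
    have f3 := e3 d
    rw [hdiag b] at f1
    rw [hdiag c] at f2
    rw [hdiag d] at f3
    have s1 := hS b c
    have s2 := hS b d
    have s3 := hS c d
    have zbc : X b c = 0 := by linarith
    have zbd : X b d = 0 := by linarith
    have zcd : X c d = 0 := by linarith
    ext u v
    rw [Matrix.zero_apply]
    by_contra huv
    obtain ⟨hu, hv⟩ := hsup u v huv
    simp only [mem_insert, mem_singleton] at hu hv
    have sa := hS a b
    have sb := hS a c
    have sc := hS a d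
    rcases hu with rfl | rfl | rfl | rfl <;> rcases hv with rfl | rfl | rfl | rfl <;>
      first
      | exact huv (hdiag _)
      | exact huv (by linarith)
  · intro μ x hx hne h
    rw [mem_insert, mem_insert, mem_singleton]
    rcases key μ x hx hne h with h0 | h0
    · exact Or.inl h0
    · right
      have h3 : Real.sqrt 3 ^ 2 = 3 := Real.sq_sqrt (by norm_num)
      exact sq_eq_sq_iff_eq_or_eq_neg.1 (h0.trans h3.symm)

end Pool.Agent.K6.H57.NG
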