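import Pool.Agent.K6.H57.NG.Stm

/-!
# Pieces `CLI` and `COL` of call57: cliques, single vertices; colouring of claw-free sets
(helper35 for helper57)
-/

set_option autoImplicit false

namespace Pool.Agent.K6.H57.NG

open Finset Matrix

namespace CLI

theorem rz_empty {V : Type} [Fintype V] [DecidableEq V] (G : SimpleGraph V) : Rz G ∅ 0 := by
  refine ⟨0, ∅, ?_, ?_, ?_, ?_, ?_, ?_⟩
  · simp [Matrix.IsSymm]
  · simp
  · intro u v h; simp at h
  · intro u v _ h; simp at h
  · intro X _ hX _ _ _
    ext u v
    by_contra h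
    have := (hX u v h).1
    simp at this
  · intro μ x hx hne _
    exfalso
    apply hne
    ext u
    by_contra h
    have := hx u h
    simp at this

theorem rz_single {V : Type} [Fintype V] [DecidableEq V] (G : SimpleGraph V) (x : V) :
    Rz G {x} 1 := by
  refine ⟨0, {0}, ?_, ?_, ?_, ?_, ?_, ?_⟩
  · simp [Matrix.IsSymm]
  · simp
  · intro u v h; simp at h
  · intro u v _ h; simp at h
  · intro X _ hX hd _ _
    ext u v
    by_contra h
    have h1 := (hX u v h).1
    have h2 := (hX u v h).2
    rw [mem_singleton] at h1 h2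
    subst h1
    subst h2
    exact h (hd _)
  · intro μ y _ hne h
    rw [Matrix.zero_mulVec] at h
    rcases smul_eq_zero.1 h.symm with h | h
    · simp [h]
    · exact absurd h hne

theorem rz_clique {V : Type} [Fintype V] [DecidableEq V] (G : SimpleGraph V) (K : Finset V)
    (hK : Cl G K) : Rz G K 2 := by
  refine ⟨fun u v => if u ∈ K ∧ v ∈ K then 1 else 0, {0, (#K : ℝ)}, ?_, ?_, ?_, ?_, ?_, ?_⟩
  · refine Matrix.IsSymm.ext fun u v => ?_
    by_cases h1 : u ∈ K <;> by_cases h2 : v ∈ K <;> simp [h1, h2]
  · exact Finset.card_le_two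
  · intro u v h
    by_contra h'
    exact h (by simp [h'])
  · intro u v huv h
    by_cases h' : u ∈ K ∧ v ∈ K
    · exact hK u h'.1 v h'.2 huv
    · exact absurd (by simp [h']) h
  · intro X _ hX hd hA _
    ext u v
    by_contra h
    have h1 := hX u v h
    by_cases huv : u = v
    · subst huv
      exact h (hd _)
    · exact h (hA u v huv (by simp [h1]))
  · intro μ x hx hne h
    set s : ℝ := ∑ v ∈ K, x v with hs
    have hrow : ∀ u ∈ K, μ * x u = s := by
      intro u hu
      have h1 := congrFun h u
      simp only [Matrix.mulVec, dotProduct, Pi.smul_apply, smul_eq_mul] at h1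
      rw [← h1, hs]
      have h2 : ∀ v, (if u ∈ K ∧ v ∈ K then (1 : ℝ) else 0) * x v = if v ∈ K then x v else 0 := by
        intro v
        by_cases hv : v ∈ K <;> simp [hu, hv]
      simp only [h2]
      rw [Finset.sum_ite_mem, Finset.univ_inter]
    by_cases hμ : μ = 0
    · simp [hμ]
    · have hex : ∃ u ∈ K, x u ≠ 0 := by
        by_contra hno
        push Not at hno
        apply hne
        ext u
        by_contra hu
        exact hu (hno u (hx u hu))
      obtain ⟨u, hu, hxu⟩ := hex
      have hs0 : s ≠ 0 := by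
        rw [← hrow u hu]
        exact mul_ne_zero hμ hxu
      have hsum : μ * s = #K * s := by
        calc μ * s = ∑ v ∈ K, μ * x v := by rw [hs, Finset.mul_sum]
          _ = ∑ v ∈ K, s := Finset.sum_congr rfl hrow
          _ = #K * s := by rw [Finset.sum_const, nsmul_eq_mul]
      have := mul_right_cancel₀ hs0 hsum
      simp [this]

end CLI

theorem t_CLI : S_CLI := by
  intro V _ _ G
  exact ⟨CLI.rz_empty G, CLI.rz_single G, fun K hK => CLI.rz_clique G K hK⟩

end Pool.Agent.K6.H57.NG
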