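import Pool.Agent.K6.H57.NG.Stm

/-!
# Piece `COL` of call57: a set without claws is 3-colourable
(helper35 for helper57)
-/

set_option autoImplicit false

namespace Pool.Agent.K6.H57.NG

open Finset Matrix

theorem t_COL : S_COL := by
  classical
  intro V _ G W
  induction W using Finset.induction_on with
  | empty => intro _; exact ⟨fun _ => 0, by simp⟩
  | insert x W hx ih =>
    intro hcl
    obtain ⟨f, hf⟩ := ih (fun t ht => hcl t
      ⟨ht.1, fun i => Finset.mem_insert_of_mem (ht.2.1 i), ht.2.2⟩)
    set N : Finset V := W.filter (fun v => G.Adj x v) with hN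
    have hN2 : #N ≤ 2 := by
      by_contra h
      push Not at h
      obtain ⟨a, ha, b, hb, c, hc, hab, hac, hbc⟩ := Finset.two_lt_card.1 h
      rw [hN, mem_filter] at ha hb hc
      have hxa : x ≠ a := fun h => hx (h ▸ ha.1)
      have hxb : x ≠ b := fun h => hx (h ▸ hb.1)
      have hxc : x ≠ c := fun h => hx (h ▸ hc.1)
      refine hcl ![x, a, b, c] ⟨?_, ?_, ?_⟩
      · intro i j hij
        fin_cases i <;> fin_cases j <;> simp_all
      · intro i
        fin_cases i <;> simp [ha.1, hb.1, hc.1]
      · intro i hi
        fin_cases i
        · exact absurd rfl hi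
        · simpa using ha.2
        · simpa using hb.2
        · simpa using hc.2
    obtain ⟨c, hc⟩ : ∃ c : Fin 3, c ∉ N.image f := by
      by_contra h
      push Not at h
      have h1 : (Finset.univ : Finset (Fin 3)) ⊆ N.image f := fun c _ => h c
      have h2 := Finset.card_le_card h1
      have h3 : #(N.image f) ≤ #N := Finset.card_image_le
      simp at h2
      omega
    refine ⟨Function.update f x c, ?_⟩
    have key : ∀ v ∈ W, G.Adj x v → f v ≠ c := by
      intro v hv hadj h
      exact hc (Finset.mem_image.2 ⟨v, by rw [hN, mem_filter]; exact ⟨hv, hadj⟩, h⟩)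
    intro u hu v hv hadj
    rcases Finset.mem_insert.1 hu with rfl | hu'
    · rcases Finset.mem_insert.1 hv with rfl | hv'
      · exact absurd hadj (G.loopless.irrefl _)
      · have hne : v ≠ u := fun h => hx (h ▸ hv')
        rw [Function.update_self, Function.update_of_ne hne]
        exact (key v hv' hadj).symm
    · have hnu : u ≠ x := fun h => hx (h ▸ hu')
      rcases Finset.mem_insert.1 hv with rfl | hv'
      · rw [Function.update_self, Function.update_of_ne hnu]
        exact key u hu' hadj.symm
      · have hnv : v ≠ x := fun h => hx (h ▸ hv')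
        rw [Function.update_of_ne hnu, Function.update_of_ne hnv]
        exact hf u hu' v hv' hadj

end Pool.Agent.K6.H57.NG
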