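import Pool.Agent.K6.H57.NG.Stm

/-! # Piece FAM -/

set_option autoImplicit false

namespace Pool.Agent.K6.H57.NG

open Finset Matrix

theorem t_FAM : S_FAM := by
  classical
  intro V _ G W M
  induction M with
  | zero => exact Or.inl ⟨∅, rfl, by simp, by simp⟩
  | succ M ih =>
    rcases ih with ⟨T, hT, hcl, hdis⟩ | ⟨S, hSW, hS, hno⟩
    · set S : Finset V := T.biUnion (fun t => univ.image t) with hS
      have hSW : S ⊆ W := by
        intro x hx
        obtain ⟨t, ht, hxt⟩ := mem_biUnion.1 hx
        obtain ⟨i, -, rfl⟩ := mem_image.1 hxt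
        exact (hcl t ht).2.1 i
      have hmemS : ∀ t ∈ T, ∀ i, t i ∈ S := fun t ht i =>
        mem_biUnion.2 ⟨t, ht, mem_image_of_mem _ (mem_univ i)⟩
      have hSc : #S ≤ 4 * (M + 1) := by
        have h1 : #S ≤ #T * 4 := card_biUnion_le_card_mul _ _ _ fun t _ => by
          refine card_image_le.trans ?_
          simp
        omega
      by_cases h : ∃ t : Fin 4 → V, Claw G (W \ S) t
      · left
        obtain ⟨t, ht⟩ := h
        have hnot : ∀ i, t i ∉ S := fun i => (mem_sdiff.1 (ht.2.1 i)).2
        have htT : t ∉ T := fun h => hnot 0 (hmemS t h 0)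
        refine ⟨insert t T, by rw [card_insert_of_notMem htT, hT], ?_, ?_⟩
        · intro t' ht'
          rcases mem_insert.1 ht' with rfl | ht'
          · exact ⟨ht.1, fun i => (mem_sdiff.1 (ht.2.1 i)).1, ht.2.2⟩
          · exact hcl t' ht'
        · intro t1 h1 t2 h2 hne i j he
          rcases mem_insert.1 h1 with h1' | h1'
          · rcases mem_insert.1 h2 with h2' | h2'
            · exact hne (h1'.trans h2'.symm)
            · subst h1'
              exact hnot i (he ▸ hmemS t2 h2' j)
          · rcases mem_insert.1 h2 with h2' | h2'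
            · subst h2'
              exact hnot j (he ▸ hmemS t1 h1' i)
            · exact hdis t1 h1' t2 h2' hne i j he
      · right
        push Not at h
        exact ⟨S, hSW, hSc, h⟩
    · exact Or.inr ⟨S, hSW, by omega, hno⟩

end Pool.Agent.K6.H57.NG
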