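import Pool.Agent.K6.H57.NG.Stm

/-!
Piece `HOM` of the call `call57` (MP_6bf2ef_co, statement of helper57, proof of helper95): Ramsey's
theorem applied four times to a family of disjoint claws.
-/

set_option autoImplicit false

namespace Pool.Agent.K6.H57.NG

open Finset Matrix

namespace HOM

/-- one application of Ramsey's theorem -/
theorem step {m s N : ℕ} (hN : ∀ (V : Type) [DecidableEq V] (G : SimpleGraph V)
      (W : Finset V), N ≤ #W → (∃ K ⊆ W, #K = s ∧ Cl G K) ∨ ∃ K ⊆ W, #K = m ∧ Cl Gᶜ K)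
    (V : Type) [DecidableEq V] (G : SimpleGraph V) (W : Finset V) (T : Finset (Fin 4 → V))
    (i : Fin 4) (hT : N ≤ #T) (hW : ∀ t ∈ T, t i ∈ W)
    (hinj : ∀ t ∈ T, ∀ t' ∈ T, t ≠ t' → t i ≠ t' i) (hno : ∀ K ⊆ W, #K = m → ¬ Cl Gᶜ K) :
    ∃ U ⊆ T, #U = s ∧ ∀ t ∈ U, ∀ t' ∈ U, t ≠ t' → G.Adj (t i) (t' i) := by
  classical
  have hio : Set.InjOn (fun t : Fin 4 → V => t i) (T : Set (Fin 4 → V)) := by
    intro t ht t' ht' h
    by_contra hne
    exact hinj t ht t' ht' hne h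
  have hcard : #(T.image (fun t => t i)) = #T := Finset.card_image_of_injOn hio
  have hsub : T.image (fun t => t i) ⊆ W := by
    intro v hv
    obtain ⟨t, ht, rfl⟩ := Finset.mem_image.mp hv
    exact hW t ht
  rcases hN V G (T.image (fun t => t i)) (by rw [hcard]; exact hT) with
    ⟨K, hK, hKs, hcl⟩ | ⟨K, hK, hKm, hcl⟩
  · refine ⟨T.filter (fun t => t i ∈ K), Finset.filter_subset _ _, ?_, ?_⟩
    · have himg : (T.filter (fun t => t i ∈ K)).image (fun t => t i) = K := by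
        ext v
        constructor
        · intro hv
          obtain ⟨t, ht, rfl⟩ := Finset.mem_image.mp hv
          exact (Finset.mem_filter.mp ht).2
        · intro hv
          obtain ⟨t, ht, htv⟩ := Finset.mem_image.mp (hK hv)
          refine Finset.mem_image.mpr ⟨t, Finset.mem_filter.mpr ⟨ht, ?_⟩, htv⟩
          have : t i = v := htv
          rw [this]
          exact hv
      have h1 : #((T.filter (fun t => t i ∈ K)).image (fun t => t i)) =
          #(T.filter (fun t => t i ∈ K)) := by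
        refine Finset.card_image_of_injOn (hio.mono ?_)
        intro t ht
        exact (Finset.mem_filter.mp (Finset.mem_coe.mp ht)).1
      rw [← h1, himg, hKs]
    · intro t ht t' ht' hne
      obtain ⟨h1, h2⟩ := Finset.mem_filter.mp ht
      obtain ⟨h3, h4⟩ := Finset.mem_filter.mp ht'
      exact hcl _ h2 _ h4 (hinj t h1 t' h3 hne)
  · exact absurd hcl (hno K (hK.trans hsub) hKm)

end HOM

theorem t_HOM (h : S_RAM) : S_HOM := by
  intro m
  choose r hr using fun s => h s m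
  refine ⟨r (r (r (r 8))), ?_⟩
  intro V _ G W T hT hW hinj hno
  obtain ⟨T1, h1, c1, e1⟩ := HOM.step (hr (r (r (r 8)))) V G W T 0 hT.ge (fun t ht => hW t ht 0)
    (fun t ht t' ht' hne => hinj t ht t' ht' hne 0) hno
  obtain ⟨T2, h2, c2, e2⟩ := HOM.step (hr (r (r 8))) V G W T1 1 c1.ge
    (fun t ht => hW t (h1 ht) 1)
    (fun t ht t' ht' hne => hinj t (h1 ht) t' (h1 ht') hne 1) hno
  obtain ⟨T3, h3, c3, e3⟩ := HOM.step (hr (r 8)) V G W T2 2 c2.ge
    (fun t ht => hW t (h1 (h2 ht)) 2)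
    (fun t ht t' ht' hne => hinj t (h1 (h2 ht)) t' (h1 (h2 ht')) hne 2) hno
  obtain ⟨T4, h4, c4, e4⟩ := HOM.step (hr 8) V G W T3 3 c3.ge
    (fun t ht => hW t (h1 (h2 (h3 ht))) 3)
    (fun t ht t' ht' hne => hinj t (h1 (h2 (h3 ht))) t' (h1 (h2 (h3 ht'))) hne 3) hno
  refine ⟨T4, fun t ht => h1 (h2 (h3 (h4 ht))), c4, ?_⟩
  intro i t ht t' ht' hne
  fin_cases i
  · exact e1 t (h2 (h3 (h4 ht))) t' (h2 (h3 (h4 ht'))) hne
  · exact e2 t (h3 (h4 ht)) t' (h3 (h4 ht')) hne
  · exact e3 t (h4 ht) t' (h4 ht') hne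
  · exact e4 t ht t' ht' hne

end Pool.Agent.K6.H57.NG
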