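import Pool.Agent.K6.H57.NG.Stm

/-!
# The supergraph lemma for matrices with the strong spectral property

If `A` has the strong spectral property then some orthogonal conjugate `M` of `A`, close to `A`, has
exactly the pattern of `G`, for every supergraph `G` of the graph of `A`: inverse function theorem for
`(K, B) ↦ Pr B + Sk B - exp (Sk K) * A * exp (-Sk K)`.
-/

set_option autoImplicit false

namespace Pool.Agent.K6.H57.NG

open Finset Matrix
open scoped Topology

namespace IFT

section abstr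

variable {𝔸 : Type*} [NormedRing 𝔸] [NormedAlgebra ℝ 𝔸] [CompleteSpace 𝔸]

/-- the map of the inverse function theorem -/
noncomputable def Psi (A : 𝔸) (L S : 𝔸 →L[ℝ] 𝔸) (x : 𝔸 × 𝔸) : 𝔸 :=
  L x.2 - NormedSpace.exp (S x.1) * A * NormedSpace.exp (-S x.1)

theorem surj_nhds (A : 𝔸) (L S : 𝔸 →L[ℝ] 𝔸) (hL : L A = A)
    (hsurj : ∀ y : 𝔸, ∃ K B : 𝔸, L B - (S K * A - A * S K) = y) (U : Set (𝔸 × 𝔸))
    (hU : U ∈ 𝓝 ((0, A) : 𝔸 × 𝔸)) :
    ∀ᶠ y in 𝓝 (0 : 𝔸), ∃ x ∈ U, Psi A L S x = y := by
  have h1 : HasStrictFDerivAt (fun x : 𝔸 × 𝔸 => S x.1)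
      (S.comp (ContinuousLinearMap.fst ℝ 𝔸 𝔸)) (0, A) :=
    (S.comp (ContinuousLinearMap.fst ℝ 𝔸 𝔸)).hasStrictFDerivAt
  have h1' : HasStrictFDerivAt (fun x : 𝔸 × 𝔸 => -S x.1)
      (-(S.comp (ContinuousLinearMap.fst ℝ 𝔸 𝔸))) (0, A) := h1.neg
  have h2 : HasStrictFDerivAt (fun x : 𝔸 × 𝔸 => L x.2)
      (L.comp (ContinuousLinearMap.snd ℝ 𝔸 𝔸)) (0, A) :=
    (L.comp (ContinuousLinearMap.snd ℝ 𝔸 𝔸)).hasStrictFDerivAt
  have he : HasStrictFDerivAt (NormedSpace.exp : 𝔸 → 𝔸) (1 : 𝔸 →L[ℝ] 𝔸) (S (0, A).1) := by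
    have := hasStrictFDerivAt_exp_zero (𝕂 := ℝ) (𝔸 := 𝔸)
    simpa using this
  have he' : HasStrictFDerivAt (NormedSpace.exp : 𝔸 → 𝔸) (1 : 𝔸 →L[ℝ] 𝔸) (-S (0, A).1) := by
    have := hasStrictFDerivAt_exp_zero (𝕂 := ℝ) (𝔸 := 𝔸)
    simpa using this
  have h3 := he.comp ((0, A) : 𝔸 × 𝔸) h1
  have h4 := he'.comp ((0, A) : 𝔸 × 𝔸) h1'
  have hA : HasStrictFDerivAt (fun _ : 𝔸 × 𝔸 => A) (0 : 𝔸 × 𝔸 →L[ℝ] 𝔸) (0, A) :=
    hasStrictFDerivAt_const _ _
  have h5 := (h3.mul' hA).mul' h4
  have h6 := h2.sub h5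
  have h7 : HasStrictFDerivAt (Psi A L S) _ ((0, A) : 𝔸 × 𝔸) := h6
  have hmap := HasStrictFDerivAt.map_nhds_eq_of_surj h7 (by
    rw [eq_top_iff]
    intro y _
    obtain ⟨K, B, h⟩ := hsurj y
    refine ⟨(K, B), ?_⟩
    rw [← h]
    simp [sub_eq_add_neg, add_comm])
  have hval : Psi A L S (0, A) = 0 := by simp [Psi, hL]
  have h8 : Psi A L S '' U ∈ 𝓝 (0 : 𝔸) := by
    rw [← hval, ← hmap]
    exact Filter.image_mem_map hU
  filter_upwards [h8] with y hy
  exact hy

end abstr


section mat

variable {V : Type}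

/-- the skew part -/
noncomputable def Sk (B : Matrix V V ℝ) : Matrix V V ℝ := of fun u v => (B u v - B v u) / 2

open Classical in
/-- the symmetric part, restricted to the diagonal and to the pattern of `A` -/
noncomputable def Pr (A B : Matrix V V ℝ) : Matrix V V ℝ :=
  of fun u v => if u = v ∨ A u v ≠ 0 then (B u v + B v u) / 2 else 0

/-- `Sk` as a linear map -/
noncomputable def SkL : Matrix V V ℝ →ₗ[ℝ] Matrix V V ℝ where
  toFun := Sk
  map_add' B C := by ext u v; simp [Sk]; ring
  map_smul' c B := by ext u v; simp [Sk]; ring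

/-- `Pr + Sk` as a linear map -/
noncomputable def LL (A : Matrix V V ℝ) : Matrix V V ℝ →ₗ[ℝ] Matrix V V ℝ where
  toFun B := Pr A B + Sk B
  map_add' B C := by
    ext u v
    simp only [Pr, Sk, of_apply, Matrix.add_apply]
    split_ifs <;> ring
  map_smul' c B := by
    ext u v
    simp only [Pr, Sk, of_apply, Matrix.add_apply, Matrix.smul_apply, smul_eq_mul, RingHom.id_apply]
    split_ifs <;> ring

theorem LL_self {A : Matrix V V ℝ} (hA : A.IsSymm) : LL A A = A := by
  ext u v
  have h := hA.apply u v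
  simp only [LL, Pr, Sk, LinearMap.coe_mk, AddHom.coe_mk, of_apply, Matrix.add_apply]
  split_ifs with h1
  · rw [h]; ring
  · have : A u v = 0 := by
      by_contra h2
      exact h1 (Or.inr h2)
    rw [h, this]; ring

theorem LL_skew {A B : Matrix V V ℝ} (h : ∀ u v, B v u = -B u v) : LL A B = B := by
  ext u v
  simp only [LL, Pr, Sk, LinearMap.coe_mk, AddHom.coe_mk, of_apply, Matrix.add_apply]
  rw [h u v]
  split_ifs <;> ring

theorem LL_symm {A B : Matrix V V ℝ} (h : ∀ u v, B v u = B u v)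
    (h2 : ∀ u v, u ≠ v → A u v = 0 → B u v = 0) : LL A B = B := by
  ext u v
  simp only [LL, Pr, Sk, LinearMap.coe_mk, AddHom.coe_mk, of_apply, Matrix.add_apply]
  rw [h u v]
  split_ifs with h1
  · ring
  · rw [not_or, not_not] at h1
    rw [h2 u v h1.1 h1.2]
    ring

theorem Sk_skew {B : Matrix V V ℝ} (h : ∀ u v, B v u = -B u v) : Sk B = B := by
  ext u v
  simp only [Sk, of_apply]
  rw [h u v]
  ring

variable [Fintype V] [DecidableEq V]

/-- surjectivity of the derivative -/
theorem surj {A : Matrix V V ℝ} (hA : A.IsSymm)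
    (hX : ∀ X : Matrix V V ℝ, X.IsSymm → (∀ u, X u u = 0) →
      (∀ u v, u ≠ v → A u v ≠ 0 → X u v = 0) → A * X = X * A → X = 0) (y : Matrix V V ℝ) :
    ∃ K B : Matrix V V ℝ, LL A B - (SkL K * A - A * SkL K) = y := by
  let T : (Matrix V V ℝ × Matrix V V ℝ) →ₗ[ℝ] Matrix V V ℝ :=
    (LL A).comp (LinearMap.snd ℝ _ _) -
      ((LinearMap.mulRight ℝ A).comp (SkL.comp (LinearMap.fst ℝ _ _)) -
        (LinearMap.mulLeft ℝ A).comp (SkL.comp (LinearMap.fst ℝ _ _)))
  have hT : ∀ K B, T (K, B) = LL A B - (SkL K * A - A * SkL K) := by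
    intro K B
    simp [T]
  suffices h : LinearMap.range T = ⊤ by
    have h1 : y ∈ LinearMap.range T := by rw [h]; trivial
    obtain ⟨⟨K, B⟩, h2⟩ := h1
    exact ⟨K, B, by rw [← hT, h2]⟩
  by_contra hne
  obtain ⟨f, hf0, hf⟩ := (LinearMap.range T).exists_le_ker_of_lt_top (lt_top_iff_ne_top.mpr hne)
  have hfT : ∀ K B, f (LL A B - (SkL K * A - A * SkL K)) = 0 := by
    intro K B
    have : T (K, B) ∈ LinearMap.range T := ⟨_, rfl⟩
    have := hf this
    rw [LinearMap.mem_ker, hT] at this
    exact this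
  let X : Matrix V V ℝ := of fun u v => f (single u v 1)
  have hfX : ∀ M : Matrix V V ℝ, f M = ∑ u, ∑ v, M u v * X u v := by
    intro M
    conv_lhs => rw [matrix_eq_sum_single M]
    rw [map_sum]
    refine Finset.sum_congr rfl fun u _ => ?_
    rw [map_sum]
    refine Finset.sum_congr rfl fun v _ => ?_
    have : single u v (M u v) = M u v • single u v (1 : ℝ) := by
      rw [smul_single]; simp
    rw [this, map_smul]
    rfl
  have hB : ∀ B, f (LL A B) = 0 := by
    intro B
    have := hfT 0 B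
    simpa using this
  have hK : ∀ K, f (SkL K * A - A * SkL K) = 0 := by
    intro K
    have := hfT K 0
    rw [map_zero, zero_sub, map_neg] at this
    linarith
  have hsk : ∀ u v a b : V, (single u v (1 : ℝ) - single v u 1 : Matrix V V ℝ) b a =
      -(single u v (1 : ℝ) - single v u 1 : Matrix V V ℝ) a b := by
    intro u v a b
    simp only [Matrix.sub_apply, single_apply, neg_sub]
    congr 1 <;> simp [and_comm]
  have hsymm : X.IsSymm := by
    ext u v
    have h1 := hB (single u v 1 - single v u 1)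
    rw [LL_skew (hsk u v), map_sub] at h1
    change X v u = X u v
    have : X u v - X v u = 0 := h1
    linarith
  have hdiag : ∀ u, X u u = 0 := by
    intro u
    have h1 := hB (single u u 1)
    rw [LL_symm (fun a b => by simp [single_apply, and_comm]) (fun a b hab _ => by
      rw [single_apply, if_neg]
      rintro ⟨h, h'⟩
      exact hab (h.symm.trans h'))] at h1
    exact h1
  have hpat : ∀ u v, u ≠ v → A u v ≠ 0 → X u v = 0 := by
    intro u v huv hAuv
    have hAvu : A v u ≠ 0 := by rw [hA.apply u v]; exact hAuv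
    have h1 := hB (single u v 1 + single v u 1)
    rw [LL_symm (fun a b => by
      simp only [Matrix.add_apply, single_apply]
      rw [add_comm]
      congr 1 <;> simp [and_comm]) (fun a b _ hab => by
      simp only [Matrix.add_apply, single_apply]
      rw [if_neg, if_neg, add_zero]
      · rintro ⟨rfl, rfl⟩
        exact hAvu hab
      · rintro ⟨rfl, rfl⟩
        exact hAuv hab), map_add] at h1
    have h3 : X u v + X v u = 0 := h1
    have h4 := hsymm.apply u v
    linarith
  have hl : ∀ u v, f (single u v 1 * A) = (X * A) u v := by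
    intro u v
    have h0 : ∀ a b, (single u v (1 : ℝ) * A) a b = if u = a then A v b else 0 := by
      intro a b
      simp [mul_apply, single_apply, ite_and]
    rw [hfX, mul_apply]
    simp only [h0, ite_mul, zero_mul]
    rw [Finset.sum_eq_single u]
    · refine Finset.sum_congr rfl fun b _ => ?_
      rw [if_pos rfl, hA.apply b v]
      ring
    · intro a _ ha
      refine Finset.sum_eq_zero fun b _ => ?_
      rw [if_neg (Ne.symm ha)]
    · simp
  have hr : ∀ u v, f (A * single u v 1) = (A * X) u v := by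
    intro u v
    have h0 : ∀ a b, (A * single u v (1 : ℝ)) a b = if v = b then A a u else 0 := by
      intro a b
      simp [mul_apply, single_apply, ite_and]
    rw [hfX, mul_apply]
    simp only [h0, ite_mul, zero_mul]
    refine Finset.sum_congr rfl fun a _ => ?_
    rw [Finset.sum_ite_eq, if_pos (Finset.mem_univ _), hA.apply u a]
  have hcomm : A * X = X * A := by
    ext u v
    have h1 := hK (single u v 1 - single v u 1)
    have h2 : SkL (single u v (1 : ℝ) - single v u 1) = single u v 1 - single v u 1 :=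
      Sk_skew (hsk u v)
    rw [h2, sub_mul, mul_sub, map_sub, map_sub, map_sub, hl, hl, hr, hr] at h1
    have h3 : (X * A) v u = (A * X) u v := by
      have : (X * A)ᵀ = A * X := by rw [transpose_mul, hA, hsymm]
      rw [← this]; rfl
    have h4 : (A * X) v u = (X * A) u v := by
      have : (A * X)ᵀ = X * A := by rw [transpose_mul, hA, hsymm]
      rw [← this]; rfl
    rw [h3, h4] at h1
    linarith
  have hX0 := hX X hsymm hdiag hpat hcomm
  apply hf0
  ext1 M
  rw [hfX M, hX0]
  simp

open Classical in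
/-- the new entries -/
noncomputable def EE (A : Matrix V V ℝ) (G : SimpleGraph V) : Matrix V V ℝ :=
  of fun u v => if G.Adj u v ∧ A u v = 0 then 1 else 0

end mat

end IFT

open IFT in
theorem t_IFT : S_IFT := by
  intro V _ _ A hA hX G hG
  letI : NormedRing (Matrix V V ℝ) := Matrix.linftyOpNormedRing
  letI : NormedAlgebra ℝ (Matrix V V ℝ) := Matrix.linftyOpNormedAlgebra
  haveI : CompleteSpace (Matrix V V ℝ) := FiniteDimensional.complete ℝ _
  let L : Matrix V V ℝ →L[ℝ] Matrix V V ℝ := LinearMap.toContinuousLinearMap (LL A)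
  let S : Matrix V V ℝ →L[ℝ] Matrix V V ℝ := LinearMap.toContinuousLinearMap SkL
  let U : Set (Matrix V V ℝ × Matrix V V ℝ) := {x | ∀ u v, A u v ≠ 0 → x.2 u v + x.2 v u ≠ 0}
  have hU : U ∈ 𝓝 ((0, A) : Matrix V V ℝ × Matrix V V ℝ) := by
    have h1 : ∀ u v : V, ∀ᶠ x in 𝓝 ((0, A) : Matrix V V ℝ × Matrix V V ℝ),
        A u v ≠ 0 → x.2 u v + x.2 v u ≠ 0 := by
      intro u v
      by_cases h : A u v = 0
      · exact Filter.Eventually.of_forall fun x hx => (hx h).elim
      · have hc : Continuous fun x : Matrix V V ℝ × Matrix V V ℝ => x.2 u v + x.2 v u := by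
          have h0 : ∀ a b : V, Continuous fun M : Matrix V V ℝ => M a b := fun a b =>
            (LinearMap.toContinuousLinearMap
              (Matrix.entryLinearMap ℝ ℝ a b : Matrix V V ℝ →ₗ[ℝ] ℝ)).continuous
          exact ((h0 u v).comp continuous_snd).add ((h0 v u).comp continuous_snd)
        have h2 : A u v + A v u ≠ 0 := by
          rw [hA.apply u v]
          intro h3
          apply h
          linarith
        filter_upwards [hc.continuousAt.eventually_ne h2] with x hx _
        exact hx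
    have h2 := Filter.eventually_all.mpr fun u => Filter.eventually_all.mpr fun v => h1 u v
    exact h2
  have key := surj_nhds A L S (LL_self hA) (fun y => surj hA hX y) U hU
  have hlim : Filter.Tendsto (fun d : ℝ => -(d • EE A G)) (𝓝 0) (𝓝 (0 : Matrix V V ℝ)) := by
    have : Continuous fun d : ℝ => -(d • EE A G) := by fun_prop
    have h := this.tendsto 0
    simpa using h
  have h1 : ∀ᶠ d : ℝ in 𝓝[≠] 0, ∃ x ∈ U, Psi A L S x = -(d • EE A G) :=
    (hlim.eventually key).filter_mono nhdsWithin_le_nhds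
  obtain ⟨d, ⟨⟨K, B⟩, hxU, hx⟩, hd⟩ := (h1.and self_mem_nhdsWithin).exists
  have hd0 : d ≠ 0 := hd
  have hP : NormedSpace.exp (Sk K) * NormedSpace.exp (-Sk K) = 1 := by
    rw [← Matrix.exp_add_of_commute _ _ (Commute.neg_right (Commute.refl (Sk K))), add_neg_cancel,
      NormedSpace.exp_zero]
  have hQ : NormedSpace.exp (-Sk K) * NormedSpace.exp (Sk K) = 1 := by
    rw [← Matrix.exp_add_of_commute _ _ (Commute.neg_left (Commute.refl (Sk K))), neg_add_cancel,
      NormedSpace.exp_zero]
  have hskT : (Sk K)ᵀ = -Sk K := by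
    ext u v
    simp only [Sk, transpose_apply, Matrix.neg_apply, of_apply]
    ring
  have hskT' : (-Sk K)ᵀ = Sk K := by rw [transpose_neg, hskT, neg_neg]
  let M : Matrix V V ℝ := NormedSpace.exp (Sk K) * A * NormedSpace.exp (-Sk K)
  have hM : M = Pr A B + Sk B + d • EE A G := by
    have h2 : LL A B - M = -(d • EE A G) := hx
    have h3 : M = LL A B + d • EE A G := by
      rw [← neg_neg (d • EE A G), ← h2]; abel
    exact h3
  have hMs : M.IsSymm := by
    change Mᵀ = M
    simp only [M]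
    rw [transpose_mul, transpose_mul, ← Matrix.exp_transpose, ← Matrix.exp_transpose, hskT, hskT',
      hA, ← mul_assoc]
  refine ⟨M, NormedSpace.exp (Sk K), NormedSpace.exp (-Sk K), hMs, ?_, hP, hQ, rfl⟩
  intro u v huv
  have hMu : M u v = (Pr A B u v + Sk B u v) + d * EE A G u v := by rw [hM]; rfl
  have hMv : M v u = (Pr A B v u + Sk B v u) + d * EE A G v u := by rw [hM]; rfl
  have h5 := hMs.apply u v
  have hAs := hA.apply u v
  have hprs : Pr A B v u = Pr A B u v := by
    have hiff : (v = u ∨ A v u ≠ 0) ↔ (u = v ∨ A u v ≠ 0) := by rw [hAs, eq_comm]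
    simp only [Pr, of_apply]
    by_cases h : u = v ∨ A u v ≠ 0
    · rw [if_pos h, if_pos (hiff.mpr h), add_comm]
    · rw [if_neg h, if_neg fun h' => h (hiff.mp h')]
  have hEs : EE A G v u = EE A G u v := by
    have hiff : (G.Adj v u ∧ A v u = 0) ↔ (G.Adj u v ∧ A u v = 0) := by rw [hAs, G.adj_comm]
    simp only [EE, of_apply]
    by_cases h : G.Adj u v ∧ A u v = 0
    · rw [if_pos h, if_pos (hiff.mpr h)]
    · rw [if_neg h, if_neg fun h' => h (hiff.mp h')]
  have hSs : Sk B v u = -Sk B u v := by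
    simp only [Sk, of_apply]; ring
  rw [hMu, hMv, hprs, hEs, hSs] at h5
  have hSk0 : Sk B u v = 0 := by linarith
  rw [hMu, hSk0, add_zero]
  by_cases hAuv : A u v = 0
  · have hpr : Pr A B u v = 0 := by simp [Pr, huv, hAuv]
    rw [hpr, zero_add]
    simp [EE, hAuv, hd0]
  · have hpr : Pr A B u v = (B u v + B v u) / 2 := by simp [Pr, hAuv]
    have hE : EE A G u v = 0 := by simp [EE, hAuv]
    rw [hpr, hE, mul_zero, add_zero]
    have h6 : B u v + B v u ≠ 0 := hxU u v hAuv
    exact ⟨fun _ => hG u v huv hAuv, fun _ => div_ne_zero h6 two_ne_zero⟩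

end Pool.Agent.K6.H57.NG
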