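import Pool.Agent.K6.H57.NG.Stm

/-! # Piece PAT -/

set_option autoImplicit false

namespace Pool.Agent.K6.H57.NG

open Finset Matrix

namespace PAT

theorem order4 {V : Type} (S : Finset V) (h : #S = 4) :
    ∃ a : Fin 4 → V, Function.Injective a ∧ (∀ i, a i ∈ S) := by
  refine ⟨fun i => ((S.equivFinOfCardEq h).symm i : V), ?_, fun i => Subtype.coe_prop _⟩
  intro i j hij
  exact (S.equivFinOfCardEq h).symm.injective (Subtype.ext hij)

end PAT

theorem t_PAT : S_PAT := by
  classical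
  intro V _ G K L hK hK8 hL hL211
  have hint : #(K ∩ L) ≤ 1 := by
    rw [card_le_one]
    intro u hu v hv
    by_contra hne
    rw [mem_inter] at hu hv
    have h1 := hK u hu.1 v hv.1 hne
    have h2 := hL u hu.2 v hv.2 hne
    rw [SimpleGraph.compl_adj] at h2
    exact h2.2 h1
  have h7 : 7 ≤ #(K \ L) := by
    have := card_sdiff_add_card_inter K L
    omega
  obtain ⟨K0, hK0, hK0c⟩ := exists_subset_card_eq h7
  have hK0K : ∀ x ∈ K0, x ∈ K := fun x hx => (mem_sdiff.1 (hK0 hx)).1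
  have hK0L : ∀ x ∈ K0, x ∉ L := fun x hx => (mem_sdiff.1 (hK0 hx)).2
  have key : ∀ b : V, ∃ y : Finset V × Bool, b ∈ L →
      y ∈ (powersetCard 4 K0) ×ˢ (univ : Finset Bool) ∧
      ∀ x ∈ y.1, (y.2 = true → G.Adj x b) ∧ (y.2 = false → Gᶜ.Adj x b) := by
    intro b
    by_cases hb : b ∈ L
    · have hsum := card_filter_add_card_filter_not (s := K0) (fun x => G.Adj x b)
      rcases le_or_gt 4 #(K0.filter (fun x => G.Adj x b)) with h4 | h4
      · obtain ⟨S, hS, hSc⟩ := exists_subset_card_eq h4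
        refine ⟨(S, true), fun _ => ⟨?_, fun x hx => ⟨fun _ => (mem_filter.1 (hS hx)).2, fun h => ?_⟩⟩⟩
        · rw [mem_product, mem_powersetCard]
          exact ⟨⟨hS.trans (filter_subset _ _), hSc⟩, mem_univ _⟩
        · exact absurd h (by simp)
      · have h4' : 4 ≤ #(K0.filter (fun x => ¬ G.Adj x b)) := by omega
        obtain ⟨S, hS, hSc⟩ := exists_subset_card_eq h4'
        refine ⟨(S, false), fun _ => ⟨?_, fun x hx => ⟨fun h => absurd h (by simp), fun _ => ?_⟩⟩⟩
        · rw [mem_product, mem_powersetCard]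
          exact ⟨⟨hS.trans (filter_subset _ _), hSc⟩, mem_univ _⟩
        · obtain ⟨h5, h6⟩ := mem_filter.1 (hS hx)
          rw [SimpleGraph.compl_adj]
          exact ⟨fun h => hK0L x h5 (h ▸ hb), h6⟩
    · exact ⟨(∅, true), fun h => absurd h hb⟩
  choose f hf using key
  have hcard : #((powersetCard 4 K0) ×ˢ (univ : Finset Bool)) = 70 := by
    rw [card_product, card_powersetCard, hK0c]
    rfl
  obtain ⟨y, hy, hlt⟩ := exists_lt_card_fiber_of_mul_lt_card_of_maps_to
    (s := L) (t := (powersetCard 4 K0) ×ˢ (univ : Finset Bool)) (f := f) (n := 3)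
    (fun b hb => (hf b hb).1) (by rw [hcard]; omega)
  obtain ⟨L0, hL0, hL0c⟩ := exists_subset_card_eq (n := 4) (Nat.succ_le_of_lt hlt)
  rw [mem_product, mem_powersetCard] at hy
  obtain ⟨a, ha, haS⟩ := PAT.order4 y.1 hy.1.2
  obtain ⟨b, hb, hbS⟩ := PAT.order4 L0 hL0c
  have hbL : ∀ j, b j ∈ L ∧ f (b j) = y := fun j => mem_filter.1 (hL0 (hbS j))
  refine ⟨a, b, ha, hb, fun i j h => ?_, fun i => hK0K _ (hy.1.1 (haS i)), fun j => (hbL j).1, ?_⟩
  · exact hK0L _ (hy.1.1 (haS i)) (h ▸ (hbL j).1)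
  · rcases hy2 : y.2 with _ | _
    · right
      intro i j
      have h1 := (hf (b j) (hbL j).1).2 (a i) (by rw [(hbL j).2]; exact haS i)
      exact h1.2 (by rw [(hbL j).2]; exact hy2)
    · left
      intro i j
      have h1 := (hf (b j) (hbL j).1).2 (a i) (by rw [(hbL j).2]; exact haS i)
      exact h1.1 (by rw [(hbL j).2]; exact hy2)

end Pool.Agent.K6.H57.NG
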