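import Pool.Agent.K6.H57.NG.Stm

/-! # Piece QLE -/

set_option autoImplicit false

namespace Pool.Agent.K6.H57.NG

open Finset Matrix

namespace QLE

theorem exists_eigenvector {V : Type} [Fintype V] [DecidableEq V] (M : Matrix V V ℝ) (μ : ℝ)
    (hμ : μ ∈ spectrum ℝ M) : ∃ x : V → ℝ, x ≠ 0 ∧ M *ᵥ x = μ • x := by
  rw [spectrum.mem_iff, Matrix.isUnit_iff_isUnit_det, isUnit_iff_ne_zero, not_not,
    ← Matrix.exists_mulVec_eq_zero_iff] at hμ
  obtain ⟨x, hx, h⟩ := hμ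
  refine ⟨x, hx, ?_⟩
  rw [Matrix.sub_mulVec, sub_eq_zero] at h
  rw [← h, Algebra.algebraMap_eq_smul_one, Matrix.smul_mulVec, Matrix.one_mulVec]

end QLE

theorem t_QLE (h : S_IFT) : S_QLE := by
  intro V _ _ G t hRz
  obtain ⟨A, L, hsym, hcard, -, hadj, hssp, heig⟩ := hRz
  obtain ⟨M, P, Q, hMs, hMp, hPQ, hQP, hM⟩ := h V A hsym
    (fun X hX hd hz hc => hssp X hX (fun _ _ _ => ⟨mem_univ _, mem_univ _⟩) hd hz hc) G hadj
  have hsub : spectrum ℝ M ⊆ (L : Set ℝ) := by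
    intro μ hμ
    obtain ⟨x, hx, hMx⟩ := QLE.exists_eigenvector M μ hμ
    refine heig μ (Q *ᵥ x) (fun _ _ => mem_univ _) ?_ ?_
    · intro h0
      apply hx
      have h1 : (P * Q) *ᵥ x = x := by rw [hPQ, Matrix.one_mulVec]
      rw [← h1, ← Matrix.mulVec_mulVec, h0, Matrix.mulVec_zero]
    · have h1 : Q *ᵥ (M *ᵥ x) = A *ᵥ (Q *ᵥ x) := by
        rw [hM, Matrix.mulVec_mulVec, Matrix.mulVec_mulVec, ← Matrix.mul_assoc, ← Matrix.mul_assoc,
          hQP, Matrix.one_mul]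
      rw [← h1, hMx, Matrix.mulVec_smul]
  have h1 : (spectrum ℝ M).ncard ≤ t := by
    refine (Set.ncard_le_ncard hsub L.finite_toSet).trans ?_
    rw [Set.ncard_coe_finset]
    exact hcard
  have h2 : q G ≤ (spectrum ℝ M).ncard := Nat.sInf_le ⟨M, hMs, hMp, rfl⟩
  exact h2.trans h1

end Pool.Agent.K6.H57.NG
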