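import Pool.Agent.K6.H57.NG.Stm

/-! Piece RAM (helper5): Ramsey's theorem for two colours. -/

set_option autoImplicit false

namespace Pool.Agent.K6.H57.NG

open Finset

namespace RAM

theorem cl_insert {V : Type} [DecidableEq V] {G : SimpleGraph V} {K : Finset V} {x : V}
    (h : Cl G K) (hx : ∀ u ∈ K, G.Adj x u) : Cl G (insert x K) := by
  intro u hu v hv huv
  rw [mem_insert] at hu hv
  rcases hu with rfl | hu <;> rcases hv with rfl | hv
  · exact absurd rfl huv
  · exact hx v hv
  · exact (hx u hu).symm
  · exact h u hu v hv huv

end RAM

open RAM in
theorem t_RAM : S_RAM := by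
  classical
  intro s
  induction s with
  | zero =>
    intro t
    refine ⟨0, fun V _ G W _ => Or.inl ⟨∅, empty_subset _, card_empty, ?_⟩⟩
    intro u hu
    exact absurd hu (notMem_empty u)
  | succ s ihs =>
    intro t
    induction t with
    | zero =>
      refine ⟨0, fun V _ G W _ => Or.inr ⟨∅, empty_subset _, card_empty, ?_⟩⟩
      intro u hu
      exact absurd hu (notMem_empty u)
    | succ t iht =>
      obtain ⟨N1, h1⟩ := ihs (t + 1)
      obtain ⟨N2, h2⟩ := iht
      refine ⟨N1 + N2 + 1, fun V _ G W hW => ?_⟩
      have hne : W.Nonempty := by
        rw [← card_pos]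
        omega
      obtain ⟨x, hx⟩ := hne
      have hcard : #((W.erase x).filter fun u => G.Adj x u) +
          #((W.erase x).filter fun u => ¬ G.Adj x u) = #(W.erase x) :=
        card_filter_add_card_filter_not _
      rw [card_erase_of_mem hx] at hcard
      by_cases hc : N1 ≤ #((W.erase x).filter fun u => G.Adj x u)
      · rcases h1 V G _ hc with ⟨K, hK, hs, hcl⟩ | ⟨K, hK, hs, hcl⟩
        · left
          refine ⟨insert x K, ?_, ?_, ?_⟩
          · exact insert_subset hx (hK.trans ((filter_subset _ _).trans (erase_subset _ _)))
          · rw [card_insert_of_notMem, hs]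
            intro hxK
            have := hK hxK
            rw [mem_filter, mem_erase] at this
            exact this.1.1 rfl
          · refine cl_insert hcl fun u hu => ?_
            exact (mem_filter.1 (hK hu)).2
        · right
          exact ⟨K, hK.trans ((filter_subset _ _).trans (erase_subset _ _)), hs, hcl⟩
      · have hc2 : N2 ≤ #((W.erase x).filter fun u => ¬ G.Adj x u) := by omega
        rcases h2 V G _ hc2 with ⟨K, hK, hs, hcl⟩ | ⟨K, hK, hs, hcl⟩
        · left
          exact ⟨K, hK.trans ((filter_subset _ _).trans (erase_subset _ _)), hs, hcl⟩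
        · right
          refine ⟨insert x K, ?_, ?_, ?_⟩
          · exact insert_subset hx (hK.trans ((filter_subset _ _).trans (erase_subset _ _)))
          · rw [card_insert_of_notMem, hs]
            intro hxK
            have := hK hxK
            rw [mem_filter, mem_erase] at this
            exact this.1.1 rfl
          · refine cl_insert hcl fun u hu => ?_
            have h3 := mem_filter.1 (hK hu)
            rw [SimpleGraph.compl_adj]
            exact ⟨fun h => (mem_erase.1 h3.1).1 h.symm, h3.2⟩

end Pool.Agent.K6.H57.NG
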