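import Pool.Agent.K6.H57.NG.Stm

set_option autoImplicit false

namespace Pool.Agent.K6.H57.NG

open Finset Matrix

namespace SPL

/-- Hadamard matrix -/
def h : Fin 4 → Fin 4 → ℝ :=
  ![![8, 10, 10, 10], ![8, -10, 10, -10], ![8, 10, -10, -10], ![8, -10, -10, 10]]

/-- the 8 x 8 matrix -/
def M : (Fin 4 ⊕ Fin 4) → (Fin 4 ⊕ Fin 4) → ℝ
  | Sum.inl _, Sum.inl _ => -3
  | Sum.inl i, Sum.inr j => h i j
  | Sum.inr j, Sum.inl i => h i j
  | Sum.inr i, Sum.inr j => if i = 0 ∧ j = 0 then 12 else 0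

lemma M_symm (s t : Fin 4 ⊕ Fin 4) : M s t = M t s := by
  rcases s with i | i <;> rcases t with j | j
  · rfl
  · rfl
  · rfl
  · show (if i = 0 ∧ j = 0 then (12 : ℝ) else 0) = if j = 0 ∧ i = 0 then (12 : ℝ) else 0
    simp only [and_comm]

lemma h_ne (i j : Fin 4) : h i j ≠ 0 := by
  fin_cases i <;> fin_cases j <;> norm_num [h]

lemma eig (z : Fin 4 ⊕ Fin 4 → ℝ) (μ : ℝ) (hz : ∀ s, ∑ t, M s t * z t = μ * z s) (s) :
    μ * μ * z s = 400 * z s := by
  have e0 := hz (Sum.inl 0)
  have e1 := hz (Sum.inl 1)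
  have e2 := hz (Sum.inl 2)
  have e3 := hz (Sum.inl 3)
  have f0 := hz (Sum.inr 0)
  have f1 := hz (Sum.inr 1)
  have f2 := hz (Sum.inr 2)
  have f3 := hz (Sum.inr 3)
  simp only [Fintype.sum_sum_type, Fin.sum_univ_four, M] at e0 e1 e2 e3 f0 f1 f2 f3
  simp [h] at e0 e1 e2 e3 f0 f1 f2 f3
  rcases s with i | i <;> fin_cases i
  · show μ * μ * z (Sum.inl 0) = 400 * z (Sum.inl 0)
    linear_combination (-μ) * e0 + 3 * (e0 + e1 + e2 + e3) - 8 * f0 - 10 * (f1 + f2 + f3)
  · show μ * μ * z (Sum.inl 1) = 400 * z (Sum.inl 1)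
    linear_combination (-μ) * e1 + 3 * (e0 + e1 + e2 + e3) - 8 * f0 - 10 * (- f1 + f2 - f3)
  · show μ * μ * z (Sum.inl 2) = 400 * z (Sum.inl 2)
    linear_combination (-μ) * e2 + 3 * (e0 + e1 + e2 + e3) - 8 * f0 - 10 * (f1 - f2 - f3)
  · show μ * μ * z (Sum.inl 3) = 400 * z (Sum.inl 3)
    linear_combination (-μ) * e3 + 3 * (e0 + e1 + e2 + e3) - 8 * f0 - 10 * (- f1 - f2 + f3)
  · show μ * μ * z (Sum.inr 0) = 400 * z (Sum.inr 0)
    linear_combination (-μ) * f0 - 8 * (e0 + e1 + e2 + e3) - 12 * f0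
  · show μ * μ * z (Sum.inr 1) = 400 * z (Sum.inr 1)
    linear_combination (-μ) * f1 - 10 * (e0 - e1 + e2 - e3)
  · show μ * μ * z (Sum.inr 2) = 400 * z (Sum.inr 2)
    linear_combination (-μ) * f2 - 10 * (e0 + e1 - e2 - e3)
  · show μ * μ * z (Sum.inr 3) = 400 * z (Sum.inr 3)
    linear_combination (-μ) * f3 - 10 * (e0 - e1 - e2 + e3)

lemma four (y : Fin 4 → ℝ) (hy : ∀ i, ∑ k, h i k * y k = 0) (k) : y k = 0 := by
  have e0 := hy 0
  have e1 := hy 1
  have e2 := hy 2
  have e3 := hy 3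
  simp [Fin.sum_univ_four, h] at e0 e1 e2 e3
  fin_cases k
  · show y 0 = 0
    linarith
  · show y 1 = 0
    linarith
  · show y 2 = 0
    linarith
  · show y 3 = 0
    linarith

end SPL

open SPL in
theorem t_SPL : S_SPL := by
  classical
  intro V _ _ G a b ha hb hab hK hKL
  set e : Fin 4 ⊕ Fin 4 → V := Sum.elim a b with he
  have einj : Function.Injective e := by
    rintro (i | i) (j | j) hij
    · exact congrArg _ (ha hij)
    · exact absurd hij (hab i j)
    · exact absurd hij.symm (hab j i)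
    · exact congrArg _ (hb hij)
  have emem : ∀ s, e s ∈ univ.image a ∪ univ.image b := by
    rintro (i | i)
    · exact mem_union_left _ (mem_image_of_mem _ (mem_univ _))
    · exact mem_union_right _ (mem_image_of_mem _ (mem_univ _))
  have erng : ∀ u, u ∈ univ.image a ∪ univ.image b → ∃ s, e s = u := by
    intro u hu
    rcases mem_union.1 hu with hu | hu
    · obtain ⟨i, _, rfl⟩ := mem_image.1 hu
      exact ⟨Sum.inl i, rfl⟩
    · obtain ⟨i, _, rfl⟩ := mem_image.1 hu
      exact ⟨Sum.inr i, rfl⟩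
  -- the matrix
  set A : Matrix V V ℝ := fun u v => ∑ s, ∑ t, if e s = u ∧ e t = v then M s t else 0 with hA
  have Ae : ∀ s t, A (e s) (e t) = M s t := by
    intro s t
    show ∑ s', ∑ t', (if e s' = e s ∧ e t' = e t then M s' t' else 0) = M s t
    rw [Finset.sum_eq_single s, Finset.sum_eq_single t]
    · simp
    · intro t' _ ht'
      rw [if_neg]
      rintro ⟨_, h2⟩
      exact ht' (einj h2)
    · simp
    · intro s' _ hs'
      refine Finset.sum_eq_zero fun t' _ => ?_
      rw [if_neg]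
      rintro ⟨h1, _⟩
      exact hs' (einj h1)
    · simp
  have Asup : ∀ u v, A u v ≠ 0 → ∃ s t, e s = u ∧ e t = v := by
    intro u v huv
    by_contra hc
    push Not at hc
    apply huv
    refine Finset.sum_eq_zero fun s _ => Finset.sum_eq_zero fun t _ => ?_
    rw [if_neg]
    rintro ⟨h1, h2⟩
    exact hc s t h1 h2
  have sm : ∀ f : V → ℝ, (∀ v, f v ≠ 0 → ∃ s, e s = v) → ∑ v, f v = ∑ s, f (e s) := by
    intro f hf
    refine (Fintype.sum_of_injective e einj (fun s => f (e s)) f ?_ (fun s => rfl)).symm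
    intro v hv
    by_contra hc
    obtain ⟨s, hs⟩ := hf v hc
    exact hv ⟨s, hs⟩
  refine ⟨A, {20, -20}, ?_, card_le_two, ?_, ?_, ?_, ?_⟩
  · ext u v
    show A v u = A u v
    by_cases huv : A u v = 0
    · by_contra hc
      have h1 : A v u ≠ 0 := fun h0 => hc (h0.trans huv.symm)
      obtain ⟨s, t, rfl, rfl⟩ := Asup _ _ h1
      rw [Ae] at hc huv
      rw [Ae, M_symm] at hc
      exact hc rfl
    · obtain ⟨s, t, rfl, rfl⟩ := Asup _ _ huv
      rw [Ae, Ae, M_symm]
  · intro u v huv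
    obtain ⟨s, t, rfl, rfl⟩ := Asup _ _ huv
    exact ⟨emem _, emem _⟩
  · intro u v huv hA0
    obtain ⟨s, t, rfl, rfl⟩ := Asup _ _ hA0
    rw [Ae] at hA0
    rcases s with i | i <;> rcases t with j | j
    · exact hK i j (fun h => huv (by rw [h]))
    · exact hKL i j
    · exact (hKL j i).symm
    · exfalso
      have hij : i ≠ j := fun h => huv (by rw [h])
      apply hA0
      show (if i = 0 ∧ j = 0 then (12 : ℝ) else 0) = 0
      rw [if_neg]
      rintro ⟨h1, h2⟩
      exact hij (h1.trans h2.symm)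
  · intro X hXs hXsup hXd hXA hcomm
    have Xinl : ∀ i j, X (e (Sum.inl i)) (e (Sum.inl j)) = 0 := by
      intro i j
      by_cases hij : i = j
      · rw [hij]; exact hXd _
      · refine hXA _ _ (fun h => hij (Sum.inl_injective (einj h))) ?_
        rw [Ae]
        show (-3 : ℝ) ≠ 0
        norm_num
    have Xlr : ∀ i j, X (e (Sum.inl i)) (e (Sum.inr j)) = 0 := by
      intro i j
      refine hXA _ _ (hab i j) ?_
      rw [Ae]
      exact h_ne i j
    have Xsym : ∀ u v, X u v = X v u := fun u v => by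
      have := congrFun (congrFun hXs u) v
      exact this.symm
    have Xrr : ∀ i j, X (e (Sum.inr i)) (e (Sum.inr j)) = 0 := by
      intro k j
      refine four (fun k => X (e (Sum.inr k)) (e (Sum.inr j))) ?_ k
      intro i
      have h1 := congrFun (congrFun hcomm (e (Sum.inl i))) (e (Sum.inr j))
      rw [Matrix.mul_apply, Matrix.mul_apply, sm, sm] at h1
      · rw [Fintype.sum_sum_type, Fintype.sum_sum_type] at h1
        simp only [Ae, Xinl, Xlr, mul_zero, zero_mul, Finset.sum_const_zero, zero_add] at h1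
        exact h1
      · intro v hv
        exact erng v (hXsup _ _ (left_ne_zero_of_mul hv)).2
      · intro v hv
        exact erng v (hXsup _ _ (right_ne_zero_of_mul hv)).1
    ext u v
    show X u v = 0
    by_contra hc
    obtain ⟨hu, hv⟩ := hXsup _ _ hc
    obtain ⟨s, rfl⟩ := erng u hu
    obtain ⟨t, rfl⟩ := erng v hv
    apply hc
    rcases s with i | i <;> rcases t with j | j
    · exact Xinl i j
    · exact Xlr i j
    · rw [Xsym]; exact Xlr j i
    · exact Xrr i j
  · intro μ x hxs hx hAx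
    have hz : ∀ s, ∑ t, M s t * x (e t) = μ * x (e s) := by
      intro s
      have h1 := congrFun hAx (e s)
      rw [Matrix.mulVec, dotProduct, sm] at h1
      · simp only [Ae] at h1
        exact h1
      · intro v hv
        exact erng v (hxs _ (right_ne_zero_of_mul hv))
    obtain ⟨v, hv⟩ := Function.ne_iff.1 hx
    obtain ⟨s, rfl⟩ := erng v (hxs v hv)
    have h2 := eig (fun s => x (e s)) μ hz s
    have h3 : μ * μ = 400 := mul_right_cancel₀ hv h2
    have h4 : (μ - 20) * (μ + 20) = 0 := by linear_combination h3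
    rcases mul_eq_zero.1 h4 with h5 | h5
    · rw [show μ = 20 by linarith]
      simp
    · rw [show μ = -20 by linarith]
      simp

end Pool.Agent.K6.H57.NG
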