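import Pool.Agent.K6.H57.NG.Stm

/-!
# Direct sums of matrices with the strong spectral property (piece `SUM`)
-/

set_option autoImplicit false

namespace Pool.Agent.K6.H57.NG

open Finset Matrix

namespace SUM

variable {V : Type} [Fintype V] [DecidableEq V]

/-- restriction of a matrix to `S × S` -/
def rs (S : Finset V) (X : Matrix V V ℝ) : Matrix V V ℝ :=
  fun u v => if u ∈ S ∧ v ∈ S then X u v else 0

lemma mul_zero_of {A X : Matrix V V ℝ} {u v : V} (h : ∀ k, A u k = 0) : (A * X) u v = 0 := by
  rw [Matrix.mul_apply]
  exact Finset.sum_eq_zero fun k _ => by rw [h k, zero_mul]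

lemma mul_zero_of' {A X : Matrix V V ℝ} {u v : V} (h : ∀ k, A k v = 0) : (X * A) u v = 0 := by
  rw [Matrix.mul_apply]
  exact Finset.sum_eq_zero fun k _ => by rw [h k, mul_zero]

/-- the commutation relation passes to the restriction -/
lemma comm_rs {S : Finset V} {A X : Matrix V V ℝ} (hA : ∀ u v, A u v ≠ 0 → u ∈ S ∧ v ∈ S)
    (h : ∀ u ∈ S, ∀ v ∈ S, (A * X) u v = (X * A) u v) : A * rs S X = rs S X * A := by
  ext u v
  by_cases hu : u ∈ S
  · by_cases hv : v ∈ S
    · have h1 : (A * rs S X) u v = (A * X) u v := by
        rw [Matrix.mul_apply, Matrix.mul_apply]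
        refine Finset.sum_congr rfl fun k _ => ?_
        by_cases hk : A u k = 0
        · rw [hk, zero_mul, zero_mul]
        · simp [rs, (hA u k hk).2, hv]
      have h2 : (rs S X * A) u v = (X * A) u v := by
        rw [Matrix.mul_apply, Matrix.mul_apply]
        refine Finset.sum_congr rfl fun k _ => ?_
        by_cases hk : A k v = 0
        · rw [hk, mul_zero, mul_zero]
        · simp [rs, (hA k v hk).1, hu]
      rw [h1, h2, h u hu v hv]
    · rw [mul_zero_of' (A := rs S X) (X := A) fun k => by simp [rs, hv],
        mul_zero_of' (A := A) (X := rs S X) fun k => by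
          by_contra hk
          exact hv (hA k v hk).2]
  · rw [mul_zero_of (A := A) (X := rs S X) fun k => by
          by_contra hk
          exact hu (hA u k hk).1,
        mul_zero_of (A := rs S X) (X := A) fun k => by simp [rs, hu]]

end SUM

open SUM in
theorem t_SUM : S_SUM := by
  intro V _ _ G S W s t hS hW hSW
  obtain ⟨A1, Λ1, sy1, ca1, su1, ad1, ss1, ev1⟩ := hS
  obtain ⟨A2, Λ2, sy2, ca2, su2, ad2, ss2, ev2⟩ := hW
  have hSW' : ∀ u, u ∈ S → u ∉ W := fun u hu hw => Finset.disjoint_left.mp hSW hu hw
  have hWS' : ∀ u, u ∈ W → u ∉ S := fun u hu hw => Finset.disjoint_left.mp hSW hw hu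
  have z1 : ∀ u v, u ∉ S → A1 u v = 0 := fun u v hu => by
    by_contra h
    exact hu (su1 u v h).1
  have z1' : ∀ u v, v ∉ S → A1 u v = 0 := fun u v hu => by
    by_contra h
    exact hu (su1 u v h).2
  have z2 : ∀ u v, u ∉ W → A2 u v = 0 := fun u v hu => by
    by_contra h
    exact hu (su2 u v h).1
  have z2' : ∀ u v, v ∉ W → A2 u v = 0 := fun u v hu => by
    by_contra h
    exact hu (su2 u v h).2
  set c : ℝ := 1 + ((∑ u, ∑ v, |A1 u v|) + ∑ u, ∑ v, |A2 u v|) with hc
  have row1 : ∀ u, ∑ k, |A1 u k| ≤ ∑ u, ∑ v, |A1 u v| := fun u =>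
    Finset.single_le_sum (f := fun u => ∑ v, |A1 u v|)
      (fun i _ => Finset.sum_nonneg fun j _ => abs_nonneg _) (Finset.mem_univ u)
  have row2 : ∀ v, ∑ k, |A2 k v| ≤ ∑ u, ∑ v, |A2 u v| := fun v => by
    rw [Finset.sum_comm (f := fun u v => |A2 u v|)]
    exact Finset.single_le_sum (f := fun v => ∑ u, |A2 u v|)
      (fun i _ => Finset.sum_nonneg fun j _ => abs_nonneg _) (Finset.mem_univ v)
  set D : Matrix V V ℝ := Matrix.diagonal (fun u => if u ∈ S then c else 0) with hD
  have Dne : ∀ u v, u ≠ v → D u v = 0 := fun u v huv => by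
    rw [hD, Matrix.diagonal_apply_ne _ huv]
  have Dns : ∀ u v, u ∉ S → D u v = 0 := fun u v hu => by
    by_cases huv : u = v
    · subst huv
      rw [hD, Matrix.diagonal_apply_eq, if_neg hu]
    · exact Dne u v huv
  set A : Matrix V V ℝ := A1 + A2 + D with hA
  have Aap : ∀ u v, A u v = A1 u v + A2 u v + D u v := fun u v => rfl
  -- products
  have l1 : ∀ (X : Matrix V V ℝ) (u v), u ∈ S → (A * X) u v = (A1 * X) u v + c * X u v := by
    intro X u v hu
    rw [hA, Matrix.add_mul, Matrix.add_mul, Matrix.add_apply, Matrix.add_apply,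
      mul_zero_of (A := A2) (X := X) fun k => z2 u k (hSW' u hu), hD, Matrix.diagonal_mul,
      if_pos hu, add_zero]
  have l2 : ∀ (X : Matrix V V ℝ) (u v), u ∈ W → (A * X) u v = (A2 * X) u v := by
    intro X u v hu
    rw [hA, Matrix.add_mul, Matrix.add_mul, Matrix.add_apply, Matrix.add_apply,
      mul_zero_of (A := A1) (X := X) fun k => z1 u k (hWS' u hu), hD, Matrix.diagonal_mul,
      if_neg (hWS' u hu), zero_mul, add_zero, zero_add]
  have r1 : ∀ (X : Matrix V V ℝ) (u v), v ∈ S → (X * A) u v = (X * A1) u v + c * X u v := by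
    intro X u v hv
    rw [hA, Matrix.mul_add, Matrix.mul_add, Matrix.add_apply, Matrix.add_apply,
      mul_zero_of' (A := A2) (X := X) fun k => z2' k v (hSW' v hv), hD, Matrix.mul_diagonal,
      if_pos hv, add_zero, mul_comm (X u v) c]
  have r2 : ∀ (X : Matrix V V ℝ) (u v), v ∈ W → (X * A) u v = (X * A2) u v := by
    intro X u v hv
    rw [hA, Matrix.mul_add, Matrix.mul_add, Matrix.add_apply, Matrix.add_apply,
      mul_zero_of' (A := A1) (X := X) fun k => z1' k v (hWS' v hv), hD, Matrix.mul_diagonal,
      if_neg (hWS' v hv), mul_zero, add_zero, zero_add]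
  refine ⟨A, Λ1.image (fun l => l + c) ∪ Λ2, ?_, ?_, ?_, ?_, ?_, ?_⟩
  · rw [hA]
    exact (sy1.add sy2).add (by rw [hD]; exact Matrix.isSymm_diagonal _)
  · exact (Finset.card_union_le _ _).trans
      (add_le_add (Finset.card_image_le.trans ca1) ca2)
  · intro u v huv
    by_contra hcon
    apply huv
    rw [Finset.mem_union, Finset.mem_union] at hcon
    have h1 : A1 u v = 0 := by
      by_contra h
      exact hcon ⟨Or.inl (su1 u v h).1, Or.inl (su1 u v h).2⟩
    have h2 : A2 u v = 0 := by
      by_contra h
      exact hcon ⟨Or.inr (su2 u v h).1, Or.inr (su2 u v h).2⟩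
    have h3 : D u v = 0 := by
      by_cases hu : u ∈ S
      · by_cases huv' : u = v
        · subst huv'
          exact absurd ⟨Or.inl hu, Or.inl hu⟩ hcon
        · exact Dne u v huv'
      · exact Dns u v hu
    rw [Aap, h1, h2, h3, add_zero, add_zero]
  · intro u v huv h
    by_cases h1 : A1 u v = 0
    · by_cases h2 : A2 u v = 0
      · exact absurd (by rw [Aap, h1, h2, Dne u v huv, add_zero, add_zero]) h
      · exact ad2 u v huv h2
    · exact ad1 u v huv h1
  · intro X sX suX dX zX cX
    -- cross entries vanish
    have cross : ∀ u ∈ S, ∀ v ∈ W, X u v = 0 := by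
      intro u0 hu0 v0 hv0
      obtain ⟨p, hp, hmax⟩ := Finset.exists_max_image (S ×ˢ W) (fun p => |X p.1 p.2|)
        ⟨(u0, v0), Finset.mk_mem_product hu0 hv0⟩
      rw [Finset.mem_product] at hp
      obtain ⟨hpS, hpW⟩ := hp
      set m : ℝ := |X p.1 p.2| with hm
      have hm0 : 0 ≤ m := abs_nonneg _
      have hle : ∀ u ∈ S, ∀ v ∈ W, |X u v| ≤ m := fun u hu v hv =>
        hmax (u, v) (Finset.mk_mem_product hu hv)
      have e : (A * X) p.1 p.2 = (X * A) p.1 p.2 := by rw [cX]
      rw [l1 X _ _ hpS, r2 X _ _ hpW] at e
      have b1 : |(A1 * X) p.1 p.2| ≤ (∑ k, |A1 p.1 k|) * m := by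
        rw [Matrix.mul_apply, Finset.sum_mul]
        refine (Finset.abs_sum_le_sum_abs _ _).trans (Finset.sum_le_sum fun k _ => ?_)
        rw [abs_mul]
        by_cases hk : k ∈ S
        · exact mul_le_mul_of_nonneg_left (hle k hk _ hpW) (abs_nonneg _)
        · rw [z1' _ k hk, abs_zero, zero_mul, zero_mul]
      have b2 : |(X * A2) p.1 p.2| ≤ (∑ k, |A2 k p.2|) * m := by
        rw [Matrix.mul_apply, Finset.sum_mul]
        refine (Finset.abs_sum_le_sum_abs _ _).trans (Finset.sum_le_sum fun k _ => ?_)
        rw [abs_mul, mul_comm]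
        by_cases hk : k ∈ W
        · exact mul_le_mul_of_nonneg_left (hle _ hpS k hk) (abs_nonneg _)
        · rw [z2 k _ hk, abs_zero, zero_mul, zero_mul]
      have e2 : c * m ≤ (c - 1) * m := by
        have hcpos : 0 ≤ c := by
          have : 0 ≤ (∑ u, ∑ v, |A1 u v|) := Finset.sum_nonneg fun i _ =>
            Finset.sum_nonneg fun j _ => abs_nonneg _
          have : 0 ≤ (∑ u, ∑ v, |A2 u v|) := Finset.sum_nonneg fun i _ =>
            Finset.sum_nonneg fun j _ => abs_nonneg _
          rw [hc]
          linarith
        have h1 : c * m = |c * X p.1 p.2| := by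
          rw [abs_mul, hm, abs_of_nonneg hcpos]
        have h2 : c * X p.1 p.2 = (X * A2) p.1 p.2 - (A1 * X) p.1 p.2 := by linarith
        rw [h1, h2]
        refine (abs_sub _ _).trans ((add_le_add b2 b1).trans ?_)
        rw [← add_mul]
        refine mul_le_mul_of_nonneg_right ?_ hm0
        have := row1 p.1
        have := row2 p.2
        rw [hc]
        linarith
      have hm1 : m ≤ 0 := by linarith
      have := hle u0 hu0 v0 hv0
      exact abs_eq_zero.mp (le_antisymm (this.trans hm1) (abs_nonneg _))
    have x1 : rs S X = 0 := by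
      refine ss1 _ ?_ ?_ ?_ ?_ ?_
      · ext u v
        simp only [Matrix.transpose_apply, rs]
        rw [sX.apply u v]
        simp only [and_comm]
      · intro u v h
        by_contra hcon
        exact h (by simp only [rs]; rw [if_neg hcon])
      · intro u
        simp only [rs]
        rw [dX u, ite_self]
      · intro u v huv h
        simp only [rs]
        have hs := su1 u v h
        rw [if_pos hs]
        refine zX u v huv ?_
        rw [Aap, z2 u v (hSW' u hs.1), Dne u v huv, add_zero, add_zero]
        exact h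
      · refine comm_rs su1 fun u hu v hv => ?_
        have e : (A * X) u v = (X * A) u v := by rw [cX]
        rw [l1 X _ _ hu, r1 X _ _ hv] at e
        linarith
    have x2 : rs W X = 0 := by
      refine ss2 _ ?_ ?_ ?_ ?_ ?_
      · ext u v
        simp only [Matrix.transpose_apply, rs]
        rw [sX.apply u v]
        simp only [and_comm]
      · intro u v h
        by_contra hcon
        exact h (by simp only [rs]; rw [if_neg hcon])
      · intro u
        simp only [rs]
        rw [dX u, ite_self]
      · intro u v huv h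
        simp only [rs]
        have hs := su2 u v h
        rw [if_pos hs]
        refine zX u v huv ?_
        rw [Aap, z1 u v (hWS' u hs.1), Dne u v huv, add_zero, zero_add]
        exact h
      · refine comm_rs su2 fun u hu v hv => ?_
        have e : (A * X) u v = (X * A) u v := by rw [cX]
        rw [l2 X _ _ hu, r2 X _ _ hv] at e
        exact e
    ext u v
    rw [Matrix.zero_apply]
    by_contra hne
    have hs := suX u v hne
    rw [Finset.mem_union, Finset.mem_union] at hs
    apply hne
    rcases hs with ⟨hu | hu, hv | hv⟩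
    · have := congrFun (congrFun x1 u) v
      simp only [rs, hu, hv, and_self, if_true] at this
      exact this
    · exact cross u hu v hv
    · rw [← sX.apply u v]
      exact cross v hv u hu
    · have := congrFun (congrFun x2 u) v
      simp only [rs, hu, hv, and_self, if_true] at this
      exact this
  · intro μ x hx hx0 hAx
    rw [Finset.mem_union]
    have hAx' : ∀ u, (A *ᵥ x) u = μ * x u := fun u => by rw [hAx]; rfl
    have mvA : ∀ u, (A *ᵥ x) u = (A1 *ᵥ x) u + (A2 *ᵥ x) u + (if u ∈ S then c else 0) * x u := by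
      intro u
      rw [hA, Matrix.add_mulVec, Matrix.add_mulVec, hD]
      simp only [Pi.add_apply, Matrix.mulVec_diagonal]
    by_cases h1 : ∃ u ∈ S, x u ≠ 0
    · left
      rw [Finset.mem_image]
      refine ⟨μ - c, ?_, by ring⟩
      refine ev1 (μ - c) (fun u => if u ∈ S then x u else 0) ?_ ?_ ?_
      · intro u hu
        by_contra hcon
        exact hu (by simp only [if_neg hcon])
      · intro h0
        obtain ⟨u, hu, hu'⟩ := h1
        have := congrFun h0 u
        simp only [if_pos hu, Pi.zero_apply] at this
        exact hu' this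
      · ext u
        have e1 : (A1 *ᵥ fun u => if u ∈ S then x u else 0) u = (A1 *ᵥ x) u := by
          simp only [Matrix.mulVec, dotProduct]
          refine Finset.sum_congr rfl fun k _ => ?_
          by_cases hk : k ∈ S
          · rw [if_pos hk]
          · rw [z1' u k hk, zero_mul, zero_mul]
        rw [e1]
        simp only [Pi.smul_apply, smul_eq_mul]
        by_cases hu : u ∈ S
        · have e2 := mvA u
          have e3 : (A2 *ᵥ x) u = 0 := by
            simp only [Matrix.mulVec, dotProduct]
            exact Finset.sum_eq_zero fun k _ => by rw [z2 u k (hSW' u hu), zero_mul]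
          rw [hAx' u, e3, if_pos hu] at e2
          rw [if_pos hu]
          linarith
        · rw [if_neg hu, mul_zero]
          simp only [Matrix.mulVec, dotProduct]
          exact Finset.sum_eq_zero fun k _ => by rw [z1 u k hu, zero_mul]
    · right
      push Not at h1
      refine ev2 μ x ?_ hx0 ?_
      · intro u hu
        have := hx u hu
        rw [Finset.mem_union] at this
        rcases this with h | h
        · exact absurd (h1 u h) hu
        · exact h
      · ext u
        simp only [Pi.smul_apply, smul_eq_mul]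
        have e1 : (A1 *ᵥ x) u = 0 := by
          simp only [Matrix.mulVec, dotProduct]
          refine Finset.sum_eq_zero fun k _ => ?_
          by_cases hk : k ∈ S
          · rw [h1 k hk, mul_zero]
          · rw [z1' u k hk, zero_mul]
        have e2 := mvA u
        rw [hAx' u, e1] at e2
        have e3 : (if u ∈ S then c else 0) * x u = 0 := by
          by_cases hu : u ∈ S
          · rw [h1 u hu, mul_zero]
          · rw [if_neg hu, zero_mul]
        rw [e3] at e2
        linarith

end Pool.Agent.K6.H57.NG
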