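import Pool.Agent.K6.H57.NG.Main
import Pool.Agent.K6.H57.NG.IFT
import Pool.Agent.K6.H57.NG.QLE
import Pool.Agent.K6.H57.NG.SUM
import Pool.Agent.K6.H57.NG.CLI
import Pool.Agent.K6.H57.NG.CLAW
import Pool.Agent.K6.H57.NG.SPL
import Pool.Agent.K6.H57.NG.RAM
import Pool.Agent.K6.H57.NG.PAT
import Pool.Agent.K6.H57.NG.COL
import Pool.Agent.K6.H57.NG.FAM
import Pool.Agent.K6.H57.NG.HOM

set_option autoImplicit false

namespace Pool.Agent.K6.H57.NG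

/-- `q(G) + q(Gᶜ) ≤ |G| + C` for all graphs -/
theorem additive : ∃ C : ℕ, ∀ (V : Type) [Fintype V] [DecidableEq V] (G : SimpleGraph V),
    q G + q Gᶜ ≤ Fintype.card V + C :=
  main t_IFT t_QLE t_CLI t_SUM t_CLAW t_SPL t_RAM t_HOM t_PAT t_COL t_FAM

end Pool.Agent.K6.H57.NG
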