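import Pool.Agent.K6.H57.NG.Stm2

/-!
# Graphs with a complement of bounded degree: the assembly of `S_BDD`
-/

set_option autoImplicit false

namespace Pool.Agent.K6.H57.NG

open Finset Matrix

theorem t_BDD (h1 : S_PRJ) (h2 : S_POS) (h3 : S_CFG) (h4 : S_IND) : S_BDD := by
  classical
  intro D
  obtain ⟨N, u₀, ε, hε, hpos⟩ := h2 (2 * D + 1)
  refine ⟨N * (D + 1), ?_⟩
  intro V _ _ Γ hn hdeg
  obtain ⟨ι, hι, hind⟩ := h4 V Γ D N hdeg hn
  obtain ⟨u, hu, horth⟩ := h3 V Γ D N ι hdeg hι hind u₀ ε hε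
  set S : Finset V := univ.image ι with hS
  set T : Matrix (Fin (2 * D + 1)) (Fin (2 * D + 1)) ℝ :=
    ∑ v ∈ Sᶜ, vecMulVec (u v) (u v) with hT
  have hTs : T.IsSymm := by
    rw [Matrix.IsSymm, hT, Matrix.transpose_sum]
    refine Finset.sum_congr rfl fun v _ => ?_
    ext i j
    simp [vecMulVec_apply, mul_comm]
  obtain ⟨δ, hδ, w, hw, hsum⟩ := hpos (fun i => u (ι i)) hu T hTs
  let w' : V → ℝ := fun v => if h : ∃ i, ι i = v then w h.choose else δ
  have hw'1 : ∀ i, w' (ι i) = w i := by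
    intro i
    have h : ∃ j, ι j = ι i := ⟨i, rfl⟩
    have h2 : h.choose = i := hι h.choose_spec
    simp only [w', dif_pos h, h2]
  have hw'2 : ∀ v, v ∉ S → w' v = δ := by
    intro v hv
    have h : ¬ ∃ i, ι i = v := by
      rintro ⟨i, rfl⟩
      exact hv (Finset.mem_image_of_mem _ (Finset.mem_univ i))
    simp only [w', dif_neg h]
  refine h1 V Γᶜ (2 * D + 1) u w' ?_ ?_ ?_
  · intro v
    by_cases h : ∃ i, ι i = v
    · simp only [w', dif_pos h]
      exact hw _
    · simp only [w', dif_neg h]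
      exact hδ
  · rw [← Finset.sum_add_sum_compl S]
    rw [← hsum]
    congr 1
    · rw [hS, Finset.sum_image (fun a _ b _ h => hι h)]
      refine Finset.sum_congr rfl fun i _ => ?_
      rw [hw'1]
    · rw [hT, Finset.smul_sum]
      refine Finset.sum_congr rfl fun v hv => ?_
      rw [hw'2 v (by simpa using hv)]
  · intro x y hxy
    rw [SimpleGraph.compl_adj, ne_eq, not_congr (horth x y hxy)]
    exact ⟨fun h => ⟨hxy, h⟩, fun h => h.2⟩

end Pool.Agent.K6.H57.NG
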