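import Pool.Agent.K6.H57.NG.Stm2

set_option autoImplicit false

namespace Pool.Agent.K6.H57.NG

open Finset Matrix

theorem t_CFG (h : S_ADD) : S_CFG := by
  classical
  intro V _ _ Γ D N ι hD hι hind u₀ ε hε
  -- first step: the independent vertices
  have step1 : ∀ F : Finset (Fin N), ∃ u : V → Fin (2 * D + 1) → ℝ,
      Good Γ D (F.image ι) u ∧ ∀ i ∈ F, ∀ a, |u (ι i) a - u₀ i a| < ε := by
    intro F
    induction F using Finset.induction_on with
    | empty =>
      refine ⟨fun _ => 0, ⟨by simp, ?_⟩, by simp⟩
      intro K hK _
      have : K = ∅ := by simpa using hK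
      subst this
      simp
    | insert i F hi ih =>
      obtain ⟨u, hu, hu'⟩ := ih
      have hx : ι i ∉ F.image ι := by
        intro h1
        obtain ⟨j, hj, hji⟩ := mem_image.1 h1
        exact hi (hι hji ▸ hj)
      have hO : IsOpen {a : Fin (2 * D + 1) → ℝ | ∀ c, |a c - u₀ i c| < ε} := by
        have : {a : Fin (2 * D + 1) → ℝ | ∀ c, |a c - u₀ i c| < ε} =
            ⋂ c, {a : Fin (2 * D + 1) → ℝ | |a c - u₀ i c| < ε} := by
          ext a; simp
        rw [this]
        refine isOpen_iInter_of_finite fun c => ?_
        exact isOpen_lt (by fun_prop) continuous_const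
      obtain ⟨a, haO, ha⟩ := h V Γ D (F.image ι) u (ι i) ∅ _ hu hx (empty_subset _)
        (by simp) (by
          intro y hy
          obtain ⟨j, hj, rfl⟩ := mem_image.1 hy
          simp [hind i j]) hO ⟨u₀ i, by simp [hε], by simp⟩
      refine ⟨Function.update u (ι i) a, ?_, ?_⟩
      · rw [image_insert]
        exact ha
      · intro j hj c
        by_cases hji : j = i
        · subst hji
          rw [Function.update_self]
          exact haO c
        · have hne : ι j ≠ ι i := fun h2 => hji (hι h2)
          rw [Function.update_of_ne hne]
          exact hu' j ((mem_insert.1 hj).resolve_left hji) c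
  obtain ⟨u₁, hu₁, hu₁'⟩ := step1 univ
  -- second step: the other vertices
  have step2 : ∀ S : Finset V, ∃ u : V → Fin (2 * D + 1) → ℝ,
      Good Γ D (univ.image ι ∪ S) u ∧ ∀ i, ∀ a, |u (ι i) a - u₀ i a| < ε := by
    intro S
    induction S using Finset.induction_on with
    | empty => exact ⟨u₁, by simpa using hu₁, fun i a => hu₁' i (mem_univ i) a⟩
    | insert x S hx ih =>
      obtain ⟨u, hu, hu'⟩ := ih
      by_cases hxι : x ∈ univ.image ι ∪ S
      · refine ⟨u, ?_, hu'⟩
        have : univ.image ι ∪ insert x S = univ.image ι ∪ S := by
          rw [union_insert, insert_eq_of_mem hxι]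
        rw [this]
        exact hu
      · obtain ⟨a, -, ha⟩ := h V Γ D (univ.image ι ∪ S) u x
          ((univ.image ι ∪ S).filter fun y => Γ.Adj x y) Set.univ hu hxι (filter_subset _ _)
          (by
            have h1 : (((univ.image ι ∪ S).filter fun y => Γ.Adj x y : Finset V) : Set V) ⊆
                Γ.neighborSet x := by
              intro y hy
              have := (mem_filter.1 (mem_coe.1 hy)).2
              exact this
            have h2 := Set.ncard_le_ncard h1 (Set.toFinite _)
            rw [Set.ncard_coe_finset] at h2
            exact h2.trans (hD x))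
          (by
            intro y hy
            simp only [mem_filter, hy, true_and])
          isOpen_univ ⟨0, trivial, by simp⟩
        refine ⟨Function.update u x a, ?_, ?_⟩
        · rw [union_insert]
          exact ha
        · intro i c
          have hne : ι i ≠ x := by
            intro h2
            apply hxι
            rw [← h2]
            exact mem_union_left _ (mem_image_of_mem _ (mem_univ i))
          rw [Function.update_of_ne hne]
          exact hu' i c
  obtain ⟨u, hu, hu'⟩ := step2 univ
  refine ⟨u, hu', fun x y hxy => ?_⟩
  exact hu.1 x (mem_union_right _ (mem_univ x)) y (mem_union_right _ (mem_univ y)) hxy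

end Pool.Agent.K6.H57.NG
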