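import Pool.Agent.K6.H57.NG.Stm2

set_option autoImplicit false

namespace Pool.Agent.K6.H57.NG

open Finset Matrix

theorem t_GEN : S_GEN := by
  classical
  intro E _ _ _ P hP O hO hne
  induction P using Finset.induction_on generalizing O with
  | empty =>
    obtain ⟨x, hx⟩ := hne
    exact ⟨x, hx, by simp⟩
  | insert p P hp ih =>
    have hpt : p ≠ ⊤ := hP p (mem_insert_self p P)
    have hcl : IsClosed (p : Set E) := p.closed_of_finiteDimensional
    have hO' : IsOpen (O \ (p : Set E)) := hO.sdiff hcl
    have hne' : (O \ (p : Set E)).Nonempty := by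
      by_contra h
      rw [Set.not_nonempty_iff_eq_empty, Set.sdiff_eq_empty] at h
      apply hpt
      apply Submodule.eq_top_of_nonempty_interior'
      exact (hO.interior_eq ▸ hne).mono (interior_mono h)
    obtain ⟨x, hx, hx'⟩ := ih (fun p' hp' => hP p' (mem_insert_of_mem hp')) _ hO' hne'
    refine ⟨x, hx.1, fun p' hp' => ?_⟩
    rcases mem_insert.1 hp' with rfl | h
    · exact hx.2
    · exact hx' p' h

end Pool.Agent.K6.H57.NG
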