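import Pool.Agent.K6.H57.NG.Stm2

set_option autoImplicit false

namespace Pool.Agent.K6.H57.NG

open Finset Matrix

namespace IND

theorem greedy {V : Type} [Fintype V] [DecidableEq V] (Γ : SimpleGraph V) (D : ℕ)
    (hD : ∀ x, (Γ.neighborSet x).ncard ≤ D) (N : ℕ) :
    ∀ W : Finset V, N * (D + 1) ≤ #W → ∃ s ⊆ W, #s = N ∧ ∀ x ∈ s, ∀ y ∈ s, ¬ Γ.Adj x y := by
  classical
  induction N with
  | zero => exact fun W _ => ⟨∅, by simp, by simp, by simp⟩
  | succ N ih =>
    intro W hW
    have hW0 : 0 < #W := by
      have : 0 < (N + 1) * (D + 1) := by positivity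
      omega
    obtain ⟨x, hx⟩ := card_pos.1 hW0
    set T : Finset V := insert x (Γ.neighborSet x).toFinset with hT
    have hTc : #T ≤ D + 1 := by
      refine (card_insert_le _ _).trans ?_
      have := hD x
      rw [Set.ncard_eq_toFinset_card'] at this
      omega
    have h1 : N * (D + 1) ≤ #(W \ T) := by
      have h2 := le_card_sdiff T W
      have h3 : (N + 1) * (D + 1) = N * (D + 1) + (D + 1) := by ring
      omega
    obtain ⟨s, hs, hsc, hsi⟩ := ih (W \ T) h1
    have hxs : x ∉ s := fun h => by
      have := mem_sdiff.1 (hs h)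
      exact this.2 (mem_insert_self _ _)
    have hnx : ∀ y ∈ s, ¬ Γ.Adj x y := fun y hy hxy => by
      have := mem_sdiff.1 (hs hy)
      exact this.2 (mem_insert_of_mem (by simpa using hxy))
    refine ⟨insert x s, ?_, ?_, ?_⟩
    · intro y hy
      rcases mem_insert.1 hy with rfl | h
      · exact hx
      · exact (mem_sdiff.1 (hs h)).1
    · rw [card_insert_of_notMem hxs, hsc]
    · intro a ha b hb
      rcases mem_insert.1 ha with rfl | ha'
      · rcases mem_insert.1 hb with rfl | hb'
        · exact Γ.loopless.irrefl _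
        · exact hnx b hb'
      · rcases mem_insert.1 hb with rfl | hb'
        · exact fun h => hnx a ha' h.symm
        · exact hsi a ha' b hb'

end IND

theorem t_IND : S_IND := by
  classical
  intro V _ _ Γ D N hD hN
  obtain ⟨s, -, hsc, hsi⟩ := IND.greedy Γ D hD N univ (by simpa using hN)
  let e := s.equivFinOfCardEq hsc
  refine ⟨fun i => (e.symm i : V), ?_, ?_⟩
  · intro i j hij
    exact e.symm.injective (Subtype.ext hij)
  · intro i j
    exact hsi _ (e.symm i).2 _ (e.symm j).2

end Pool.Agent.K6.H57.NG
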