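import Pool.Agent.K6.H57.NG.Stm

/-!
# A Nordhaus–Gaddum bound for the minimum number of distinct eigenvalues: assembly
-/

set_option autoImplicit false

namespace Pool.Agent.K6.H57.NG

open Finset Matrix

namespace Main

variable {V : Type} [Fintype V] [DecidableEq V]

lemma mono {G : SimpleGraph V} {W : Finset V} {t t' : ℕ} (h : Rz G W t) (htt : t ≤ t') :
    Rz G W t' := by
  obtain ⟨A, Λ, h1, h2, h3⟩ := h
  exact ⟨A, Λ, h1, h2.trans htt, h3⟩

lemma singles (hC : S_CLI) (hS : S_SUM) (G : SimpleGraph V) (W : Finset V) : Rz G W #W := by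
  induction W using Finset.induction_on with
  | empty => exact (hC V G).1
  | insert x W hx ih =>
    rw [Finset.insert_eq, Finset.card_union_of_disjoint (Finset.disjoint_singleton_left.2 hx),
      Finset.card_singleton]
    exact hS V G _ _ _ _ ((hC V G).2.1 x) ih (Finset.disjoint_singleton_left.2 hx)

/-- a family of pairwise disjoint parts -/
lemma fam (hC : S_CLI) (hS : S_SUM) (G : SimpleGraph V) {ι : Type} [DecidableEq ι] (I : Finset ι)
    (F : ι → Finset V) (s : ℕ) (hF : ∀ i ∈ I, Rz G (F i) s)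
    (hd : ∀ i ∈ I, ∀ j ∈ I, i ≠ j → Disjoint (F i) (F j)) : Rz G (I.biUnion F) (#I * s) := by
  induction I using Finset.induction_on with
  | empty =>
    rw [Finset.biUnion_empty, Finset.card_empty, zero_mul]
    exact (hC V G).1
  | insert x I hx ih =>
    rw [Finset.biUnion_insert, Finset.card_insert_of_notMem hx, add_mul, one_mul, add_comm]
    refine hS V G _ _ _ _ (hF x (Finset.mem_insert_self _ _))
      (ih (fun i hi => hF i (Finset.mem_insert_of_mem hi))
        (fun i hi j hj => hd i (Finset.mem_insert_of_mem hi) j (Finset.mem_insert_of_mem hj))) ?_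
    rw [Finset.disjoint_biUnion_right]
    intro i hi
    exact hd x (Finset.mem_insert_self _ _) i (Finset.mem_insert_of_mem hi) (by
      rintro rfl; exact hx hi)

lemma fam' (hC : S_CLI) (hS : S_SUM) (G : SimpleGraph V) {ι : Type} [DecidableEq ι] (I : Finset ι)
    (F : ι → Finset V) (s : ℕ) (hF : ∀ i ∈ I, Rz G (F i) s)
    (hd : ∀ i ∈ I, ∀ j ∈ I, i ≠ j → Disjoint (F i) (F j)) (Z : Finset V) (n : ℕ)
    (hZ : ∀ x, x ∈ Z ↔ ∃ i ∈ I, x ∈ F i) (hn : n = #I * s) : Rz G Z n := by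
  have : Z = I.biUnion F := by
    ext x
    rw [Finset.mem_biUnion, hZ]
  rw [this, hn]
  exact fam hC hS G I F s hF hd

/-- `W` has a part whose costs in `G` and in the complement are at most its size. -/
def Red (G : SimpleGraph V) (W : Finset V) : Prop :=
  ∃ U ⊆ W, U.Nonempty ∧ ∃ a b, Rz G U a ∧ Rz Gᶜ U b ∧ a + b ≤ #U

def Fin' (G : SimpleGraph V) (W : Finset V) (C : ℕ) : Prop :=
  ∃ a b, Rz G W a ∧ Rz Gᶜ W b ∧ a + b ≤ #W + C

lemma Red.symm {G : SimpleGraph V} {W : Finset V} (h : Red Gᶜ W) : Red G W := by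
  obtain ⟨U, hU, hne, a, b, ha, hb, hab⟩ := h
  rw [compl_compl] at hb
  exact ⟨U, hU, hne, b, a, hb, ha, by omega⟩

lemma Fin'.symm {G : SimpleGraph V} {W : Finset V} {C : ℕ} (h : Fin' Gᶜ W C) : Fin' G W C := by
  obtain ⟨a, b, ha, hb, hab⟩ := h
  rw [compl_compl] at hb
  exact ⟨b, a, hb, ha, by omega⟩

lemma card_img {n : ℕ} {a : Fin n → V} (ha : Function.Injective a) : #(univ.image a) = n := by
  rw [Finset.card_image_of_injective _ ha, Finset.card_univ, Fintype.card_fin]

/-- a clique and a clique of the complement with all edges in between -/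
lemma red_split (hC : S_CLI) (hS : S_SUM) (hP : S_SPL) (G : SimpleGraph V) (W : Finset V)
    (a b : Fin 4 → V) (ha : Function.Injective a) (hb : Function.Injective b)
    (hab : ∀ i j, a i ≠ b j) (haW : ∀ i, a i ∈ W) (hbW : ∀ i, b i ∈ W)
    (h1 : ∀ i j, i ≠ j → G.Adj (a i) (a j)) (h2 : ∀ i j, i ≠ j → Gᶜ.Adj (b i) (b j))
    (h3 : ∀ i j, G.Adj (a i) (b j)) : Red G W := by
  have hdis : Disjoint (univ.image a) (univ.image b) := by
    rw [Finset.disjoint_left]
    intro x hx hx'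
    obtain ⟨i, _, rfl⟩ := Finset.mem_image.1 hx
    obtain ⟨j, _, hj⟩ := Finset.mem_image.1 hx'
    exact hab i j hj.symm
  refine ⟨univ.image a ∪ univ.image b, ?_, ⟨a 0, ?_⟩, 2, 6, hP V G a b ha hb hab h1 h3, ?_, ?_⟩
  · intro x hx
    rcases Finset.mem_union.1 hx with hx | hx
    · obtain ⟨i, _, rfl⟩ := Finset.mem_image.1 hx
      exact haW i
    · obtain ⟨i, _, rfl⟩ := Finset.mem_image.1 hx
      exact hbW i
  · exact Finset.mem_union_left _ (Finset.mem_image_of_mem _ (Finset.mem_univ _))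
  · refine hS V Gᶜ _ _ 4 2 ?_ ?_ hdis
    · have := singles hC hS Gᶜ (univ.image a)
      rwa [card_img ha] at this
    · refine (hC V Gᶜ).2.2 _ ?_
      intro u hu v hv huv
      obtain ⟨i, _, rfl⟩ := Finset.mem_image.1 hu
      obtain ⟨j, _, rfl⟩ := Finset.mem_image.1 hv
      exact h2 i j (fun h => huv (by rw [h]))
  · rw [Finset.card_union_of_disjoint hdis, card_img ha, card_img hb]

/-- large cliques in `G` and in the complement -/
lemma red_two (hC : S_CLI) (hS : S_SUM) (hP : S_SPL) (hT : S_PAT) (G : SimpleGraph V)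
    (W K L : Finset V) (hKW : K ⊆ W) (hLW : L ⊆ W) (hK : Cl G K) (hL : Cl Gᶜ L)
    (hK' : 8 ≤ #K) (hL' : 211 ≤ #L) : Red G W := by
  obtain ⟨a, b, ha, hb, hab, haK, hbL, h | h⟩ := hT V G K L hK hK' hL hL'
  · exact red_split hC hS hP G W a b ha hb hab (fun i => hKW (haK i)) (fun i => hLW (hbL i))
      (fun i j hij => hK _ (haK i) _ (haK j) (fun h => hij (ha h)))
      (fun i j hij => hL _ (hbL i) _ (hbL j) (fun h => hij (hb h))) h
  · refine Red.symm (red_split hC hS hP Gᶜ W b a hb ha (fun i j => (hab j i).symm)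
      (fun i => hLW (hbL i)) (fun i => hKW (haK i))
      (fun i j hij => hL _ (hbL i) _ (hbL j) (fun h => hij (hb h))) ?_
      (fun i j => (h j i).symm))
    intro i j hij
    rw [compl_compl]
    exact hK _ (haK i) _ (haK j) (fun h => hij (ha h))

/-- many claws in the complement -/
lemma red_claws (hC : S_CLI) (hS : S_SUM) (hW : S_CLAW) (G : SimpleGraph V)
    (W : Finset V) (U : Finset (Fin 4 → V)) (hU : #U = 8) (hcl : ∀ t ∈ U, Claw Gᶜ W t)
    (hd : ∀ t ∈ U, ∀ t' ∈ U, t ≠ t' → ∀ i j, t i ≠ t' j)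
    (hG : ∀ i, ∀ t ∈ U, ∀ t' ∈ U, t ≠ t' → G.Adj (t i) (t' i)) : Red G W := by
  have hd' : ∀ t ∈ U, ∀ t' ∈ U, t ≠ t' → Disjoint (univ.image t) (univ.image t') := by
    intro t ht t' ht' htt
    rw [Finset.disjoint_left]
    intro x hx hx'
    obtain ⟨i, _, rfl⟩ := Finset.mem_image.1 hx
    obtain ⟨j, _, hj⟩ := Finset.mem_image.1 hx'
    exact hd t ht t' ht' htt i j hj.symm
  have h1 : Rz Gᶜ (U.biUnion fun t => univ.image t) 24 := by
    refine fam' hC hS Gᶜ U (fun t => univ.image t) 3 (fun t ht => hW V Gᶜ W t (hcl t ht)) hd'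
      _ _ (fun x => by rw [Finset.mem_biUnion]) (by rw [hU])
  have h2 : Rz G (U.biUnion fun t => univ.image t) 8 := by
    refine fam' hC hS G (univ : Finset (Fin 4)) (fun i => U.image fun t => t i) 2 ?_ ?_ _ _ ?_
      (by rw [Finset.card_univ, Fintype.card_fin])
    · intro i _
      refine (hC V G).2.2 _ ?_
      intro u hu v hv huv
      obtain ⟨t, ht, rfl⟩ := Finset.mem_image.1 hu
      obtain ⟨t', ht', rfl⟩ := Finset.mem_image.1 hv
      exact hG i t ht t' ht' (fun h => huv (by rw [h]))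
    · intro i _ j _ hij
      rw [Finset.disjoint_left]
      intro x hx hx'
      obtain ⟨t, ht, rfl⟩ := Finset.mem_image.1 hx
      obtain ⟨t', ht', h⟩ := Finset.mem_image.1 hx'
      rcases eq_or_ne t t' with rfl | htt
      · exact hij ((hcl t ht).1 h.symm)
      · exact hd t ht t' ht' htt i j h.symm
    · intro x
      simp only [Finset.mem_biUnion, Finset.mem_image, Finset.mem_univ, true_and]
      constructor
      · rintro ⟨t, ht, i, rfl⟩
        exact ⟨i, t, ht, rfl⟩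
      · rintro ⟨i, t, ht, rfl⟩
        exact ⟨t, ht, i, rfl⟩
  have hcard : #(U.biUnion fun t => univ.image t) = 32 := by
    rw [Finset.card_biUnion (fun t ht t' ht' htt => hd' t ht t' ht' htt),
      Finset.sum_congr rfl (fun t ht => card_img (hcl t ht).1), Finset.sum_const, hU,
      smul_eq_mul]
  refine ⟨U.biUnion fun t => univ.image t, ?_, ?_, 8, 24, h2, h1, ?_⟩
  · intro x hx
    obtain ⟨t, ht, hx⟩ := Finset.mem_biUnion.1 hx
    obtain ⟨i, _, rfl⟩ := Finset.mem_image.1 hx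
    exact (hcl t ht).2.1 i
  · rw [← Finset.card_pos, hcard]; norm_num
  · rw [hcard]

/-- few claws in the complement -/
lemma fin_few (hC : S_CLI) (hS : S_SUM) (hL : S_COL) (G : SimpleGraph V) (W S : Finset V) (M : ℕ)
    (hSW : S ⊆ W) (hSM : #S ≤ 4 * M) (hn : ∀ t : Fin 4 → V, ¬ Claw Gᶜ (W \ S) t) :
    Fin' G W (4 * M + 6) := by
  obtain ⟨f, hf⟩ := hL V Gᶜ (W \ S) hn
  have h1 : Rz G ((univ : Finset (Fin 3)).biUnion fun c => (W \ S).filter fun x => f x = c)
      (#(univ : Finset (Fin 3)) * 2) := by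
    refine fam hC hS G univ _ 2 ?_ ?_
    · intro c _
      refine (hC V G).2.2 _ ?_
      intro u hu v hv huv
      rw [Finset.mem_filter] at hu hv
      by_contra hadj
      exact hf u hu.1 v hv.1 (by rw [SimpleGraph.compl_adj]; exact ⟨huv, hadj⟩)
        (hu.2.trans hv.2.symm)
    · intro i _ j _ hij
      rw [Finset.disjoint_left]
      intro x hx hx'
      rw [Finset.mem_filter] at hx hx'
      exact hij (hx.2.symm.trans hx'.2)
  have heq : ((univ : Finset (Fin 3)).biUnion fun c => (W \ S).filter fun x => f x = c) =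
      W \ S := by
    ext x
    simp
  rw [heq] at h1
  have h2 := hS V G _ _ _ _ (singles hC hS G S) h1 Finset.disjoint_sdiff
  rw [Finset.union_sdiff_of_subset hSW] at h2
  refine ⟨_, _, h2, singles hC hS Gᶜ W, ?_⟩
  simp only [Finset.card_univ, Fintype.card_fin]
  omega

lemma step (hC : S_CLI) (hS : S_SUM) (hW : S_CLAW) (hP : S_SPL) (hT : S_PAT) (hL : S_COL)
    (hF : S_FAM) (M : ℕ)
    (hM : ∀ (G : SimpleGraph V)
      (W : Finset V) (T : Finset (Fin 4 → V)), #T = M → (∀ t ∈ T, ∀ i, t i ∈ W) →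
      (∀ t ∈ T, ∀ t' ∈ T, t ≠ t' → ∀ i, t i ≠ t' i) → (∀ K ⊆ W, #K = 211 → ¬ Cl Gᶜ K) →
      ∃ U ⊆ T, #U = 8 ∧ ∀ i, ∀ t ∈ U, ∀ t' ∈ U, t ≠ t' → G.Adj (t i) (t' i))
    (G : SimpleGraph V) (W K : Finset V) (hKW : K ⊆ W) (hK : Cl G K) (hK' : #K = 211) :
    Red G W ∨ Fin' G W (4 * M + 6) := by
  by_cases hcl : ∀ L ⊆ W, #L = 211 → ¬ Cl Gᶜ L
  · rcases hF V Gᶜ W M with ⟨T, hT1, hT2, hT3⟩ | ⟨S, hS1, hS2, hS3⟩
    · left
      obtain ⟨U, hUT, hU8, hU⟩ := hM G W T hT1 (fun t ht i => (hT2 t ht).2.1 i)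
        (fun t ht t' ht' htt i => hT3 t ht t' ht' htt i i) hcl
      exact red_claws hC hS hW G W U hU8 (fun t ht => hT2 t (hUT ht))
        (fun t ht t' ht' => hT3 t (hUT ht) t' (hUT ht')) hU
    · right
      exact fin_few hC hS hL G W S M hS1 hS2 hS3
  · push Not at hcl
    obtain ⟨L, hLW, hL1, hL2⟩ := hcl
    exact Or.inl (red_two hC hS hP hT G W K L hKW hLW hK hL2 (by omega) (by omega))

end Main

open Main in
/-- the costs of every vertex set in `G` and in the complement -/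
theorem cost (hI : S_IFT) (hQ : S_IFT → S_QLE) (hC : S_CLI) (hS : S_SUM) (hW : S_CLAW)
    (hP : S_SPL) (hR : S_RAM) (hH : S_RAM → S_HOM) (hT : S_PAT) (hL : S_COL) (hF : S_FAM) :
    ∃ C : ℕ, ∀ (V : Type) [Fintype V] [DecidableEq V] (G : SimpleGraph V) (W : Finset V),
      Fin' G W C := by
  obtain ⟨N, hN⟩ := hR 211 211
  obtain ⟨M, hM⟩ := hH hR 211
  refine ⟨N + (4 * M + 6), ?_⟩
  intro V _ _ G
  have key : ∀ n : ℕ, ∀ W : Finset V, #W = n → Fin' G W (N + (4 * M + 6)) := by
    intro n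
    induction n using Nat.strong_induction_on with
    | _ n ih =>
      intro W hWn
      rcases Nat.lt_or_ge (#W) N with hlt | hge
      · exact ⟨_, _, singles hC hS G W, singles hC hS Gᶜ W, by omega⟩
      have h : Red G W ∨ Fin' G W (4 * M + 6) := by
        rcases hN V G W hge with ⟨K, hKW, hK1, hK2⟩ | ⟨K, hKW, hK1, hK2⟩
        · exact step hC hS hW hP hT hL hF M (fun G W T => hM V G W T) G W K hKW hK2 hK1
        · rcases step hC hS hW hP hT hL hF M (fun G W T => hM V G W T) Gᶜ W K hKW hK2 hK1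
            with h | h
          · exact Or.inl h.symm
          · exact Or.inr h.symm
      rcases h with h | h
      · obtain ⟨U, hUW, hne, a, b, ha, hb, hab⟩ := h
        have hpos : 0 < #U := Finset.card_pos.2 hne
        have hle : #U ≤ #W := Finset.card_le_card hUW
        have hc : #(W \ U) = #W - #U := Finset.card_sdiff_of_subset hUW
        obtain ⟨a', b', ha', hb', hab'⟩ := ih (#(W \ U)) (by omega) (W \ U) rfl
        have h1 := hS V G _ _ _ _ ha ha' Finset.disjoint_sdiff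
        have h2 := hS V Gᶜ _ _ _ _ hb hb' Finset.disjoint_sdiff
        rw [Finset.union_sdiff_of_subset hUW] at h1 h2
        exact ⟨_, _, h1, h2, by omega⟩
      · obtain ⟨a, b, ha, hb, hab⟩ := h
        exact ⟨a, b, ha, hb, by omega⟩
  exact fun W => key _ W rfl

open Main in
theorem main (hI : S_IFT) (hQ : S_IFT → S_QLE) (hC : S_CLI) (hS : S_SUM) (hW : S_CLAW)
    (hP : S_SPL) (hR : S_RAM) (hH : S_RAM → S_HOM) (hT : S_PAT) (hL : S_COL) (hF : S_FAM) :
    ∃ C : ℕ, ∀ (V : Type) [Fintype V] [DecidableEq V] (G : SimpleGraph V),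
      q G + q Gᶜ ≤ Fintype.card V + C := by
  obtain ⟨C, hCC⟩ := cost hI hQ hC hS hW hP hR hH hT hL hF
  refine ⟨C, fun V _ _ G => ?_⟩
  obtain ⟨a, b, ha, hb, hab⟩ := hCC V G univ
  have h1 := hQ hI V G a ha
  have h2 := hQ hI V Gᶜ b hb
  rw [Finset.card_univ] at hab
  omega

end Pool.Agent.K6.H57.NG
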