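import Pool.Agent.K6.H57.NG.Stm2
import Pool.Agent.K6.H57.NG.Main
import Pool.Agent.K6.H57.NG.HOM

/-!
# `q(G) + q(Gᶜ) ≤ n + 2` for all large `n`: assembly
-/

set_option autoImplicit false

namespace Pool.Agent.K6.H57.NG

open Finset Matrix

namespace Large

open Main

variable {V : Type} [Fintype V] [DecidableEq V]

/-- nine homogeneous members of a large family of claws -/
theorem hom9 (h : S_RAM) : ∀ m : ℕ, ∃ M : ℕ, ∀ (V : Type) [DecidableEq V] (G : SimpleGraph V)
    (W : Finset V) (T : Finset (Fin 4 → V)), #T = M → (∀ t ∈ T, ∀ i, t i ∈ W) →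
    (∀ t ∈ T, ∀ t' ∈ T, t ≠ t' → ∀ i, t i ≠ t' i) → (∀ K ⊆ W, #K = m → ¬ Cl Gᶜ K) →
    ∃ U ⊆ T, #U = 9 ∧ ∀ i, ∀ t ∈ U, ∀ t' ∈ U, t ≠ t' → G.Adj (t i) (t' i) := by
  intro m
  choose r hr using fun s => h s m
  refine ⟨r (r (r (r 9))), ?_⟩
  intro V _ G W T hT hW hinj hno
  obtain ⟨T1, h1, c1, e1⟩ := HOM.step (hr (r (r (r 9)))) V G W T 0 hT.ge (fun t ht => hW t ht 0)
    (fun t ht t' ht' hne => hinj t ht t' ht' hne 0) hno
  obtain ⟨T2, h2, c2, e2⟩ := HOM.step (hr (r (r 9))) V G W T1 1 c1.ge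
    (fun t ht => hW t (h1 ht) 1)
    (fun t ht t' ht' hne => hinj t (h1 ht) t' (h1 ht') hne 1) hno
  obtain ⟨T3, h3, c3, e3⟩ := HOM.step (hr (r 9)) V G W T2 2 c2.ge
    (fun t ht => hW t (h1 (h2 ht)) 2)
    (fun t ht t' ht' hne => hinj t (h1 (h2 ht)) t' (h1 (h2 ht')) hne 2) hno
  obtain ⟨T4, h4, c4, e4⟩ := HOM.step (hr 9) V G W T3 3 c3.ge
    (fun t ht => hW t (h1 (h2 (h3 ht))) 3)
    (fun t ht t' ht' hne => hinj t (h1 (h2 (h3 ht))) t' (h1 (h2 (h3 ht'))) hne 3) hno
  refine ⟨T4, fun t ht => h1 (h2 (h3 (h4 ht))), c4, ?_⟩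
  intro i t ht t' ht' hne
  fin_cases i
  · exact e1 t (h2 (h3 (h4 ht))) t' (h2 (h3 (h4 ht'))) hne
  · exact e2 t (h3 (h4 ht)) t' (h3 (h4 ht')) hne
  · exact e3 t (h4 ht) t' (h4 ht') hne
  · exact e4 t ht t' ht' hne

/-- `W` has a bounded part whose costs in `G` and in the complement are less than its size. -/
def RedS (G : SimpleGraph V) (W : Finset V) : Prop :=
  ∃ U ⊆ W, #U ≤ 36 ∧ ∃ a b, Rz G U a ∧ Rz Gᶜ U b ∧ a + b + 1 ≤ #U

lemma RedS.symm {G : SimpleGraph V} {W : Finset V} (h : RedS Gᶜ W) : RedS G W := by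
  obtain ⟨U, hU, hne, a, b, ha, hb, hab⟩ := h
  rw [compl_compl] at hb
  exact ⟨U, hU, hne, b, a, hb, ha, by omega⟩

/-- a pattern: a clique `A` of `G` and a clique `B` of the complement, joined completely -/
structure Pt (G : SimpleGraph V) (K L A B : Finset V) : Prop where
  hA : A ⊆ K
  hB : B ⊆ L
  cA : #A = 4
  cB : #B = 4
  dis : Disjoint A B
  rz : Rz G (A ∪ B) 2

lemma pat (hP : S_SPL) (hT : S_PAT) (G : SimpleGraph V) (K L : Finset V)
    (hK : Cl G K) (hL : Cl Gᶜ L) (hK' : 8 ≤ #K) (hL' : 211 ≤ #L) :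
    ∃ A B : Finset V, (Pt G K L A B) ∨ (Pt Gᶜ L K B A) := by
  obtain ⟨a, b, ha, hb, hab, haK, hbL, h⟩ := hT V G K L hK hK' hL hL'
  have hdis : Disjoint (univ.image a) (univ.image b) := by
    rw [Finset.disjoint_left]
    intro x hx hx'
    obtain ⟨i, _, rfl⟩ := Finset.mem_image.1 hx
    obtain ⟨j, _, hj⟩ := Finset.mem_image.1 hx'
    exact hab i j hj.symm
  have hAK : univ.image a ⊆ K := by
    intro x hx
    obtain ⟨i, _, rfl⟩ := Finset.mem_image.1 hx
    exact haK i
  have hBL : univ.image b ⊆ L := by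
    intro x hx
    obtain ⟨i, _, rfl⟩ := Finset.mem_image.1 hx
    exact hbL i
  refine ⟨univ.image a, univ.image b, ?_⟩
  rcases h with h | h
  · left
    exact ⟨hAK, hBL, card_img ha, card_img hb, hdis, hP V G a b ha hb hab
      (fun i j hij => hK _ (haK i) _ (haK j) (fun h => hij (ha h))) h⟩
  · right
    exact ⟨hBL, hAK, card_img hb, card_img ha, hdis.symm, hP V Gᶜ b a hb ha
      (fun i j => (hab j i).symm)
      (fun i j hij => hL _ (hbL i) _ (hbL j) (fun h => hij (hb h))) (fun i j => (h j i).symm)⟩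

/-- two disjoint patterns of the same type -/
lemma two_pat (hC : S_CLI) (hS : S_SUM) (G : SimpleGraph V) (W K L A B A' B' : Finset V)
    (hKW : K ⊆ W) (hLW : L ⊆ W) (hL : Cl Gᶜ L) (h1 : Pt G K L A B) (h2 : Pt G K L A' B')
    (hAA : Disjoint A A') (hBB : Disjoint B B') (hAB : Disjoint A B') (hBA : Disjoint B A') :
    RedS G W := by
  have d1 : Disjoint (A ∪ B) (A' ∪ B') := by
    rw [Finset.disjoint_union_left, Finset.disjoint_union_right, Finset.disjoint_union_right]
    exact ⟨⟨hAA, hAB⟩, ⟨hBA, hBB⟩⟩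
  have d2 : Disjoint (A ∪ A') (B ∪ B') := by
    rw [Finset.disjoint_union_left, Finset.disjoint_union_right, Finset.disjoint_union_right]
    exact ⟨⟨h1.dis, hAB⟩, ⟨hBA.symm, h2.dis⟩⟩
  have heq : (A ∪ A') ∪ (B ∪ B') = (A ∪ B) ∪ (A' ∪ B') := by
    ext x; simp only [Finset.mem_union]; tauto
  have r1 : Rz G ((A ∪ B) ∪ (A' ∪ B')) (2 + 2) := hS V G _ _ _ _ h1.rz h2.rz d1
  have cAA : #(A ∪ A') = 8 := by rw [Finset.card_union_of_disjoint hAA, h1.cA, h2.cA]
  have cBB : #(B ∪ B') = 8 := by rw [Finset.card_union_of_disjoint hBB, h1.cB, h2.cB]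
  have r2 : Rz Gᶜ ((A ∪ A') ∪ (B ∪ B')) (8 + 2) := by
    refine hS V Gᶜ _ _ _ _ ?_ ?_ d2
    · have := singles hC hS Gᶜ (A ∪ A')
      rwa [cAA] at this
    · refine (hC V Gᶜ).2.2 _ ?_
      intro u hu v hv huv
      exact hL u (Finset.union_subset h1.hB h2.hB hu) v (Finset.union_subset h1.hB h2.hB hv) huv
  rw [heq] at r2
  have c : #((A ∪ B) ∪ (A' ∪ B')) = 16 := by
    rw [← heq, Finset.card_union_of_disjoint d2, cAA, cBB]
  refine ⟨(A ∪ B) ∪ (A' ∪ B'), ?_, by omega, _, _, r1, r2, by omega⟩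
  exact Finset.union_subset
    (Finset.union_subset (h1.hA.trans hKW) (h1.hB.trans hLW))
    (Finset.union_subset (h2.hA.trans hKW) (h2.hB.trans hLW))

lemma Cl.mono {G : SimpleGraph V} {K K' : Finset V} (h : Cl G K) (hs : K' ⊆ K) : Cl G K' :=
  fun u hu v hv => h u (hs hu) v (hs hv)

lemma Pt.mono {G : SimpleGraph V} {K L K' L' A B : Finset V} (h : Pt G K' L' A B)
    (hK : K' ⊆ K) (hL : L' ⊆ L) : Pt G K L A B :=
  ⟨h.hA.trans hK, h.hB.trans hL, h.cA, h.cB, h.dis, h.rz⟩

/-- large cliques in `G` and in the complement -/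
lemma redS_two (hC : S_CLI) (hS : S_SUM) (hP : S_SPL) (hT : S_PAT) (G : SimpleGraph V)
    (W K L : Finset V) (hKW : K ⊆ W) (hLW : L ⊆ W) (hK : Cl G K) (hL : Cl Gᶜ L)
    (hK' : 24 ≤ #K) (hL' : 227 ≤ #L) : RedS G W := by
  classical
  -- a pattern inside `K \ Z`, `L \ Z` for `Z` with at most 16 elements
  have key : ∀ Z : Finset V, #Z ≤ 16 → ∃ A B : Finset V, Disjoint A Z ∧ Disjoint B Z ∧
      #(A ∪ B) ≤ 8 ∧ ((Pt G K L A B) ∨ (Pt Gᶜ L K B A)) := by
    intro Z hZ
    have c1 : 8 ≤ #(K \ Z) := by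
      have := Finset.le_card_sdiff Z K
      omega
    have c2 : 211 ≤ #(L \ Z) := by
      have := Finset.le_card_sdiff Z L
      omega
    obtain ⟨A, B, h⟩ := pat hP hT G (K \ Z) (L \ Z) (Cl.mono hK Finset.sdiff_subset)
      (Cl.mono hL Finset.sdiff_subset) c1 c2
    have hA : A ⊆ K \ Z := by
      rcases h with h | h
      · exact h.hA
      · exact h.hB
    have hB : B ⊆ L \ Z := by
      rcases h with h | h
      · exact h.hB
      · exact h.hA
    refine ⟨A, B, ?_, ?_, ?_, ?_⟩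
    · exact Finset.disjoint_of_subset_left hA Finset.sdiff_disjoint
    · exact Finset.disjoint_of_subset_left hB Finset.sdiff_disjoint
    · rcases h with h | h
      · have := Finset.card_union_le A B
        rw [h.cA, h.cB] at this
        exact this
      · have := Finset.card_union_le A B
        rw [h.cA, h.cB] at this
        exact this
    · rcases h with h | h
      · exact Or.inl (Pt.mono h Finset.sdiff_subset Finset.sdiff_subset)
      · exact Or.inr (Pt.mono h Finset.sdiff_subset Finset.sdiff_subset)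
  obtain ⟨A1, B1, _, _, c1, h1⟩ := key ∅ (by simp)
  obtain ⟨A2, B2, dA2, dB2, c2, h2⟩ := key (A1 ∪ B1) (by omega)
  obtain ⟨A3, B3, dA3, dB3, _, h3⟩ := key ((A1 ∪ B1) ∪ (A2 ∪ B2)) (by
    have := Finset.card_union_le (A1 ∪ B1) (A2 ∪ B2)
    omega)
  rw [Finset.disjoint_union_right] at dA2 dB2
  rw [Finset.disjoint_union_right, Finset.disjoint_union_right, Finset.disjoint_union_right]
    at dA3 dB3
  have hK2 : Cl Gᶜᶜ K := by rw [compl_compl]; exact hK
  rcases h1 with h1 | h1 <;> rcases h2 with h2 | h2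
  · exact two_pat hC hS G W K L A1 B1 A2 B2 hKW hLW hL h1 h2 dA2.1.symm dB2.2.symm dB2.1.symm
      dA2.2.symm
  · rcases h3 with h3 | h3
    · exact two_pat hC hS G W K L A1 B1 A3 B3 hKW hLW hL h1 h3 dA3.1.1.symm dB3.1.2.symm
        dB3.1.1.symm dA3.1.2.symm
    · exact RedS.symm (two_pat hC hS Gᶜ W L K B2 A2 B3 A3 hLW hKW hK2 h2 h3 dB3.2.2.symm
        dA3.2.1.symm dA3.2.2.symm dB3.2.1.symm)
  · rcases h3 with h3 | h3
    · exact two_pat hC hS G W K L A2 B2 A3 B3 hKW hLW hL h2 h3 dA3.2.1.symm dB3.2.2.symm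
        dB3.2.1.symm dA3.2.2.symm
    · exact RedS.symm (two_pat hC hS Gᶜ W L K B1 A1 B3 A3 hLW hKW hK2 h1 h3 dB3.1.2.symm
        dA3.1.1.symm dA3.1.2.symm dB3.1.1.symm)
  · exact RedS.symm (two_pat hC hS Gᶜ W L K B1 A1 B2 A2 hLW hKW hK2 h1 h2 dB2.2.symm
      dA2.1.symm dA2.2.symm dB2.1.symm)

/-- many claws in the complement -/
lemma redS_claws (hC : S_CLI) (hS : S_SUM) (hW : S_CLAW) (G : SimpleGraph V)
    (W : Finset V) (U : Finset (Fin 4 → V)) (hU : #U = 9) (hcl : ∀ t ∈ U, Claw Gᶜ W t)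
    (hd : ∀ t ∈ U, ∀ t' ∈ U, t ≠ t' → ∀ i j, t i ≠ t' j)
    (hG : ∀ i, ∀ t ∈ U, ∀ t' ∈ U, t ≠ t' → G.Adj (t i) (t' i)) : RedS G W := by
  have hd' : ∀ t ∈ U, ∀ t' ∈ U, t ≠ t' → Disjoint (univ.image t) (univ.image t') := by
    intro t ht t' ht' htt
    rw [Finset.disjoint_left]
    intro x hx hx'
    obtain ⟨i, _, rfl⟩ := Finset.mem_image.1 hx
    obtain ⟨j, _, hj⟩ := Finset.mem_image.1 hx'
    exact hd t ht t' ht' htt i j hj.symm
  have h1 : Rz Gᶜ (U.biUnion fun t => univ.image t) 27 := by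
    refine fam' hC hS Gᶜ U (fun t => univ.image t) 3 (fun t ht => hW V Gᶜ W t (hcl t ht)) hd'
      _ _ (fun x => by rw [Finset.mem_biUnion]) (by rw [hU])
  have h2 : Rz G (U.biUnion fun t => univ.image t) 8 := by
    refine fam' hC hS G (univ : Finset (Fin 4)) (fun i => U.image fun t => t i) 2 ?_ ?_ _ _ ?_
      (by rw [Finset.card_univ, Fintype.card_fin])
    · intro i _
      refine (hC V G).2.2 _ ?_
      intro u hu v hv huv
      obtain ⟨t, ht, rfl⟩ := Finset.mem_image.1 hu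
      obtain ⟨t', ht', rfl⟩ := Finset.mem_image.1 hv
      exact hG i t ht t' ht' (fun h => huv (by rw [h]))
    · intro i _ j _ hij
      rw [Finset.disjoint_left]
      intro x hx hx'
      obtain ⟨t, ht, rfl⟩ := Finset.mem_image.1 hx
      obtain ⟨t', ht', h⟩ := Finset.mem_image.1 hx'
      rcases eq_or_ne t t' with rfl | htt
      · exact hij ((hcl t ht).1 h.symm)
      · exact hd t ht t' ht' htt i j h.symm
    · intro x
      simp only [Finset.mem_biUnion, Finset.mem_image, Finset.mem_univ, true_and]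
      constructor
      · rintro ⟨t, ht, i, rfl⟩
        exact ⟨i, t, ht, rfl⟩
      · rintro ⟨i, t, ht, rfl⟩
        exact ⟨t, ht, i, rfl⟩
  have hcard : #(U.biUnion fun t => univ.image t) = 36 := by
    rw [Finset.card_biUnion (fun t ht t' ht' htt => hd' t ht t' ht' htt),
      Finset.sum_congr rfl (fun t ht => card_img (hcl t ht).1), Finset.sum_const, hU,
      smul_eq_mul]
  refine ⟨U.biUnion fun t => univ.image t, ?_, hcard.le, 8, 27, h2, h1, hcard.ge⟩
  intro x hx
  obtain ⟨t, ht, hx⟩ := Finset.mem_biUnion.1 hx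
  obtain ⟨i, _, rfl⟩ := Finset.mem_image.1 hx
  exact (hcl t ht).2.1 i

/-- no claws outside of a small set, in `G` or in the complement -/
def NoCl (G : SimpleGraph V) (W : Finset V) (s : ℕ) : Prop :=
  ∃ S ⊆ W, #S ≤ s ∧ ((∀ t, ¬ Claw Gᶜ (W \ S) t) ∨ ∀ t, ¬ Claw G (W \ S) t)

lemma NoCl.symm {G : SimpleGraph V} {W : Finset V} {s : ℕ} (h : NoCl Gᶜ W s) : NoCl G W s := by
  obtain ⟨S, h1, h2, h3⟩ := h
  rw [compl_compl] at h3
  exact ⟨S, h1, h2, h3.symm⟩

lemma claimA (hC : S_CLI) (hS : S_SUM) (hW : S_CLAW) (hP : S_SPL) (hR : S_RAM) (hT : S_PAT)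
    (hF : S_FAM) : ∃ s : ℕ, ∀ (V : Type) [Fintype V] [DecidableEq V] (G : SimpleGraph V)
    (W : Finset V), RedS G W ∨ NoCl G W s := by
  obtain ⟨N, hN⟩ := hR 227 227
  obtain ⟨M, hM⟩ := hom9 hR 227
  refine ⟨N + 4 * M, ?_⟩
  intro V _ _ G W
  rcases Nat.lt_or_ge (#W) N with hlt | hge
  · right
    refine ⟨W, subset_rfl, by omega, Or.inl ?_⟩
    intro t ht
    have := ht.2.1 0
    simp at this
  have step : ∀ (G : SimpleGraph V) (K : Finset V), K ⊆ W → Cl G K → #K = 227 →
      RedS G W ∨ NoCl G W (N + 4 * M) := by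
    intro G K hKW hK hK'
    by_cases hcl : ∀ L ⊆ W, #L = 227 → ¬ Cl Gᶜ L
    · rcases hF V Gᶜ W M with ⟨T, hT1, hT2, hT3⟩ | ⟨S, hS1, hS2, hS3⟩
      · left
        obtain ⟨U, hUT, hU8, hU⟩ := hM V G W T hT1 (fun t ht i => (hT2 t ht).2.1 i)
          (fun t ht t' ht' htt i => hT3 t ht t' ht' htt i i) hcl
        exact redS_claws hC hS hW G W U hU8 (fun t ht => hT2 t (hUT ht))
          (fun t ht t' ht' => hT3 t (hUT ht) t' (hUT ht')) hU
      · right
        exact ⟨S, hS1, by omega, Or.inl hS3⟩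
    · push Not at hcl
      obtain ⟨L, hLW, hL1, hL2⟩ := hcl
      exact Or.inl (redS_two hC hS hP hT G W K L hKW hLW hK hL2 (by omega) (by omega))
  rcases hN V G W hge with ⟨K, hKW, hK1, hK2⟩ | ⟨K, hKW, hK1, hK2⟩
  · exact step G K hKW hK2 hK1
  · rcases step Gᶜ K hKW hK2 hK1 with h | h
    · exact Or.inl h.symm
    · exact Or.inr h.symm

/-- `k` disjoint parts with strict inequality, or no claws outside of a bounded set -/
lemma claimB (hS : S_SUM) (hC : S_CLI) (s : ℕ) (hA : ∀ (G : SimpleGraph V)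
    (W : Finset V), RedS G W ∨ NoCl G W s) (G : SimpleGraph V) (k : ℕ) :
    (∃ (U : Finset V) (a b : ℕ), Rz G U a ∧ Rz Gᶜ U b ∧ a + b + k ≤ #U ∧ #U ≤ 36 * k) ∨
      NoCl G univ (s + 36 * k) := by
  induction k with
  | zero =>
    left
    exact ⟨∅, 0, 0, (hC V G).1, (hC V Gᶜ).1, by simp, by simp⟩
  | succ k ih =>
    rcases ih with ⟨U, a, b, ha, hb, hab, hU⟩ | ⟨S, h1, h2, h3⟩
    · rcases hA G (univ \ U) with ⟨U', hU', c', a', b', ha', hb', hab'⟩ | ⟨S, h1, h2, h3⟩
      · left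
        have hd : Disjoint U U' := by
          rw [Finset.disjoint_left]
          intro x hx hx'
          exact (Finset.mem_sdiff.1 (hU' hx')).2 hx
        have hc : #(U ∪ U') = #U + #U' := Finset.card_union_of_disjoint hd
        exact ⟨U ∪ U', a + a', b + b', hS V G _ _ _ _ ha ha' hd, hS V Gᶜ _ _ _ _ hb hb' hd,
          by omega, by omega⟩
      · right
        refine ⟨U ∪ S, Finset.subset_univ _, ?_, ?_⟩
        · have := Finset.card_union_le U S
          omega
        · have : (univ : Finset V) \ (U ∪ S) = (univ \ U) \ S := by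
            ext x; simp [not_or]
          rw [this]
          exact h3
    · right
      exact ⟨S, h1, by omega, h3⟩

end Large

open Large Main in
/-- the conjecture for all large graphs, from the pieces -/
theorem large (hI : S_IFT) (hQ : S_IFT → S_QLE) (hC : S_CLI) (hS : S_SUM) (hW : S_CLAW)
    (hP : S_SPL) (hR : S_RAM) (hH : S_RAM → S_HOM) (hT : S_PAT) (hL : S_COL) (hF : S_FAM)
    (hSt : S_STAR) (hB : S_BDD) :
    ∃ n₀ : ℕ, ∀ (V : Type) [Fintype V] [DecidableEq V] (G : SimpleGraph V),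
      n₀ ≤ Fintype.card V → q G + q Gᶜ ≤ Fintype.card V + 2 := by
  obtain ⟨C, hCC⟩ := cost hI hQ hC hS hW hP hR hH hT hL hF
  obtain ⟨s, hA⟩ := claimA hC hS hW hP hR hT hF
  -- bounded set, degree bound
  set s' := s + 36 * C with hs'
  obtain ⟨n₀, hn₀⟩ := hB (3 * (s' + 6))
  refine ⟨n₀, ?_⟩
  intro V _ _ G hn
  -- the case where the complement has few claws
  have half : ∀ G : SimpleGraph V, (∃ S : Finset V, #S ≤ s' ∧ ∀ t, ¬ Claw Gᶜ (univ \ S) t) →
      q G + q Gᶜ ≤ Fintype.card V + 2 := by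
    intro G ⟨S, hS1, hS2⟩
    have hqn : ∀ G : SimpleGraph V, q G ≤ Fintype.card V := by
      intro G
      have := hQ hI V G _ (singles hC hS G univ)
      rwa [Finset.card_univ] at this
    by_cases hdeg : ∀ x, (Gᶜ.neighborSet x).ncard ≤ 3 * (s' + 6)
    · have h1 := hn₀ V Gᶜ hn hdeg
      rw [compl_compl] at h1
      have h2 := hqn Gᶜ
      omega
    · push Not at hdeg
      obtain ⟨x, hx⟩ := hdeg
      -- the star
      obtain ⟨f, hf⟩ : ∃ f : Fin (s' + 6) × Fin 3 → V, Function.Injective f ∧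
          ∀ p, f p ∈ Gᶜ.neighborSet x := by
        have hfin : (Gᶜ.neighborSet x).Finite := Set.toFinite _
        have hc : Fintype.card (Fin (s' + 6) × Fin 3) ≤ hfin.toFinset.card := by
          rw [← Set.ncard_eq_toFinset_card _ hfin]
          simp only [Fintype.card_prod, Fintype.card_fin]
          omega
        obtain ⟨e⟩ : Nonempty (Fin (s' + 6) × Fin 3 ↪ hfin.toFinset) := by
          rw [Function.Embedding.nonempty_iff_card_le]
          simpa using hc
        refine ⟨fun p => (e p : V), ?_, ?_⟩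
        · intro p p' h
          exact e.injective (Subtype.ext h)
        · intro p
          have := (e p).2
          rwa [Set.Finite.mem_toFinset] at this
      have hadj : ∀ p, Gᶜ.Adj x (f p) := fun p => hf.2 p
      have hne : ∀ p, f p ≠ x := fun p h => (hadj p).ne h.symm
      have r1 := hSt V Gᶜ (s' + 6) x f hf.1 hne hadj
      have hcard : #(insert x (univ.image f)) = 3 * (s' + 6) + 1 := by
        rw [Finset.card_insert_of_notMem, Finset.card_image_of_injective _ hf.1,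
          Finset.card_univ, Fintype.card_prod, Fintype.card_fin, Fintype.card_fin]
        · ring
        · intro hmem
          obtain ⟨p, _, hp⟩ := Finset.mem_image.1 hmem
          exact hne p hp
      have r2 := hS V Gᶜ _ _ _ _ r1 (singles hC hS Gᶜ (univ \ insert x (univ.image f)))
        Finset.disjoint_sdiff
      rw [Finset.union_sdiff_of_subset (Finset.subset_univ _)] at r2
      have h2 := hQ hI V Gᶜ _ r2
      have hc2 : #((univ : Finset V) \ insert x (univ.image f)) =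
          Fintype.card V - (3 * (s' + 6) + 1) := by
        rw [Finset.card_sdiff_of_subset (Finset.subset_univ _), hcard, Finset.card_univ]
      have hle : 3 * (s' + 6) + 1 ≤ Fintype.card V := by
        rw [← hcard, ← Finset.card_univ]
        exact Finset.card_le_card (Finset.subset_univ _)
      -- few cliques in `G`
      obtain ⟨a, ha, hab⟩ : ∃ a, Rz G univ a ∧ a ≤ s' + 6 := by
        obtain ⟨g, hg⟩ := hL V Gᶜ (univ \ S) hS2
        have r3 : Rz G (univ \ S) 6 := by
          refine fam' hC hS G (univ : Finset (Fin 3))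
            (fun c => (univ \ S).filter fun x => g x = c) 2 ?_ ?_ _ _ ?_
            (by rw [Finset.card_univ, Fintype.card_fin])
          · intro c _
            refine (hC V G).2.2 _ ?_
            intro u hu v hv huv
            rw [Finset.mem_filter] at hu hv
            by_contra hadj
            exact hg u hu.1 v hv.1 (by rw [SimpleGraph.compl_adj]; exact ⟨huv, hadj⟩)
              (hu.2.trans hv.2.symm)
          · intro i _ j _ hij
            rw [Finset.disjoint_left]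
            intro x hx hx'
            rw [Finset.mem_filter] at hx hx'
            exact hij (hx.2.symm.trans hx'.2)
          · intro x
            simp
        have r4 := hS V G _ _ _ _ (singles hC hS G S) r3 Finset.disjoint_sdiff
        rw [Finset.union_sdiff_of_subset (Finset.subset_univ _)] at r4
        exact ⟨_, r4, by omega⟩
      have h1 := hQ hI V G _ ha
      omega
  rcases claimB hS hC s (fun G W => hA V G W) G C with ⟨U, a, b, ha, hb, hab, _⟩ | ⟨S, _, h2, h3⟩
  · obtain ⟨a', b', ha', hb', hab'⟩ := hCC V G (univ \ U)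
    have h1 := hS V G _ _ _ _ ha ha' Finset.disjoint_sdiff
    have h2 := hS V Gᶜ _ _ _ _ hb hb' Finset.disjoint_sdiff
    rw [Finset.union_sdiff_of_subset (Finset.subset_univ _)] at h1 h2
    have q1 := hQ hI V G _ h1
    have q2 := hQ hI V Gᶜ _ h2
    have hc : #((univ : Finset V) \ U) = Fintype.card V - #U := by
      rw [Finset.card_sdiff_of_subset (Finset.subset_univ _), Finset.card_univ]
    have hle : #U ≤ Fintype.card V := by
      rw [← Finset.card_univ]
      exact Finset.card_le_card (Finset.subset_univ _)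
    omega
  · rcases h3 with h3 | h3
    · exact half G ⟨S, h2, h3⟩
    · have := half Gᶜ ⟨S, h2, by rw [compl_compl]; exact h3⟩
      rw [compl_compl] at this
      omega

end Pool.Agent.K6.H57.NG
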