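import Pool.Agent.K6.H57.NG.Stm2

/-!
# A robust positive representation of the identity: `S_POS`
-/

set_option autoImplicit false

namespace Pool.Agent.K6.H57.NG

open Finset Matrix

namespace POS

variable {r : ℕ}

abbrev Ix (r : ℕ) := Fin r × Fin r × Bool

noncomputable def sg (s : Bool) : ℝ := if s then 1 else -1

noncomputable def v0 (i : Ix r) (c : Fin r) : ℝ :=
  (if c = i.1 then 1 else 0) + sg i.2.2 * (if c = i.2.1 then 1 else 0)

noncomputable def L (u : Ix r → Fin r → ℝ) (w : Ix r → ℝ) : Matrix (Fin r) (Fin r) ℝ :=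
  ∑ i, w i • vecMulVec (u i) (u i)

noncomputable def R (Y : Matrix (Fin r) (Fin r) ℝ) (i : Ix r) : ℝ := sg i.2.2 * Y i.1 i.2.1 / 4

theorem L_apply (u : Ix r → Fin r → ℝ) (w : Ix r → ℝ) (c d : Fin r) :
    L u w c d = ∑ i, w i * (u i c * u i d) := by
  simp [L, Matrix.sum_apply, vecMulVec_apply]

theorem L_v0_R (Y : Matrix (Fin r) (Fin r) ℝ) (c d : Fin r) :
    L v0 (R Y) c d = (Y c d + Y d c) / 2 := by
  rw [L_apply, Fintype.sum_prod_type]
  have h1 : ∀ a : Fin r, ∑ y : Fin r × Bool, R Y (a, y) * (v0 (a, y) c * v0 (a, y) d) =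
      ∑ b : Fin r, Y a b / 2 * ((if c = a then 1 else 0) * (if d = b then 1 else 0) +
        (if c = b then 1 else 0) * (if d = a then 1 else 0)) := by
    intro a
    rw [Fintype.sum_prod_type]
    refine Finset.sum_congr rfl fun b _ => ?_
    rw [Fintype.sum_bool]
    simp only [R, v0, sg, if_true, Bool.false_eq_true, if_false]
    ring
  rw [Finset.sum_congr rfl fun a _ => h1 a]
  simp only [mul_add, Finset.sum_add_distrib]
  have h2 : ∑ a : Fin r, ∑ b : Fin r, Y a b / 2 *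
      ((if c = a then (1:ℝ) else 0) * (if d = b then 1 else 0)) = Y c d / 2 := by
    rw [Finset.sum_eq_single c, Finset.sum_eq_single d]
    · simp
    · intro b _ hb; simp [hb.symm]
    · simp
    · intro a _ ha; simp [ha.symm]
    · simp
  have h3 : ∑ a : Fin r, ∑ b : Fin r, Y a b / 2 *
      ((if c = b then (1:ℝ) else 0) * (if d = a then 1 else 0)) = Y d c / 2 := by
    rw [Finset.sum_eq_single d, Finset.sum_eq_single c]
    · simp
    · intro b _ hb; simp [hb.symm]
    · simp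
    · intro a _ ha; simp [ha.symm]
    · simp
  rw [h2, h3]; ring

theorem L_v0_const (hr : 0 < r) (c d : Fin r) :
    L v0 (fun _ : Ix r => 1 / (4 * (r : ℝ))) c d = (1 : Matrix (Fin r) (Fin r) ℝ) c d := by
  have hr' : (r : ℝ) ≠ 0 := by exact_mod_cast hr.ne'
  rw [L_apply, Fintype.sum_prod_type]
  have h1 : ∀ a : Fin r, ∑ y : Fin r × Bool, 1 / (4 * (r : ℝ)) * (v0 (a, y) c * v0 (a, y) d) =
      ∑ b : Fin r, 1 / (2 * (r : ℝ)) * ((if c = a then 1 else 0) * (if d = a then 1 else 0) +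
        (if c = b then 1 else 0) * (if d = b then 1 else 0)) := by
    intro a
    rw [Fintype.sum_prod_type]
    refine Finset.sum_congr rfl fun b _ => ?_
    rw [Fintype.sum_bool]
    simp only [v0, sg, if_true, Bool.false_eq_true, if_false]
    field_simp
    ring
  rw [Finset.sum_congr rfl fun a _ => h1 a]
  simp only [← Finset.mul_sum, Finset.sum_add_distrib]
  by_cases hcd : c = d
  · subst hcd
    simp
    field_simp
    norm_num
  · have : ∀ b : Fin r, (if c = b then (1:ℝ) else 0) * (if d = b then 1 else 0) = 0 := by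
      intro b
      by_cases h : c = b
      · subst h; simp [Ne.symm hcd]
      · simp [h]
    simp [this, hcd]

noncomputable def n1 (Y : Matrix (Fin r) (Fin r) ℝ) : ℝ := ∑ c, ∑ d, |Y c d|

theorem n1_nonneg (Y : Matrix (Fin r) (Fin r) ℝ) : 0 ≤ n1 Y :=
  Finset.sum_nonneg fun _ _ => Finset.sum_nonneg fun _ _ => abs_nonneg _

theorem le_n1 (Y : Matrix (Fin r) (Fin r) ℝ) (c d : Fin r) : |Y c d| ≤ n1 Y :=
  (Finset.single_le_sum (f := fun d => |Y c d|) (fun _ _ => abs_nonneg _) (mem_univ d)).trans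
    (Finset.single_le_sum (f := fun c => ∑ d, |Y c d|)
      (fun _ _ => Finset.sum_nonneg fun _ _ => abs_nonneg _) (mem_univ c))

theorem n1_add (Y Z : Matrix (Fin r) (Fin r) ℝ) : n1 (Y + Z) ≤ n1 Y + n1 Z := by
  unfold n1
  rw [← Finset.sum_add_distrib]
  refine Finset.sum_le_sum fun c _ => ?_
  rw [← Finset.sum_add_distrib]
  exact Finset.sum_le_sum fun d _ => abs_add_le _ _

theorem n1_neg (Y : Matrix (Fin r) (Fin r) ℝ) : n1 (-Y) = n1 Y := by
  simp [n1]

theorem n1_smul (δ : ℝ) (hδ : 0 ≤ δ) (Y : Matrix (Fin r) (Fin r) ℝ) : n1 (δ • Y) = δ * n1 Y := by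
  simp [n1, abs_mul, abs_of_nonneg hδ, Finset.mul_sum]

theorem n1_le (Y : Matrix (Fin r) (Fin r) ℝ) (C : ℝ) (h : ∀ c d, |Y c d| ≤ C) :
    n1 Y ≤ (r : ℝ) * ((r : ℝ) * C) := by
  unfold n1
  calc ∑ c, ∑ d, |Y c d| ≤ ∑ _c : Fin r, ∑ _d : Fin r, C :=
        Finset.sum_le_sum fun c _ => Finset.sum_le_sum fun d _ => h c d
    _ = _ := by simp

/-- the perturbation -/
noncomputable def D (u : Ix r → Fin r → ℝ) (w : Ix r → ℝ) : Matrix (Fin r) (Fin r) ℝ :=
  L u w - L v0 w

theorem L_add (u : Ix r → Fin r → ℝ) (w w' : Ix r → ℝ) :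
    L u (fun i => w i + w' i) = L u w + L u w' := by
  simp [L, add_smul, Finset.sum_add_distrib]

theorem L_smul (u : Ix r → Fin r → ℝ) (c : ℝ) (w : Ix r → ℝ) :
    L u (fun i => c * w i) = c • L u w := by
  simp [L, Finset.smul_sum, smul_smul]

theorem R_add (Y Z : Matrix (Fin r) (Fin r) ℝ) : R (Y + Z) = fun i => R Y i + R Z i := by
  ext i; simp [R]; ring

theorem R_smul (c : ℝ) (Y : Matrix (Fin r) (Fin r) ℝ) : R (c • Y) = fun i => c * R Y i := by
  ext i; simp [R]; ring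

theorem D_symm (u : Ix r → Fin r → ℝ) (w : Ix r → ℝ) (c d : Fin r) : D u w c d = D u w d c := by
  simp only [D, Matrix.sub_apply, L_apply]
  congr 1 <;> exact Finset.sum_congr rfl fun i _ => by ring

theorem v0_abs (i : Ix r) (c : Fin r) : |v0 i c| ≤ 2 := by
  unfold v0 sg
  split_ifs <;> norm_num

theorem D_le (u : Ix r → Fin r → ℝ) (ε : ℝ) (hε : 0 < ε) (hε1 : ε ≤ 1)
    (hu : ∀ i a, |u i a - v0 i a| < ε) (w : Ix r → ℝ) (c d : Fin r) :
    |D u w c d| ≤ 5 * ε * ∑ i, |w i| := by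
  simp only [D, Matrix.sub_apply, L_apply]
  rw [← Finset.sum_sub_distrib, Finset.mul_sum]
  refine (Finset.abs_sum_le_sum_abs _ _).trans (Finset.sum_le_sum fun i _ => ?_)
  rw [← mul_sub, abs_mul, mul_comm]
  refine mul_le_mul_of_nonneg_right ?_ (abs_nonneg _)
  have h1 : u i c * u i d - v0 i c * v0 i d =
      (u i c - v0 i c) * (u i d - v0 i d) + (u i c - v0 i c) * v0 i d +
        v0 i c * (u i d - v0 i d) := by ring
  rw [h1]
  have h2 := (hu i c).le
  have h3 := (hu i d).le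
  calc _ ≤ |(u i c - v0 i c) * (u i d - v0 i d)| + |(u i c - v0 i c) * v0 i d| +
        |v0 i c * (u i d - v0 i d)| := abs_add_three _ _ _
    _ ≤ ε * 1 + ε * 2 + 2 * ε := by
        rw [abs_mul, abs_mul, abs_mul]
        refine add_le_add (add_le_add ?_ ?_) ?_
        · exact mul_le_mul h2 (h3.trans hε1) (abs_nonneg _) hε.le
        · exact mul_le_mul h2 (v0_abs i d) (abs_nonneg _) hε.le
        · exact mul_le_mul (v0_abs i c) h3 (abs_nonneg _) (by norm_num)
    _ = 5 * ε := by ring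

theorem n1_D_le (u : Ix r → Fin r → ℝ) (ε : ℝ) (hε : 0 < ε) (hε1 : ε ≤ 1)
    (hu : ∀ i a, |u i a - v0 i a| < ε) (w : Ix r → ℝ) :
    n1 (D u w) ≤ (r : ℝ) * ((r : ℝ) * (5 * ε * ∑ i, |w i|)) :=
  n1_le _ _ fun c d => D_le u ε hε hε1 hu w c d

theorem sum_R (Y : Matrix (Fin r) (Fin r) ℝ) : ∑ i, |R Y i| = n1 Y / 2 := by
  rw [Fintype.sum_prod_type, n1, Finset.sum_div]
  refine Finset.sum_congr rfl fun a _ => ?_
  rw [Fintype.sum_prod_type, Finset.sum_div]
  refine Finset.sum_congr rfl fun b _ => ?_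
  rw [Fintype.sum_bool]
  simp only [R, sg, if_true, Bool.false_eq_true, if_false]
  rw [abs_div, abs_div, abs_mul, abs_mul]
  norm_num
  ring

/-- the linear map `Y ↦ Y + D (R Y)` -/
noncomputable def Phi (u : Ix r → Fin r → ℝ) :
    Matrix (Fin r) (Fin r) ℝ →ₗ[ℝ] Matrix (Fin r) (Fin r) ℝ where
  toFun Y := Y + D u (R Y)
  map_add' Y Z := by
    simp only [D, R_add, L_add]; abel
  map_smul' c Y := by
    simp only [D, R_smul, L_smul, RingHom.id_apply, smul_add, smul_sub]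

theorem main (hr : 0 < r) (u : Ix r → Fin r → ℝ) (ε : ℝ) (hε : ε = 1 / (10 * (r : ℝ) ^ 4))
    (hu : ∀ i a, |u i a - v0 i a| < ε) (T : Matrix (Fin r) (Fin r) ℝ) (hT : T.IsSymm) :
    ∃ δ : ℝ, 0 < δ ∧ ∃ w : Ix r → ℝ, (∀ i, 0 < w i) ∧ L u w + δ • T = 1 := by
  have hr0 : (0 : ℝ) < r := by exact_mod_cast hr
  have hr1 : (1 : ℝ) ≤ r := by exact_mod_cast hr
  have hε0 : 0 < ε := by rw [hε]; positivity
  have hr4 : (1 : ℝ) ≤ (r : ℝ) ^ 4 := one_le_pow₀ hr1
  have hε1 : ε ≤ 1 := by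
    rw [hε, div_le_one (by positivity)]
    linarith
  -- the bound for `D (R Y)`
  have hDR : ∀ Y, n1 (D u (R Y)) ≤ n1 Y / 4 := by
    intro Y
    have h := n1_D_le u ε hε0 hε1 hu (R Y)
    rw [sum_R] at h
    refine h.trans ?_
    have h2 : (r : ℝ) * ((r : ℝ) * (5 * ε * (n1 Y / 2))) = (n1 Y / 4) * (1 / (r : ℝ) ^ 2) := by
      rw [hε]; field_simp; ring
    rw [h2]
    have h3 : 1 / (r : ℝ) ^ 2 ≤ 1 := by
      rw [div_le_one (by positivity)]
      exact one_le_pow₀ hr1
    have h4 : 0 ≤ n1 Y / 4 := by have := n1_nonneg Y; positivity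
    nlinarith
  have hinj : Function.Injective (Phi u) := by
    rw [injective_iff_map_eq_zero]
    intro Y hY
    have h1 : Y = -D u (R Y) := by
      have : Y + D u (R Y) = 0 := hY
      exact eq_neg_of_add_eq_zero_left this
    have h2 : n1 Y ≤ n1 Y / 4 := by
      calc n1 Y = n1 (-D u (R Y)) := by rw [← h1]
        _ = n1 (D u (R Y)) := n1_neg _
        _ ≤ _ := hDR Y
    have h3 : n1 Y = 0 := by have := n1_nonneg Y; linarith
    ext c d
    have h4 := le_n1 Y c d
    rw [h3] at h4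
    simpa using abs_nonpos_iff.mp h4
  have hsurj : Function.Surjective (Phi u) := LinearMap.injective_iff_surjective.mp hinj
  set w0 : Ix r → ℝ := fun _ => 1 / (4 * (r : ℝ)) with hw0
  have hL0 : L v0 w0 = 1 := by
    ext c d
    exact L_v0_const hr c d
  have hw0s : ∑ i, |w0 i| = (r : ℝ) / 2 := by
    have : ∀ i, |w0 i| = 1 / (4 * (r : ℝ)) := fun i => abs_of_pos (by positivity)
    simp only [this, Finset.sum_const, Finset.card_univ, nsmul_eq_mul]
    simp only [Ix, Fintype.card_prod, Fintype.card_fin, Fintype.card_bool]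
    push_cast
    field_simp
    norm_num
  have hDw0 : n1 (D u w0) ≤ 1 / (4 * (r : ℝ)) := by
    have h := n1_D_le u ε hε0 hε1 hu w0
    rw [hw0s] at h
    refine h.trans (le_of_eq ?_)
    rw [hε]; field_simp; norm_num
  set δ : ℝ := 1 / (4 * (r : ℝ) * (n1 T + 1)) with hδ
  have hT0 := n1_nonneg T
  have hδ0 : 0 < δ := by positivity
  have hδT : δ * n1 T < 1 / (4 * (r : ℝ)) := by
    rw [hδ, div_mul_eq_mul_div, one_mul, div_lt_div_iff₀ (by positivity) (by positivity)]
    nlinarith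
  obtain ⟨Y, hY⟩ := hsurj (-(δ • T) - D u w0)
  have hY' : Y + D u (R Y) = -(δ • T) - D u w0 := hY
  have hsymm : ∀ c d, Y c d = Y d c := by
    intro c d
    have h1 := congrFun (congrFun hY' c) d
    have h2 := congrFun (congrFun hY' d) c
    simp only [Matrix.add_apply, Matrix.sub_apply, Matrix.neg_apply, Matrix.smul_apply,
      smul_eq_mul] at h1 h2
    have h3 := D_symm u (R Y) c d
    have h4 := D_symm u w0 c d
    have h5 : T c d = T d c := by
      have := congrFun (congrFun hT d) c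
      simpa [Matrix.transpose_apply] using this
    rw [h3, h4, h5] at h1
    linarith
  have hLR : L v0 (R Y) = Y := by
    ext c d
    rw [L_v0_R, ← hsymm c d]; ring
  have hn : n1 Y < 1 / (r : ℝ) := by
    have h1 : n1 Y ≤ n1 (-(δ • T)) + n1 (-D u w0) + n1 (-D u (R Y)) := by
      have : Y = (-(δ • T) + -D u w0) + -D u (R Y) := by
        rw [← sub_eq_add_neg (-(δ • T)), ← hY']; abel
      calc n1 Y = n1 ((-(δ • T) + -D u w0) + -D u (R Y)) := by rw [← this]
        _ ≤ n1 (-(δ • T) + -D u w0) + n1 (-D u (R Y)) := n1_add _ _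
        _ ≤ _ := by linarith [n1_add (-(δ • T)) (-D u w0)]
    rw [n1_neg, n1_neg, n1_neg, n1_smul δ hδ0.le] at h1
    have h2 := hDR Y
    have h3 : n1 Y < (4 / 3) * (2 * (1 / (4 * (r : ℝ)))) := by linarith
    have h4 : (4 / 3) * (2 * (1 / (4 * (r : ℝ)))) = (2 / 3) * (1 / (r : ℝ)) := by
      ring
    have h5 : 0 < 1 / (r : ℝ) := by positivity
    rw [h4] at h3
    linarith
  refine ⟨δ, hδ0, fun i => w0 i + R Y i, ?_, ?_⟩
  · intro i
    have h1 : |R Y i| ≤ n1 Y / 4 := by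
      obtain ⟨a, b, s⟩ := i
      have h2 : |R Y (a, b, s)| = |Y a b| / 4 := by
        simp only [R, sg]
        rw [abs_div, abs_mul]
        split_ifs <;> norm_num
      rw [h2]
      have := le_n1 Y a b
      linarith
    have h2 : n1 Y / 4 < 1 / (4 * (r : ℝ)) := by
      have h3 : 1 / (4 * (r : ℝ)) = (1 / (r : ℝ)) / 4 := by field_simp
      rw [h3]; linarith
    have h3 := neg_abs_le (R Y i)
    simp only [hw0]
    linarith
  · rw [L_add]
    have h1 : L u w0 = D u w0 + 1 := by simp [D, hL0]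
    have h2 : L u (R Y) = D u (R Y) + Y := by simp [D, hLR]
    rw [h1, h2]
    have : D u w0 + 1 + (D u (R Y) + Y) + δ • T = (Y + D u (R Y)) + D u w0 + δ • T + 1 := by abel
    rw [this, hY']
    abel

end POS

theorem t_POS : S_POS := by
  intro r
  rcases Nat.eq_zero_or_pos r with h0 | hr
  · subst h0
    refine ⟨0, fun i => i.elim0, 1, one_pos, fun u _ T _ => ⟨1, one_pos, fun i => i.elim0,
      fun i => i.elim0, ?_⟩⟩
    ext i
    exact i.elim0
  · let e : POS.Ix r ≃ Fin (Fintype.card (POS.Ix r)) := Fintype.equivFin _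
    have hr0 : (0 : ℝ) < r := by exact_mod_cast hr
    refine ⟨Fintype.card (POS.Ix r), fun i => POS.v0 (e.symm i), 1 / (10 * (r : ℝ) ^ 4),
      by positivity, ?_⟩
    intro u hu T hT
    obtain ⟨δ, hδ, w, hw, h⟩ := POS.main hr (fun i => u (e i)) _ rfl
      (fun i a => by simpa using hu (e i) a) T hT
    refine ⟨δ, hδ, fun i => w (e.symm i), fun i => hw _, ?_⟩
    rw [← h, POS.L, ← Equiv.sum_comp e]
    simp

end Pool.Agent.K6.H57.NG
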