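import Pool.Agent.K6.H57.NG.Stm2

/-!
# Piece `PRJ` of call57b: a Parseval frame gives a projection
(helper35 for helper57)
-/

set_option autoImplicit false

namespace Pool.Agent.K6.H57.NG

open Finset Matrix

namespace PRJ

set_option linter.unusedSectionVars false
set_option linter.unusedSimpArgs false

variable {V : Type} [Fintype V] [DecidableEq V] {r : ℕ}

/-- the projection -/
noncomputable def P (u : V → Fin r → ℝ) (w : V → ℝ) : Matrix V V ℝ :=
  Matrix.of fun x y => Real.sqrt (w x) * Real.sqrt (w y) * (u x ⬝ᵥ u y)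

theorem P_apply (u : V → Fin r → ℝ) (w : V → ℝ) (x y : V) :
    P u w x y = Real.sqrt (w x) * Real.sqrt (w y) * (u x ⬝ᵥ u y) := rfl

theorem P_symm (u : V → Fin r → ℝ) (w : V → ℝ) : (P u w).IsSymm := by
  refine Matrix.IsSymm.ext fun x y => ?_
  rw [P_apply, P_apply, dotProduct_comm]
  ring

theorem P_idem (u : V → Fin r → ℝ) (w : V → ℝ) (hw : ∀ v, 0 < w v)
    (h : ∑ v, w v • vecMulVec (u v) (u v) = (1 : Matrix (Fin r) (Fin r) ℝ)) :
    P u w * P u w = P u w := by
  ext x y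
  rw [Matrix.mul_apply, P_apply]
  have h1 : ∀ a b : Fin r → ℝ, ∑ z, w z * ((a ⬝ᵥ u z) * (u z ⬝ᵥ b)) = a ⬝ᵥ b := by
    intro a b
    have h2 : a ⬝ᵥ ((∑ v, w v • vecMulVec (u v) (u v)) *ᵥ b) = a ⬝ᵥ b := by
      rw [h, Matrix.one_mulVec]
    rw [← h2, Matrix.sum_mulVec, dotProduct_sum]
    refine Finset.sum_congr rfl fun z _ => ?_
    rw [Matrix.smul_mulVec, dotProduct_smul, smul_eq_mul]
    congr 1
    rw [vecMulVec_mulVec, dotProduct_smul]
    simp [mul_comm]
  rw [← h1 (u x) (u y), Finset.mul_sum]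
  refine Finset.sum_congr rfl fun z _ => ?_
  rw [P_apply, P_apply]
  have h3 : Real.sqrt (w z) * Real.sqrt (w z) = w z := Real.mul_self_sqrt (hw z).le
  calc _ = (Real.sqrt (w z) * Real.sqrt (w z)) *
        (Real.sqrt (w x) * Real.sqrt (w y) * ((u x ⬝ᵥ u z) * (u z ⬝ᵥ u y))) := by ring
    _ = _ := by rw [h3]; ring

end PRJ

theorem t_PRJ : S_PRJ := by
  intro V _ _ G r u w hw h hpat
  have hid : IsIdempotentElem (PRJ.P u w) := PRJ.P_idem u w hw h
  have hsub : spectrum ℝ (PRJ.P u w) ⊆ {0, 1} := hid.spectrum_subset ℝ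
  have hfin : ({0, 1} : Set ℝ).Finite := by simp
  have hcard : (spectrum ℝ (PRJ.P u w)).ncard ≤ 2 :=
    (Set.ncard_le_ncard hsub hfin).trans (by
      rw [Set.ncard_pair (by norm_num)])
  refine le_trans (Nat.sInf_le ?_) hcard
  refine ⟨PRJ.P u w, PRJ.P_symm u w, ?_, rfl⟩
  intro i j hij
  rw [PRJ.P_apply, ← hpat i j hij]
  have h1 := Real.sqrt_pos.2 (hw i)
  have h2 := Real.sqrt_pos.2 (hw j)
  constructor
  · intro hne h0
    exact hne (by rw [h0, mul_zero])
  · intro hne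
    exact mul_ne_zero (mul_ne_zero h1.ne' h2.ne') hne

end Pool.Agent.K6.H57.NG
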