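import Pool.Agent.K6.H57.NG.Stm2

/-!
# Piece `STAR` of call57b: a star with `3 r` leaves
(helper35 for helper57)
-/

set_option autoImplicit false
set_option linter.unusedSectionVars false
set_option linter.unusedSimpArgs false

namespace Pool.Agent.K6.H57.NG

open Finset Matrix

namespace STAR

variable {V : Type} [Fintype V] [DecidableEq V] {r : ℕ}

/-- the diagonal values -/
noncomputable def d (l : Fin r × Fin 3 → V) (v : V) : ℝ := ∑ p, if l p = v then ((p.1 : ℕ) : ℝ) else 0

/-- the indicator function of the leaves -/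
noncomputable def e (l : Fin r × Fin 3 → V) (v : V) : ℝ := ∑ p, if l p = v then (1 : ℝ) else 0

theorem d_leaf {l : Fin r × Fin 3 → V} (hl : Function.Injective l) (p : Fin r × Fin 3) :
    d l (l p) = ((p.1 : ℕ) : ℝ) := by
  unfold d
  rw [Finset.sum_eq_single p]
  · simp
  · intro b _ hb
    rw [if_neg (fun h => hb (hl h))]
  · simp

theorem e_leaf {l : Fin r × Fin 3 → V} (hl : Function.Injective l) (p : Fin r × Fin 3) :
    e l (l p) = 1 := by
  unfold e
  rw [Finset.sum_eq_single p]
  · simp
  · intro b _ hb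
    rw [if_neg (fun h => hb (hl h))]
  · simp

theorem d_off {l : Fin r × Fin 3 → V} {v : V} (h : d l v ≠ 0) : ∃ p, l p = v := by
  by_contra h'
  push Not at h'
  apply h
  unfold d
  exact Finset.sum_eq_zero fun p _ => if_neg (h' p)

theorem e_off {l : Fin r × Fin 3 → V} {v : V} (h : e l v ≠ 0) : ∃ p, l p = v := by
  by_contra h'
  push Not at h'
  apply h
  unfold e
  exact Finset.sum_eq_zero fun p _ => if_neg (h' p)

/-- the matrix -/
noncomputable def A (c : V) (l : Fin r × Fin 3 → V) : Matrix V V ℝ :=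
  Matrix.of fun u v => (if u = v then d l u else 0) + (if u = c then e l v else 0) +
    (if v = c then e l u else 0)

theorem A_apply (c : V) (l : Fin r × Fin 3 → V) (u v : V) :
    A c l u v = (if u = v then d l u else 0) + (if u = c then e l v else 0) +
    (if v = c then e l u else 0) := rfl

theorem A_symm (c : V) (l : Fin r × Fin 3 → V) (u v : V) : A c l u v = A c l v u := by
  rw [A_apply, A_apply]
  by_cases h : u = v
  · subst h; rfl
  · rw [if_neg h, if_neg (Ne.symm h)]
    ring

theorem sum_e (l : Fin r × Fin 3 → V) (y : V → ℝ) : ∑ v, e l v * y v = ∑ p, y (l p) := by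
  unfold e
  simp only [Finset.sum_mul]
  rw [Finset.sum_comm]
  refine Finset.sum_congr rfl fun p _ => ?_
  simp

theorem sum_A (c : V) (l : Fin r × Fin 3 → V) (y : V → ℝ) (u : V) :
    ∑ v, A c l u v * y v = d l u * y u + (if u = c then ∑ p, y (l p) else 0) + e l u * y c := by
  simp only [A_apply, add_mul, Finset.sum_add_distrib]
  congr 1
  · congr 1
    · simp
    · by_cases h : u = c
      · simp only [if_pos h]
        exact sum_e l y
      · simp [h]
  · simp

/-- the characteristic polynomial of the quotient -/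
noncomputable def f (r : ℕ) : Polynomial ℝ :=
  Polynomial.X * ∏ k : Fin r, (Polynomial.X - Polynomial.C ((k : ℕ) : ℝ)) -
    Polynomial.C 3 * ∑ k : Fin r, ∏ j ∈ univ.erase k, (Polynomial.X - Polynomial.C ((j : ℕ) : ℝ))

theorem f_monic (r : ℕ) : (f r).Monic ∧ (f r).natDegree ≤ r + 1 := by
  have hF : (∏ k : Fin r, (Polynomial.X - Polynomial.C ((k : ℕ) : ℝ))).Monic :=
    Polynomial.monic_prod_of_monic _ _ fun k _ => Polynomial.monic_X_sub_C _
  have hFd : (∏ k : Fin r, (Polynomial.X - Polynomial.C ((k : ℕ) : ℝ))).natDegree = r := by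
    rw [Polynomial.natDegree_prod_of_monic _ _ fun k _ => Polynomial.monic_X_sub_C _]
    simp only [Polynomial.natDegree_X_sub_C]
    simp
  have hXF : (Polynomial.X * ∏ k : Fin r, (Polynomial.X - Polynomial.C ((k : ℕ) : ℝ))).Monic :=
    Polynomial.monic_X.mul hF
  have hXFd : (Polynomial.X * ∏ k : Fin r,
      (Polynomial.X - Polynomial.C ((k : ℕ) : ℝ))).natDegree = r + 1 := by
    rw [Polynomial.monic_X.natDegree_mul hF, hFd, Polynomial.natDegree_X]
    ring
  have hS : (∑ k : Fin r, ∏ j ∈ univ.erase k,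
      (Polynomial.X - Polynomial.C ((j : ℕ) : ℝ))).natDegree ≤ r := by
    refine Polynomial.natDegree_sum_le_of_forall_le _ _ fun k _ => ?_
    refine (Polynomial.natDegree_prod_le _ _).trans ?_
    simp only [Polynomial.natDegree_X_sub_C]
    simp
  have hS' : (Polynomial.C 3 * ∑ k : Fin r, ∏ j ∈ univ.erase k,
      (Polynomial.X - Polynomial.C ((j : ℕ) : ℝ))).natDegree ≤ r :=
    (Polynomial.natDegree_C_mul_le _ _).trans hS
  have hlt : (Polynomial.C 3 * ∑ k : Fin r, ∏ j ∈ univ.erase k,
      (Polynomial.X - Polynomial.C ((j : ℕ) : ℝ))).degree <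
      (Polynomial.X * ∏ k : Fin r, (Polynomial.X - Polynomial.C ((k : ℕ) : ℝ))).degree := by
    refine Polynomial.degree_lt_degree ?_
    rw [hXFd]
    omega
  refine ⟨hXF.sub_of_left hlt, ?_⟩
  refine (Polynomial.natDegree_sub_le _ _).trans ?_
  rw [hXFd]
  omega

end STAR

open STAR in
theorem t_STAR : S_STAR := by
  intro V _ _ G r c l hl hc hadj
  have hdc : d l c = 0 := by
    by_contra h
    obtain ⟨p, hp⟩ := d_off h
    exact hc p hp
  have hec : e l c = 0 := by
    by_contra h
    obtain ⟨p, hp⟩ := e_off h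
    exact hc p hp
  have hrow_leaf : ∀ (y : V → ℝ) (p : Fin r × Fin 3),
      ∑ v, A c l (l p) v * y v = ((p.1 : ℕ) : ℝ) * y (l p) + y c := by
    intro y p
    rw [sum_A, d_leaf hl, e_leaf hl, if_neg (hc p)]
    ring
  have hrow_c : ∀ (y : V → ℝ), ∑ v, A c l c v * y v = ∑ p, y (l p) := by
    intro y
    rw [sum_A, hdc, hec, if_pos rfl]
    ring
  have hoff : ∀ u v, A c l u v ≠ 0 → u ≠ v →
      (u = c ∧ ∃ p, l p = v) ∨ (v = c ∧ ∃ p, l p = u) := by
    intro u v h huv
    rw [A_apply, if_neg huv, zero_add] at h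
    by_cases h1 : u = c
    · by_cases h2 : v = c
      · exact absurd (h1.trans h2.symm) huv
      · rw [if_pos h1, if_neg h2, add_zero] at h
        exact Or.inl ⟨h1, e_off h⟩
    · by_cases h2 : v = c
      · rw [if_neg h1, if_pos h2, zero_add] at h
        exact Or.inr ⟨h2, e_off h⟩
      · rw [if_neg h1, if_neg h2] at h
        exact absurd (by ring) h
  have hmem : ∀ p, l p ∈ insert c (univ.image l) := fun p =>
    Finset.mem_insert_of_mem (Finset.mem_image_of_mem _ (Finset.mem_univ p))
  have hcm : c ∈ insert c (univ.image l) := Finset.mem_insert_self _ _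
  refine ⟨A c l, (univ.image fun k : Fin r => ((k : ℕ) : ℝ)) ∪ (f r).roots.toFinset,
    ?_, ?_, ?_, ?_, ?_, ?_⟩
  · exact Matrix.IsSymm.ext fun u v => A_symm c l v u
  · refine (Finset.card_union_le _ _).trans ?_
    have h1 : #(univ.image fun k : Fin r => ((k : ℕ) : ℝ)) ≤ r :=
      Finset.card_image_le.trans (by simp)
    have h2 : #(f r).roots.toFinset ≤ r + 1 :=
      (Multiset.toFinset_card_le _).trans ((Polynomial.card_roots' _).trans (f_monic r).2)
    omega
  · intro u v h
    by_cases huv : u = v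
    · subst huv
      by_cases huc : u = c
      · subst huc
        exact ⟨hcm, hcm⟩
      · rw [A_apply, if_pos rfl, if_neg huc, add_zero, add_zero] at h
        obtain ⟨p, hp⟩ := d_off h
        rw [← hp]
        exact ⟨hmem p, hmem p⟩
    · rcases hoff u v h huv with ⟨h1, p, hp⟩ | ⟨h1, p, hp⟩
      · rw [h1, ← hp]
        exact ⟨hcm, hmem p⟩
      · rw [h1, ← hp]
        exact ⟨hmem p, hcm⟩
  · intro u v huv h
    rcases hoff u v h huv with ⟨h1, p, hp⟩ | ⟨h1, p, hp⟩
    · rw [h1, ← hp]
      exact hadj p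
    · rw [h1, ← hp]
      exact (hadj p).symm
  · intro X hXs hXW hXd hXA hcomm
    have hXs' : ∀ u v, X u v = X v u := fun u v => hXs.apply v u
    have hAcl : ∀ p, A c l c (l p) = 1 := by
      intro p
      rw [A_apply, if_neg (hc p).symm, if_pos rfl, if_neg (hc p), e_leaf hl]
      ring
    have hXc : ∀ p, X c (l p) = 0 := fun p =>
      hXA c (l p) (hc p).symm (by rw [hAcl p]; norm_num)
    have hentry : ∀ u v, ∑ w, A c l u w * X w v = ∑ w, A c l v w * X w u := by
      intro u v
      have h1 := congrFun (congrFun hcomm u) v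
      rw [Matrix.mul_apply, Matrix.mul_apply] at h1
      rw [h1]
      refine Finset.sum_congr rfl fun w _ => ?_
      rw [hXs' u w, A_symm c l w v]
      ring
    have h1 : ∀ p q : Fin r × Fin 3, p.1 ≠ q.1 → X (l p) (l q) = 0 := by
      intro p q hpq
      have h2 := hentry (l p) (l q)
      rw [hrow_leaf (fun w => X w (l q)) p, hrow_leaf (fun w => X w (l p)) q] at h2
      simp only [hXc] at h2
      rw [hXs' (l q) (l p)] at h2
      have h3 : (((p.1 : ℕ) : ℝ) - ((q.1 : ℕ) : ℝ)) * X (l p) (l q) = 0 := by linarith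
      rcases mul_eq_zero.1 h3 with h4 | h4
      · exfalso
        apply hpq
        have h5 : ((p.1 : ℕ) : ℝ) = ((q.1 : ℕ) : ℝ) := by linarith
        exact Fin.ext (by exact_mod_cast h5)
      · exact h4
    have h2 : ∀ q : Fin r × Fin 3, ∑ p, X (l p) (l q) = 0 := by
      intro q
      have h3 := hentry c (l q)
      rw [hrow_c (fun w => X w (l q)), hrow_leaf (fun w => X w c) q] at h3
      rw [h3, hXs' (l q) c, hXc q, hXd c]
      ring
    have h3 : ∀ (k : Fin r) (j : Fin 3), ∑ i, X (l (k, i)) (l (k, j)) = 0 := by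
      intro k j
      have h4 := h2 (k, j)
      rw [Fintype.sum_prod_type] at h4
      rw [Finset.sum_eq_single k] at h4
      · exact h4
      · intro b _ hb
        exact Finset.sum_eq_zero fun i _ => h1 (b, i) (k, j) hb
      · simp
    have h4 : ∀ (k : Fin r) (i j : Fin 3), X (l (k, i)) (l (k, j)) = 0 := by
      intro k i j
      have e0 := h3 k 0
      have e1 := h3 k 1
      have e2 := h3 k 2
      rw [Fin.sum_univ_three] at e0 e1 e2
      have d0 := hXd (l (k, 0))
      have d1 := hXd (l (k, 1))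
      have d2 := hXd (l (k, 2))
      have s01 := hXs' (l (k, 0)) (l (k, 1))
      have s02 := hXs' (l (k, 0)) (l (k, 2))
      have s12 := hXs' (l (k, 1)) (l (k, 2))
      fin_cases i <;> fin_cases j <;> simp only [Fin.zero_eta, Fin.mk_one, Fin.reduceFinMk,
        Fin.isValue] <;> linarith
    ext u v
    by_contra h
    have h5 := hXW u v h
    have hcase : ∀ w ∈ insert c (univ.image l), w = c ∨ ∃ p, l p = w := by
      intro w hw
      rcases Finset.mem_insert.1 hw with hw | hw
      · exact Or.inl hw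
      · obtain ⟨p, _, hp⟩ := Finset.mem_image.1 hw
        exact Or.inr ⟨p, hp⟩
    apply h
    rcases hcase u h5.1 with hu | ⟨p, hp⟩
    · rcases hcase v h5.2 with hv | ⟨q, hq⟩
      · rw [hu, hv]; exact hXd c
      · rw [hu, ← hq]; exact hXc q
    · rcases hcase v h5.2 with hv | ⟨q, hq⟩
      · rw [hv, ← hp, hXs']; exact hXc p
      · rw [← hp, ← hq]
        by_cases hpq : p.1 = q.1
        · obtain ⟨k, i⟩ := p
          obtain ⟨k', j⟩ := q
          simp only at hpq
          subst hpq
          exact h4 k i j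
        · exact h1 p q hpq
  · intro μ x hxW hx0 hAx
    have hleaf : ∀ p : Fin r × Fin 3, ((p.1 : ℕ) : ℝ) * x (l p) + x c = μ * x (l p) := by
      intro p
      have h1 := congrFun hAx (l p)
      simp only [Matrix.mulVec, dotProduct, Pi.smul_apply, smul_eq_mul] at h1
      rw [← h1, hrow_leaf]
    have hcen : ∑ p, x (l p) = μ * x c := by
      have h1 := congrFun hAx c
      simp only [Matrix.mulVec, dotProduct, Pi.smul_apply, smul_eq_mul] at h1
      rw [← h1, hrow_c]
    rw [Finset.mem_union]
    by_cases hμ : ∃ k : Fin r, ((k : ℕ) : ℝ) = μ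
    · obtain ⟨k, hk⟩ := hμ
      exact Or.inl (Finset.mem_image.2 ⟨k, Finset.mem_univ _, hk⟩)
    · push Not at hμ
      right
      have hxc : x c ≠ 0 := by
        intro h0
        apply hx0
        ext u
        by_contra hu
        rcases Finset.mem_insert.1 (hxW u hu) with h1 | h1
        · rw [h1] at hu
          exact hu h0
        · obtain ⟨p, _, hp⟩ := Finset.mem_image.1 h1
          have h2 := hleaf p
          rw [h0, add_zero, hp] at h2
          exact hμ p.1 (mul_right_cancel₀ hu h2)
      have hne : ∀ k : Fin r, μ - ((k : ℕ) : ℝ) ≠ 0 := fun k h => hμ k (by linarith)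
      have hxl : ∀ p : Fin r × Fin 3, x (l p) = x c / (μ - ((p.1 : ℕ) : ℝ)) := by
        intro p
        rw [eq_div_iff (hne p.1)]
        have := hleaf p
        linarith
      have hsum : ∑ k : Fin r, 3 * (1 / (μ - ((k : ℕ) : ℝ))) = μ := by
        have h1 : ∑ p : Fin r × Fin 3, x (l p) = x c * ∑ k : Fin r, 3 * (1 / (μ - ((k : ℕ) : ℝ))) := by
          rw [Fintype.sum_prod_type, Finset.mul_sum]
          refine Finset.sum_congr rfl fun k _ => ?_
          simp only [hxl]
          rw [Finset.sum_const, Finset.card_univ, Fintype.card_fin, nsmul_eq_mul]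
          push_cast
          ring
        rw [h1] at hcen
        have h2 : x c * ∑ k : Fin r, 3 * (1 / (μ - ((k : ℕ) : ℝ))) = x c * μ := by
          rw [hcen]; ring
        exact mul_left_cancel₀ hxc h2
      rw [Multiset.mem_toFinset, Polynomial.mem_roots (f_monic r).1.ne_zero, Polynomial.IsRoot.def]
      unfold f
      rw [Polynomial.eval_sub, Polynomial.eval_mul, Polynomial.eval_mul, Polynomial.eval_X,
        Polynomial.eval_C, Polynomial.eval_prod, Polynomial.eval_finsetSum]
      simp only [Polynomial.eval_prod, Polynomial.eval_sub, Polynomial.eval_X, Polynomial.eval_C]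
      have h3 : ∀ k : Fin r, ∏ j ∈ univ.erase k, (μ - ((j : ℕ) : ℝ)) =
          (∏ j : Fin r, (μ - ((j : ℕ) : ℝ))) * (1 / (μ - ((k : ℕ) : ℝ))) := by
        intro k
        rw [← Finset.mul_prod_erase univ (fun j : Fin r => μ - ((j : ℕ) : ℝ)) (Finset.mem_univ k)]
        field_simp [hne k]
      simp only [h3]
      rw [← Finset.mul_sum]
      rw [← Finset.mul_sum] at hsum
      have h4 : μ * ∏ j : Fin r, (μ - ((j : ℕ) : ℝ)) -
          3 * ((∏ j : Fin r, (μ - ((j : ℕ) : ℝ))) * ∑ k : Fin r, 1 / (μ - ((k : ℕ) : ℝ))) =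
          (∏ j : Fin r, (μ - ((j : ℕ) : ℝ))) *
            (μ - 3 * ∑ k : Fin r, 1 / (μ - ((k : ℕ) : ℝ))) := by ring
      rw [h4, hsum]
      ring

end Pool.Agent.K6.H57.NG
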