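import Pool.Agent.K6.H57.NG.All
import Pool.Agent.K6.H57.NG.Large
import Pool.Agent.K6.H57.NG.GEN
import Pool.Agent.K6.H57.NG.ADD
import Pool.Agent.K6.H57.NG.CFG
import Pool.Agent.K6.H57.NG.IND
import Pool.Agent.K6.H57.NG.BDD
import Pool.Agent.K6.H57.NG.POS
import Pool.Agent.K6.H57.NG.STAR
import Pool.Agent.K6.H57.NG.PRJ

set_option autoImplicit false

namespace Pool.Agent.K6.H57.NG

/-- graphs whose complement has bounded degree -/
theorem bounded : S_BDD := t_BDD t_PRJ t_POS (t_CFG (t_ADD t_GEN)) t_IND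

/-- `q(G) + q(Gᶜ) ≤ |G| + 2` for all large graphs -/
theorem all_large : ∃ n₀ : ℕ, ∀ (V : Type) [Fintype V] [DecidableEq V] (G : SimpleGraph V),
    n₀ ≤ Fintype.card V → q G + q Gᶜ ≤ Fintype.card V + 2 :=
  large t_IFT t_QLE t_CLI t_SUM t_CLAW t_SPL t_RAM t_HOM t_PAT t_COL t_FAM t_STAR bounded

end Pool.Agent.K6.H57.NG
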