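import Mathlib

/-!
# A Nordhaus–Gaddum bound for the minimum number of distinct eigenvalues: definitions, statements

`q(G) + q(Gᶜ) ≤ |G| + C`.  Matrices are realised block by block (cliques, single vertices, claws,
complete split graphs with `4 + 4` vertices), each block with the strong spectral property; the
inverse function theorem then gives a matrix with the same spectrum and the exact pattern `G`.
-/

set_option autoImplicit false

namespace Pool.Agent.K6.H57.NG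

open Finset Matrix

/-- `q(G)`: the least number of distinct eigenvalues of a real symmetric matrix whose off-diagonal
nonzero pattern is exactly the edge set of `G`. -/
noncomputable def q {V : Type} [Fintype V] [DecidableEq V] (G : SimpleGraph V) : ℕ :=
  sInf {k : ℕ | ∃ A : Matrix V V ℝ, A.IsSymm ∧
    (∀ i j : V, i ≠ j → (A i j ≠ 0 ↔ G.Adj i j)) ∧ (spectrum ℝ A).ncard = k}

/-- There is a symmetric matrix, zero outside of `W × W`, with off-diagonal entries nonzero only at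
edges of `G`, which has the strong spectral property on `W` and at most `t` eigenvalues on `W`. -/
def Rz {V : Type} [Fintype V] [DecidableEq V] (G : SimpleGraph V) (W : Finset V) (t : ℕ) : Prop :=
  ∃ (A : Matrix V V ℝ) (Λ : Finset ℝ), A.IsSymm ∧ Λ.card ≤ t ∧
    (∀ u v, A u v ≠ 0 → u ∈ W ∧ v ∈ W) ∧
    (∀ u v, u ≠ v → A u v ≠ 0 → G.Adj u v) ∧
    (∀ X : Matrix V V ℝ, X.IsSymm → (∀ u v, X u v ≠ 0 → u ∈ W ∧ v ∈ W) → (∀ u, X u u = 0) →
      (∀ u v, u ≠ v → A u v ≠ 0 → X u v = 0) → A * X = X * A → X = 0) ∧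
    (∀ (μ : ℝ) (x : V → ℝ), (∀ u, x u ≠ 0 → u ∈ W) → x ≠ 0 → A *ᵥ x = μ • x → μ ∈ Λ)

/-- a clique -/
def Cl {V : Type} (G : SimpleGraph V) (K : Finset V) : Prop := ∀ u ∈ K, ∀ v ∈ K, u ≠ v → G.Adj u v

/-- a claw with the centre `t 0` (a subgraph, not necessarily induced) -/
def Claw {V : Type} (G : SimpleGraph V) (W : Finset V) (t : Fin 4 → V) : Prop :=
  Function.Injective t ∧ (∀ i, t i ∈ W) ∧ ∀ i, i ≠ 0 → G.Adj (t 0) (t i)

/-! ### linear algebra -/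

/-- the supergraph lemma for matrices with the strong spectral property -/
def S_IFT : Prop := ∀ (V : Type) [Fintype V] [DecidableEq V] (A : Matrix V V ℝ), A.IsSymm →
  (∀ X : Matrix V V ℝ, X.IsSymm → (∀ u, X u u = 0) →
    (∀ u v, u ≠ v → A u v ≠ 0 → X u v = 0) → A * X = X * A → X = 0) →
  ∀ G : SimpleGraph V, (∀ u v, u ≠ v → A u v ≠ 0 → G.Adj u v) →
  ∃ M P Q : Matrix V V ℝ, M.IsSymm ∧ (∀ u v, u ≠ v → (M u v ≠ 0 ↔ G.Adj u v)) ∧
    P * Q = 1 ∧ Q * P = 1 ∧ M = P * A * Q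

/-- from `S_IFT` -/
def S_QLE : Prop := ∀ (V : Type) [Fintype V] [DecidableEq V] (G : SimpleGraph V) (t : ℕ),
  Rz G univ t → q G ≤ t

def S_SUM : Prop := ∀ (V : Type) [Fintype V] [DecidableEq V] (G : SimpleGraph V)
  (S W : Finset V) (s t : ℕ), Rz G S s → Rz G W t → Disjoint S W → Rz G (S ∪ W) (s + t)

def S_CLI : Prop := ∀ (V : Type) [Fintype V] [DecidableEq V] (G : SimpleGraph V),
  Rz G ∅ 0 ∧ (∀ x, Rz G {x} 1) ∧ (∀ K, Cl G K → Rz G K 2)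

def S_CLAW : Prop := ∀ (V : Type) [Fintype V] [DecidableEq V] (G : SimpleGraph V) (W : Finset V)
  (t : Fin 4 → V), Claw G W t → Rz G (univ.image t) 3

def S_SPL : Prop := ∀ (V : Type) [Fintype V] [DecidableEq V] (G : SimpleGraph V)
  (a b : Fin 4 → V), Function.Injective a → Function.Injective b → (∀ i j, a i ≠ b j) →
  (∀ i j, i ≠ j → G.Adj (a i) (a j)) → (∀ i j, G.Adj (a i) (b j)) →
  Rz G (univ.image a ∪ univ.image b) 2

/-! ### combinatorics -/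

def S_RAM : Prop := ∀ s t : ℕ, ∃ N : ℕ, ∀ (V : Type) [DecidableEq V] (G : SimpleGraph V)
  (W : Finset V), N ≤ #W → (∃ K ⊆ W, #K = s ∧ Cl G K) ∨ ∃ K ⊆ W, #K = t ∧ Cl Gᶜ K

def S_PAT : Prop := ∀ (V : Type) [DecidableEq V] (G : SimpleGraph V) (K L : Finset V),
  Cl G K → 8 ≤ #K → Cl Gᶜ L → 211 ≤ #L →
  ∃ a b : Fin 4 → V, Function.Injective a ∧ Function.Injective b ∧ (∀ i j, a i ≠ b j) ∧
    (∀ i, a i ∈ K) ∧ (∀ i, b i ∈ L) ∧
    ((∀ i j, G.Adj (a i) (b j)) ∨ ∀ i j, Gᶜ.Adj (a i) (b j))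

def S_COL : Prop := ∀ (V : Type) [DecidableEq V] (G : SimpleGraph V) (W : Finset V),
  (∀ t : Fin 4 → V, ¬ Claw G W t) →
  ∃ f : V → Fin 3, ∀ u ∈ W, ∀ v ∈ W, G.Adj u v → f u ≠ f v

def S_FAM : Prop := ∀ (V : Type) [DecidableEq V] (G : SimpleGraph V) (W : Finset V) (M : ℕ),
  (∃ T : Finset (Fin 4 → V), #T = M ∧ (∀ t ∈ T, Claw G W t) ∧
    ∀ t ∈ T, ∀ t' ∈ T, t ≠ t' → ∀ i j, t i ≠ t' j) ∨
  ∃ S ⊆ W, #S ≤ 4 * M ∧ ∀ t : Fin 4 → V, ¬ Claw G (W \ S) t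

/-- from `S_RAM`, applied four times -/
def S_HOM : Prop := ∀ m : ℕ, ∃ M : ℕ, ∀ (V : Type) [DecidableEq V] (G : SimpleGraph V)
  (W : Finset V) (T : Finset (Fin 4 → V)), #T = M → (∀ t ∈ T, ∀ i, t i ∈ W) →
  (∀ t ∈ T, ∀ t' ∈ T, t ≠ t' → ∀ i, t i ≠ t' i) → (∀ K ⊆ W, #K = m → ¬ Cl Gᶜ K) →
  ∃ U ⊆ T, #U = 8 ∧ ∀ i, ∀ t ∈ U, ∀ t' ∈ U, t ≠ t' → G.Adj (t i) (t' i)

end Pool.Agent.K6.H57.NG
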