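import Pool.Agent.K6.H57.NG.Stm

/-!
# `q(G) + q(Gᶜ) ≤ n + 2` for all large `n`: further statements
-/

set_option autoImplicit false

namespace Pool.Agent.K6.H57.NG

open Finset Matrix

/-- A star with `3 r` leaves: `r` double eigenvalues. -/
def S_STAR : Prop := ∀ (V : Type) [Fintype V] [DecidableEq V] (G : SimpleGraph V) (r : ℕ)
  (c : V) (l : Fin r × Fin 3 → V), Function.Injective l → (∀ p, l p ≠ c) →
  (∀ p, G.Adj c (l p)) → Rz G (insert c (univ.image l)) (2 * r + 1)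

/-! ### graphs whose complement has bounded degree: two distinct eigenvalues -/

/-- a Parseval frame gives a projection -/
def S_PRJ : Prop := ∀ (V : Type) [Fintype V] [DecidableEq V] (G : SimpleGraph V) (r : ℕ)
  (u : V → Fin r → ℝ) (w : V → ℝ), (∀ v, 0 < w v) →
  ∑ v, w v • vecMulVec (u v) (u v) = (1 : Matrix (Fin r) (Fin r) ℝ) →
  (∀ x y, x ≠ y → (u x ⬝ᵥ u y ≠ 0 ↔ G.Adj x y)) → q G ≤ 2

/-- finitely many vectors with a robust positive representation of the identity -/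
def S_POS : Prop := ∀ r : ℕ, ∃ (N : ℕ) (u₀ : Fin N → Fin r → ℝ) (ε : ℝ), 0 < ε ∧
  ∀ u : Fin N → Fin r → ℝ, (∀ i a, |u i a - u₀ i a| < ε) →
  ∀ T : Matrix (Fin r) (Fin r) ℝ, T.IsSymm →
  ∃ δ : ℝ, 0 < δ ∧ ∃ w : Fin N → ℝ, (∀ i, 0 < w i) ∧
    ∑ i, w i • vecMulVec (u i) (u i) + δ • T = 1

/-- The vectors `u x`, `x ∈ S`, in dimension `2 D + 1` are orthogonal exactly along the edges of `Γ`
and any `D + 1` of them are linearly independent. -/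
def Good {V : Type} [DecidableEq V] (Γ : SimpleGraph V) (D : ℕ) (S : Finset V)
    (u : V → Fin (2 * D + 1) → ℝ) : Prop :=
  (∀ x ∈ S, ∀ y ∈ S, x ≠ y → (u x ⬝ᵥ u y = 0 ↔ Γ.Adj x y)) ∧
    ∀ K ⊆ S, #K ≤ D + 1 → LinearIndepOn ℝ u (K : Set V)

/-- finitely many proper subspaces do not cover an open set -/
def S_GEN : Prop := ∀ (E : Type) [NormedAddCommGroup E] [NormedSpace ℝ E] [FiniteDimensional ℝ E]
  (P : Finset (Submodule ℝ E)), (∀ p ∈ P, p ≠ ⊤) → ∀ O : Set E, IsOpen O → O.Nonempty →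
  ∃ x ∈ O, ∀ p ∈ P, x ∉ p

/-- from `S_GEN`: add one vector -/
def S_ADD : Prop := ∀ (V : Type) [DecidableEq V] (Γ : SimpleGraph V) (D : ℕ) (S : Finset V)
  (u : V → Fin (2 * D + 1) → ℝ) (x : V) (B : Finset V) (O : Set (Fin (2 * D + 1) → ℝ)),
  Good Γ D S u → x ∉ S → B ⊆ S → #B ≤ D → (∀ y ∈ S, (y ∈ B ↔ Γ.Adj x y)) → IsOpen O →
  (∃ a ∈ O, ∀ y ∈ B, a ⬝ᵥ u y = 0) →
  ∃ a ∈ O, Good Γ D (insert x S) (Function.update u x a)

/-- from `S_ADD`: first the independent vertices `ι i` near the prescribed vectors, then the rest -/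
def S_CFG : Prop := ∀ (V : Type) [Fintype V] [DecidableEq V] (Γ : SimpleGraph V) (D N : ℕ)
  (ι : Fin N → V), (∀ x, (Γ.neighborSet x).ncard ≤ D) → Function.Injective ι →
  (∀ i j, ¬ Γ.Adj (ι i) (ι j)) → ∀ (u₀ : Fin N → Fin (2 * D + 1) → ℝ) (ε : ℝ), 0 < ε →
  ∃ u : V → Fin (2 * D + 1) → ℝ, (∀ i a, |u (ι i) a - u₀ i a| < ε) ∧
    ∀ x y, x ≠ y → (u x ⬝ᵥ u y = 0 ↔ Γ.Adj x y)

/-- independent sets in graphs of bounded degree -/
def S_IND : Prop := ∀ (V : Type) [Fintype V] [DecidableEq V] (Γ : SimpleGraph V) (D N : ℕ),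
  (∀ x, (Γ.neighborSet x).ncard ≤ D) → N * (D + 1) ≤ Fintype.card V →
  ∃ ι : Fin N → V, Function.Injective ι ∧ ∀ i j, ¬ Γ.Adj (ι i) (ι j)

/-- from `S_PRJ`, `S_POS`, `S_CFG`, `S_IND` -/
def S_BDD : Prop := ∀ D : ℕ, ∃ n₀ : ℕ, ∀ (V : Type) [Fintype V] [DecidableEq V]
  (Γ : SimpleGraph V), n₀ ≤ Fintype.card V → (∀ x, (Γ.neighborSet x).ncard ≤ D) → q Γᶜ ≤ 2

end Pool.Agent.K6.H57.NG
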